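import Mathlib

/-!
# Morphisms of projective space, fields of moduli and fields of definition
-/

namespace Run7.h185.FOM

open MvPolynomial

/-- the field of algebraic numbers -/
abbrev Qbar : Type := AlgebraicClosure ℚ

/-- A morphism of degree `d` of `ℙ^N` over `Q̄`: homogeneous polynomials `f_0, …, f_N` of degree `d`
in `N + 1` variables without common zero outside the origin. -/
@[ext]
structure Mor (N d : ℕ) where
  /-- the coordinate polynomials -/
  poly : Fin (N + 1) → MvPolynomial (Fin (N + 1)) Qbar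
  homog : ∀ i, (poly i).IsHomogeneous d
  noZero : ∀ x : Fin (N + 1) → Qbar, (∀ i, eval x (poly i) = 0) → x = 0

/-- the polynomial `p(φ x)` -/
noncomputable def subst {n : ℕ} (φ : Matrix (Fin n) (Fin n) Qbar) (p : MvPolynomial (Fin n) Qbar) :
    MvPolynomial (Fin n) Qbar :=
  aeval (fun j => ∑ k, C (φ j k) * X k) p

lemma eval_aeval {σ τ K : Type} [Field K] (g : σ → MvPolynomial τ K) (x : τ → K)
    (p : MvPolynomial σ K) : eval x (aeval g p) = eval (fun i => eval x (g i)) p := by
  induction p using MvPolynomial.induction_on with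
  | C a => simp
  | add p q hp hq => rw [map_add, map_add, hp, hq, map_add]
  | mul_X p i hp => rw [map_mul, map_mul, hp, map_mul, aeval_X, eval_X]

lemma eval_subst {n : ℕ} (φ : Matrix (Fin n) (Fin n) Qbar) (p : MvPolynomial (Fin n) Qbar)
    (x : Fin n → Qbar) : eval x (subst φ p) = eval (φ.mulVec x) p := by
  unfold subst
  rw [eval_aeval]
  congr 2
  funext i
  simp [Matrix.mulVec, dotProduct]

lemma isHomogeneous_linear {σ K : Type} [Field K] (s : Finset σ) (c : σ → K) :
    (∑ k ∈ s, C (c k) * X k : MvPolynomial σ K).IsHomogeneous 1 :=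
  IsHomogeneous.sum _ _ _ fun k _ => isHomogeneous_C_mul_X _ _

lemma isHomogeneous_subst {n d : ℕ} (φ : Matrix (Fin n) (Fin n) Qbar)
    (p : MvPolynomial (Fin n) Qbar) (hp : p.IsHomogeneous d) : (subst φ p).IsHomogeneous d := by
  have := hp.aeval (fun j => ∑ k, C (φ j k) * X k : Fin n → MvPolynomial (Fin n) Qbar)
    (n := 1) (fun j => isHomogeneous_linear _ _)
  rwa [one_mul] at this

/-- `f^φ = φ⁻¹ ∘ f ∘ φ` -/
noncomputable def Mor.conj {N d : ℕ} (f : Mor N d) (φ : Matrix.GeneralLinearGroup (Fin (N + 1)) Qbar) :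
    Mor N d where
  poly i := ∑ j, C ((φ⁻¹ : Matrix.GeneralLinearGroup (Fin (N + 1)) Qbar) i j) *
    subst (φ : Matrix (Fin (N + 1)) (Fin (N + 1)) Qbar) (f.poly j)
  homog i := IsHomogeneous.sum _ _ _ fun j _ => (isHomogeneous_subst _ _ (f.homog j)).C_mul _
  noZero x hx := by
    have h1 : (φ⁻¹ : Matrix.GeneralLinearGroup (Fin (N + 1)) Qbar).1.mulVec
        (fun j => eval (φ.1.mulVec x) (f.poly j)) = 0 := by
      funext i
      have := hx i
      simp only [map_sum, map_mul, eval_C, eval_subst] at this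
      exact this
    have h2 : (fun j => eval (φ.1.mulVec x) (f.poly j)) = 0 := by
      have h3 := congrArg (fun v => φ.1.mulVec v) h1
      simp only [Matrix.mulVec_mulVec, Matrix.mulVec_zero] at h3
      rw [← Units.val_mul, mul_inv_cancel, Units.val_one, Matrix.one_mulVec] at h3
      exact h3
    have h4 := f.noZero _ (fun i => congrFun h2 i)
    have h5 := congrArg (fun v => (φ⁻¹ : Matrix.GeneralLinearGroup (Fin (N + 1)) Qbar).1.mulVec v) h4
    simp only [Matrix.mulVec_mulVec, Matrix.mulVec_zero] at h5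
    rw [← Units.val_mul, inv_mul_cancel, Units.val_one, Matrix.one_mulVec] at h5
    exact h5

/-- `f^σ`, with `σ` applied to the coefficients -/
noncomputable def Mor.galois {N d : ℕ} (f : Mor N d) (σ : Qbar ≃ₐ[ℚ] Qbar) : Mor N d where
  poly i := map (σ : Qbar →+* Qbar) (f.poly i)
  homog i := (f.homog i).map _
  noZero x hx := by
    have h1 : ∀ i, eval (fun j => σ.symm (x j)) (f.poly i) = 0 := by
      intro i
      apply σ.injective
      have h2 := map_eval (σ : Qbar →+* Qbar) (fun j => σ.symm (x j)) (f.poly i)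
      have h3 : ((σ : Qbar →+* Qbar) ∘ fun j => σ.symm (x j)) = x := by
        funext j
        exact σ.apply_symm_apply _
      rw [h3, hx i] at h2
      rw [map_zero]
      exact h2
    have h2 := f.noZero _ h1
    funext j
    have h3 := congrFun h2 j
    have h4 := congrArg σ h3
    simpa using h4

/-- Two morphisms given by proportional polynomials are the same point of `End_d^N ⊆ ℙ^ν`. -/
def Mor.Same {N d : ℕ} (f g : Mor N d) : Prop := ∃ c : Qbar, c ≠ 0 ∧ ∀ i, f.poly i = C c * g.poly i

/-- `g` is `PGL_{N+1}(Q̄)`-conjugate to `f` -/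
def Mor.IsConj {N d : ℕ} (f g : Mor N d) : Prop :=
  ∃ φ : Matrix.GeneralLinearGroup (Fin (N + 1)) Qbar, (f.conj φ).Same g

/-- the field of moduli of `f`: the fixed field of the set of all `σ ∈ Gal(Q̄/ℚ)` such that `f^σ` is
conjugate to `f` -/
def Mor.fieldOfModuli {N d : ℕ} (f : Mor N d) : IntermediateField ℚ Qbar where
  carrier := {x | ∀ σ : Qbar ≃ₐ[ℚ] Qbar, f.IsConj (f.galois σ) → σ x = x}
  mul_mem' {x y} hx hy σ hσ := by rw [map_mul, hx σ hσ, hy σ hσ]
  add_mem' {x y} hx hy σ hσ := by rw [map_add, hx σ hσ, hy σ hσ]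
  algebraMap_mem' x σ _ := σ.commutes x
  inv_mem' x hx σ hσ := by rw [map_inv₀, hx σ hσ]

/-- `f` is an `L`-rational point of `End_d^N` -/
def Mor.IsRationalOver {N d : ℕ} (f : Mor N d) (L : IntermediateField ℚ Qbar) : Prop :=
  ∃ c : Qbar, c ≠ 0 ∧ ∀ i m, c * coeff m (f.poly i) ∈ L

/-- `L` is a field of definition of `f` -/
def Mor.IsFieldOfDefinition {N d : ℕ} (f : Mor N d) (L : IntermediateField ℚ Qbar) : Prop :=
  ∃ φ : Matrix.GeneralLinearGroup (Fin (N + 1)) Qbar, (f.conj φ).IsRationalOver L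

/-- `FOM/FOD(N, d)`: the supremum over all `f ∈ End_d^N(Q̄)` of the smallest degree `[L : K_f]` of a
field of definition over the field of moduli, as an element of `ℕ ∪ {∞}`. -/
noncomputable def FOMFOD (N d : ℕ) : ℕ∞ :=
  ⨆ f : Mor N d, ⨅ L : {L : IntermediateField ℚ Qbar // f.IsFieldOfDefinition L},
    Cardinal.toENat (IntermediateField.relrank f.fieldOfModuli L.1)

end Run7.h185.FOM
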