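import Mathlib

/-!
# Finiteness of the zeros of a system whose leading forms have no nontrivial zero
-/

namespace Run7.h185.FOM

open MvPolynomial Module

section

variable {σ K J : Type} [Field K] (H L : J → MvPolynomial σ K) (d : ℕ)

/-- the spanning set -/
lemma mem_spanK (p : MvPolynomial σ K) (hp : p ∈ Ideal.span (Set.range H)) :
    p ∈ Submodule.span K {q | ∃ (α : σ →₀ ℕ) (s : J), q = monomial α (1 : K) * H s} := by
  refine Submodule.span_induction (p := fun p _ => p ∈ Submodule.span K
    {q | ∃ (α : σ →₀ ℕ) (s : J), q = monomial α (1 : K) * H s}) ?_ ?_ ?_ ?_ hp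
  · rintro _ ⟨s, rfl⟩
    apply Submodule.subset_span
    exact ⟨0, s, by simp⟩
  · exact Submodule.zero_mem _
  · intro x y _ _ hx hy
    exact Submodule.add_mem _ hx hy
  · intro c x hx' hx
    clear hx'
    induction hx using Submodule.span_induction with
    | mem x hx =>
      obtain ⟨α, s, rfl⟩ := hx
      rw [smul_eq_mul]
      induction c using MvPolynomial.induction_on' with
      | monomial β b =>
        have : monomial β b * (monomial α (1 : K) * H s) =
            b • (monomial (β + α) (1 : K) * H s) := by
          rw [← mul_assoc, monomial_mul, mul_one, ← smul_mul_assoc, smul_monomial, smul_eq_mul,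
            mul_one]
        rw [this]
        exact Submodule.smul_mem _ _ (Submodule.subset_span ⟨_, s, rfl⟩)
      | add p q hp hq =>
        rw [add_mul]
        exact Submodule.add_mem _ hp hq
    | zero => rw [smul_zero]; exact Submodule.zero_mem _
    | add x y _ _ hx hy => rw [smul_add]; exact Submodule.add_mem _ hx hy
    | smul a x _ hx => rw [smul_comm]; exact Submodule.smul_mem _ _ hx

variable {H L d}

/-- reduction of the homogeneous components of the elements of the ideal of leading forms -/
lemma reduce (hH : ∀ s, (H s).IsHomogeneous d) (hL : ∀ s, (L s).totalDegree < d)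
    (p : MvPolynomial σ K) (hp : p ∈ Ideal.span (Set.range H)) (m : ℕ) :
    ∃ q ∈ restrictTotalDegree σ K m, homogeneousComponent (m + 1) p - q ∈
      Ideal.span (Set.range fun s => H s - L s) := by
  have hp' := mem_spanK H p hp
  clear hp
  induction hp' using Submodule.span_induction with
  | mem x hx =>
    obtain ⟨α, s, rfl⟩ := hx
    have h1 : (monomial α (1 : K) * H s).IsHomogeneous (α.degree + d) :=
      (isHomogeneous_monomial 1 rfl).mul (hH s)
    rw [homogeneousComponent_of_mem h1]
    by_cases h : m + 1 = α.degree + d
    · rw [if_pos h]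
      refine ⟨monomial α (1 : K) * L s, ?_, ?_⟩
      · rw [mem_restrictTotalDegree]
        refine (totalDegree_mul _ _).trans ?_
        have h2 : (monomial α (1 : K)).totalDegree ≤ α.degree :=
          (isHomogeneous_monomial (1 : K) (d := α) rfl).totalDegree_le
        have h3 := hL s
        omega
      · rw [← mul_sub]
        exact Ideal.mul_mem_left _ _ (Ideal.subset_span ⟨s, rfl⟩)
    · rw [if_neg h]
      exact ⟨0, Submodule.zero_mem _, by rw [sub_zero]; exact Ideal.zero_mem _⟩
  | zero => exact ⟨0, Submodule.zero_mem _, by rw [map_zero, sub_zero]; exact Ideal.zero_mem _⟩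
  | add x y _ _ hx hy =>
    obtain ⟨q, hq, hq'⟩ := hx
    obtain ⟨r, hr, hr'⟩ := hy
    refine ⟨q + r, Submodule.add_mem _ hq hr, ?_⟩
    rw [map_add, add_sub_add_comm]
    exact Ideal.add_mem _ hq' hr'
  | smul a x _ hx =>
    obtain ⟨q, hq, hq'⟩ := hx
    refine ⟨a • q, Submodule.smul_mem _ _ hq, ?_⟩
    rw [map_smul, ← smul_sub]
    exact Submodule.smul_of_tower_mem _ a hq'

/-- bounded degree representatives -/
lemma sup_eq_top [Finite σ] (hH : ∀ s, (H s).IsHomogeneous d) (hL : ∀ s, (L s).totalDegree < d)
    (e : ℕ) (he : ∀ k, (X k : MvPolynomial σ K) ^ e ∈ Ideal.span (Set.range H)) :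
    ∃ D, restrictTotalDegree σ K D ⊔
      (Ideal.span (Set.range fun s => H s - L s)).restrictScalars K = ⊤ := by
  classical
  have : Fintype σ := Fintype.ofFinite σ
  set I := Ideal.span (Set.range fun s => H s - L s) with hI
  set D := Fintype.card σ * e with hD
  refine ⟨D, ?_⟩
  have hstep : ∀ m, D ≤ m → restrictTotalDegree σ K (m + 1) ≤
      restrictTotalDegree σ K m ⊔ I.restrictScalars K := by
    intro m hm p hp
    rw [mem_restrictTotalDegree] at hp
    rw [p.as_sum]
    apply Submodule.sum_mem
    intro α hα
    have hdeg : α.degree ≤ m + 1 := (le_totalDegree hα).trans hp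
    rcases Nat.lt_or_ge α.degree (m + 1) with h | h
    · apply Submodule.mem_sup_left
      rw [mem_restrictTotalDegree]
      exact (isHomogeneous_monomial _ rfl).totalDegree_le.trans (by omega)
    · have heq : α.degree = m + 1 := le_antisymm hdeg h
      obtain ⟨k, hk⟩ : ∃ k, e ≤ α k := by
        by_contra hcon
        push Not at hcon
        have h1 : α.degree ≤ ∑ _k : σ, e := by
          rw [Finsupp.degree_eq_sum]
          exact Finset.sum_le_sum fun k _ => (hcon k).le
        rw [Finset.sum_const, Finset.card_univ, smul_eq_mul] at h1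
        omega
      have hmem : monomial α (coeff α p) ∈ Ideal.span (Set.range H) := by
        have h1 : monomial α (coeff α p) =
            monomial (α - Finsupp.single k e) (coeff α p) * (X k : MvPolynomial σ K) ^ e := by
          rw [X_pow_eq_monomial, monomial_mul, mul_one]
          congr 1
          rw [tsub_add_cancel_of_le]
          rw [Finsupp.single_le_iff]
          exact hk
        rw [h1]
        exact Ideal.mul_mem_left _ _ (he k)
      obtain ⟨q, hq, hq'⟩ := reduce hH hL _ hmem m
      rw [homogeneousComponent_of_mem (n := m + 1) (isHomogeneous_monomial _ heq), if_pos rfl] at hq'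
      rw [Submodule.mem_sup]
      exact ⟨q, hq, _, hq', by ring⟩
  have hall : ∀ m, restrictTotalDegree σ K m ≤ restrictTotalDegree σ K D ⊔ I.restrictScalars K := by
    intro m
    induction m with
    | zero =>
      intro p hp
      apply Submodule.mem_sup_left
      rw [mem_restrictTotalDegree] at hp ⊢
      omega
    | succ m ih =>
      rcases Nat.lt_or_ge m D with h | h
      · intro p hp
        apply Submodule.mem_sup_left
        rw [mem_restrictTotalDegree] at hp ⊢
        omega
      · exact (hstep m h).trans (sup_le ih le_sup_right)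
  rw [eq_top_iff]
  intro p _
  exact hall p.totalDegree ((mem_restrictTotalDegree _ _ _).2 le_rfl)

/-- **finiteness of the zeros** -/
theorem finite_zeros [Finite σ] [IsAlgClosed K] (hH : ∀ s, (H s).IsHomogeneous d)
    (hL : ∀ s, (L s).totalDegree < d)
    (h0 : ∀ a : σ → K, (∀ s, eval a (H s) = 0) → a = 0) :
    {a : σ → K | ∀ s, eval a (H s) = eval a (L s)}.Finite := by
  classical
  have : Fintype σ := Fintype.ofFinite σ
  -- Nullstellensatz
  obtain ⟨e, he⟩ : ∃ e : ℕ, ∀ k, (X k : MvPolynomial σ K) ^ e ∈ Ideal.span (Set.range H) := by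
    have h1 : ∀ k, ∃ e : ℕ, (X k : MvPolynomial σ K) ^ e ∈ Ideal.span (Set.range H) := by
      intro k
      have h2 : (X k : MvPolynomial σ K) ∈ (Ideal.span (Set.range H)).radical := by
        rw [← vanishingIdeal_zeroLocus_eq_radical (K := K), mem_vanishingIdeal_iff]
        intro a ha
        rw [zeroLocus_span] at ha
        have h3 : a = 0 := by
          apply h0
          intro s
          have := ha (H s) ⟨s, rfl⟩
          rwa [← coe_aeval_eq_eval]
        rw [h3]
        simp
      exact h2
    choose e he using h1
    refine ⟨∑ k, e k, fun k => ?_⟩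
    have h2 : e k ≤ ∑ k, e k := Finset.single_le_sum (f := e) (fun _ _ => Nat.zero_le _)
      (Finset.mem_univ k)
    obtain ⟨c, hc⟩ := Nat.exists_eq_add_of_le h2
    rw [hc, pow_add]
    exact Ideal.mul_mem_right _ _ (he k)
  obtain ⟨D, hD⟩ := sup_eq_top hH hL e he
  set I := Ideal.span (Set.range fun s => H s - L s) with hI
  set Z := {a : σ → K | ∀ s, eval a (H s) = eval a (L s)} with hZ
  have hvan : ∀ a ∈ Z, ∀ p ∈ I, eval a p = 0 := by
    intro a ha p hp
    induction hp using Submodule.span_induction with
    | mem x hx =>
      obtain ⟨s, rfl⟩ := hx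
      simp only [map_sub]
      rw [ha s, sub_self]
    | zero => exact map_zero _
    | add x y _ _ hx hy => rw [map_add, hx, hy, add_zero]
    | smul c x _ hx => rw [smul_eq_mul, map_mul, hx, mul_zero]
  let U := restrictTotalDegree σ K D
  let ev : Z → Module.Dual K U := fun a => (aeval (R := K) (a : σ → K)).toLinearMap ∘ₗ U.subtype
  have hev : ∀ (a : Z) (u : U), ev a u = eval (a : σ → K) (u : MvPolynomial σ K) := by
    intro a u
    change aeval (R := K) (a : σ → K) (u : MvPolynomial σ K) = _
    rw [← coe_aeval_eq_eval (a : σ → K)]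
    rfl
  have hli : LinearIndependent K ev := by
    rw [linearIndependent_iff']
    intro s g hg i hi
    have hded := (linearIndependent_monoidHom (MvPolynomial σ K) K).comp
      (fun a : Z => ((eval (a : σ → K) : MvPolynomial σ K →+* K) : MvPolynomial σ K →* K)) (by
        intro a b hab
        apply Subtype.ext
        funext k
        have := DFunLike.congr_fun hab (X k)
        simpa using this)
    rw [linearIndependent_iff'] at hded
    refine hded s g ?_ i hi
    funext p
    have hp : p ∈ U ⊔ I.restrictScalars K := by
      rw [hD]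
      trivial
    obtain ⟨u, hu, w, hw, rfl⟩ := Submodule.mem_sup.1 hp
    rw [Finset.sum_apply]
    have h1 := congrArg (fun T : Module.Dual K U => T ⟨u, hu⟩) hg
    simp only [LinearMap.sum_apply, LinearMap.smul_apply, hev, LinearMap.zero_apply,
      smul_eq_mul] at h1
    simp only [Pi.smul_apply, Function.comp_apply, Pi.zero_apply, smul_eq_mul]
    rw [← h1]
    apply Finset.sum_congr rfl
    intro a _
    congr 1
    change eval (a : σ → K) (u + w) = _
    rw [map_add, hvan a a.2 w hw, add_zero]
  have := hli.finite
  exact this

end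

end Run7.h185.FOM
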