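import Mathlib
import Pool.Agent.Run7.h185.FOM.Defs
import Pool.Agent.Run7.h185.FOM.Zeros

/-!
# Evaluations; finiteness of the commuting matrices
-/

namespace Run7.h185.FOM

open MvPolynomial Module

variable {N d : ℕ}

/-- the polynomial map -/
noncomputable def Mor.ev (f : Mor N d) (x : Fin (N + 1) → Qbar) : Fin (N + 1) → Qbar :=
  fun i => eval x (f.poly i)

lemma Mor.ev_apply (f : Mor N d) (x : Fin (N + 1) → Qbar) (i : Fin (N + 1)) :
    f.ev x i = eval x (f.poly i) := rfl

lemma Mor.ev_eq_zero (f : Mor N d) (x : Fin (N + 1) → Qbar) (h : f.ev x = 0) : x = 0 :=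
  f.noZero x fun i => congrFun h i

lemma Mor.ev_smul (f : Mor N d) (c : Qbar) (x : Fin (N + 1) → Qbar) :
    f.ev (c • x) = c ^ d • f.ev x := by
  funext i
  rw [Pi.smul_apply, Mor.ev_apply, Mor.ev_apply, eval_eq', eval_eq', Finset.smul_sum]
  apply Finset.sum_congr rfl
  intro m hm
  have h1 : m.degree = d := (f.homog i).degree_eq_sum_deg_support hm ▸ rfl
  have h2 : ∏ j, (c • x) j ^ m j = c ^ d * ∏ j, x j ^ m j := by
    simp only [Pi.smul_apply, smul_eq_mul, mul_pow]
    rw [Finset.prod_mul_distrib, Finset.prod_pow_eq_pow_sum, ← h1, Finsupp.degree_eq_sum]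
  rw [h2, smul_eq_mul]
  ring

lemma Mor.ext_ev (f g : Mor N d) (h : ∀ x, f.ev x = g.ev x) : f = g := by
  apply Mor.ext
  funext i
  apply MvPolynomial.funext
  intro x
  exact congrFun (h x) i

lemma Mor.ev_conj (f : Mor N d) (φ : Matrix.GeneralLinearGroup (Fin (N + 1)) Qbar)
    (x : Fin (N + 1) → Qbar) :
    (f.conj φ).ev x = (φ⁻¹ : Matrix.GeneralLinearGroup (Fin (N + 1)) Qbar).1.mulVec
      (f.ev (φ.1.mulVec x)) := by
  funext i
  rw [Mor.ev_apply]
  simp only [Mor.conj, map_sum, map_mul, eval_C, eval_subst]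
  rfl

lemma Mor.ev_galois (f : Mor N d) (σ : Qbar ≃ₐ[ℚ] Qbar) (x : Fin (N + 1) → Qbar) :
    (f.galois σ).ev (fun j => σ (x j)) = fun i => σ (f.ev x i) := by
  funext i
  rw [Mor.ev_apply, Mor.ev_apply]
  exact (map_eval (σ : Qbar →+* Qbar) x (f.poly i)).symm

lemma Mor.conj_conj (f : Mor N d) (φ ψ : Matrix.GeneralLinearGroup (Fin (N + 1)) Qbar) :
    (f.conj φ).conj ψ = f.conj (φ * ψ) := by
  apply Mor.ext_ev
  intro x
  rw [Mor.ev_conj, Mor.ev_conj, Mor.ev_conj, Matrix.mulVec_mulVec, Matrix.mulVec_mulVec,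
    mul_inv_rev, Units.val_mul, Units.val_mul]

/-- equality of points of projective space in terms of evaluations -/
lemma Mor.same_iff (f g : Mor N d) : f.Same g ↔ ∃ c : Qbar, c ≠ 0 ∧ ∀ x, f.ev x = c • g.ev x := by
  constructor
  · rintro ⟨c, hc, h⟩
    refine ⟨c, hc, fun x => ?_⟩
    funext i
    rw [Pi.smul_apply, Mor.ev_apply, Mor.ev_apply, h i, map_mul, eval_C, smul_eq_mul]
  · rintro ⟨c, hc, h⟩
    refine ⟨c, hc, fun i => ?_⟩
    apply MvPolynomial.funext
    intro x
    have := congrFun (h x) i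
    rw [Pi.smul_apply, Mor.ev_apply, Mor.ev_apply, smul_eq_mul] at this
    rw [this, map_mul, eval_C]

/-- **finiteness of the commuting matrices** -/
theorem Mor.finite_comm (hd : 2 ≤ d) (f : Mor N d) :
    {g : Module.End Qbar (Fin (N + 1) → Qbar) | ∀ y, f.ev (g y) = g (f.ev y)}.Finite := by
  classical
  let H : (Fin (N + 1) → Qbar) × Fin (N + 1) → MvPolynomial (Fin (N + 1) × Fin (N + 1)) Qbar :=
    fun s => aeval (fun j => ∑ k, C (s.1 k) * X (j, k)) (f.poly s.2)
  let L : (Fin (N + 1) → Qbar) × Fin (N + 1) → MvPolynomial (Fin (N + 1) × Fin (N + 1)) Qbar :=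
    fun s => ∑ j, C (f.ev s.1 j) * X (s.2, j)
  have hHd : ∀ s, (H s).IsHomogeneous d := by
    intro s
    have := (f.homog s.2).aeval (fun j => ∑ k, C (s.1 k) * X (j, k) :
      Fin (N + 1) → MvPolynomial (Fin (N + 1) × Fin (N + 1)) Qbar) (n := 1)
      (fun j => IsHomogeneous.sum _ _ _ fun k _ => isHomogeneous_C_mul_X _ _)
    rwa [one_mul] at this
  have hLd : ∀ s, (L s).totalDegree < d := by
    intro s
    have : (L s).IsHomogeneous 1 := IsHomogeneous.sum _ _ _ fun k _ => isHomogeneous_C_mul_X _ _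
    exact this.totalDegree_le.trans_lt (by omega)
  let mat : (Fin (N + 1) × Fin (N + 1) → Qbar) → Module.End Qbar (Fin (N + 1) → Qbar) :=
    fun a => Matrix.toLin' (Matrix.of fun i j => a (i, j))
  have hmat : ∀ a x i, mat a x i = ∑ k, x k * a (i, k) := by
    intro a x i
    simp only [mat, Matrix.toLin'_apply, Matrix.mulVec, dotProduct, Matrix.of_apply]
    apply Finset.sum_congr rfl
    intro k _
    ring
  have hH : ∀ a s, eval a (H s) = f.ev (mat a s.1) s.2 := by
    intro a s
    rw [Mor.ev_apply]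
    simp only [H]
    rw [eval_aeval]
    congr 2
    funext j
    rw [hmat]
    simp
  have hL : ∀ a s, eval a (L s) = mat a (f.ev s.1) s.2 := by
    intro a s
    rw [hmat]
    simp [L]
  have hfin := finite_zeros (H := H) (L := L) (d := d) hHd hLd (by
    intro a ha
    have h1 : ∀ x, mat a x = 0 := by
      intro x
      apply f.ev_eq_zero
      funext i
      have := ha (x, i)
      rw [hH] at this
      exact this
    funext ⟨i, j⟩
    have h2 := congrFun (h1 (Pi.single j 1)) i
    rw [hmat] at h2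
    simpa [Pi.single_apply] using h2)
  refine (hfin.image mat).subset ?_
  intro g hg
  refine ⟨fun p => LinearMap.toMatrix' g p.1 p.2, ?_, ?_⟩
  · intro s
    rw [hH, hL]
    have h1 : mat (fun p => LinearMap.toMatrix' g p.1 p.2) = g := by
      simp only [mat]
      exact Matrix.toLin'_toMatrix' g
    rw [h1, hg s.1]
  · simp only [mat]
    exact Matrix.toLin'_toMatrix' g

end Run7.h185.FOM
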