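import Mathlib

/-!
# Spectral idempotents, by an explicit formula
-/

namespace Run7.h185.FOM

open Polynomial Module

variable {K : Type*} [Field K]

/-- the interpolation polynomial -/
noncomputable def lag (Λ : Finset K) (μ : K) [DecidableEq K] : K[X] :=
  ∏ ν ∈ Λ.erase μ, C (μ - ν)⁻¹ * (X - C ν)

/-- a polynomial which is `1` modulo `(X - μ) ^ m` and `0` modulo `(X - ν) ^ m`, `ν ∈ Λ \ {μ}` -/
noncomputable def idp [DecidableEq K] (m : ℕ) (Λ : Finset K) (μ : K) : K[X] :=
  1 - (1 - lag Λ μ ^ m) ^ m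

section
variable [DecidableEq K]

lemma eval_lag_self (Λ : Finset K) (μ : K) : (lag Λ μ).eval μ = 1 := by
  unfold lag
  rw [eval_prod]
  apply Finset.prod_eq_one
  intro ν hν
  have : μ - ν ≠ 0 := sub_ne_zero.2 (Finset.ne_of_mem_erase hν).symm
  simp [this]

lemma dvd_one_sub_idp (m : ℕ) (Λ : Finset K) (μ : K) : (X - C μ) ^ m ∣ 1 - idp m Λ μ := by
  have h1 : X - C μ ∣ 1 - lag Λ μ ^ m := by
    rw [dvd_iff_isRoot, IsRoot.def]
    simp [eval_lag_self]
  have h2 : 1 - idp m Λ μ = (1 - lag Λ μ ^ m) ^ m := by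
    unfold idp
    ring
  rw [h2]
  exact pow_dvd_pow_of_dvd h1 m

lemma dvd_idp (m : ℕ) (Λ : Finset K) (μ : K) :
    ∏ ν ∈ Λ.erase μ, (X - C ν) ^ m ∣ idp m Λ μ := by
  have h1 : lag Λ μ ^ m ∣ idp m Λ μ := by
    unfold idp
    have : (1 : K[X]) - (1 - lag Λ μ ^ m) ∣ 1 ^ m - (1 - lag Λ μ ^ m) ^ m := sub_dvd_pow_sub_pow _ _ m
    rwa [sub_sub_cancel, one_pow] at this
  refine dvd_trans ?_ h1
  unfold lag
  rw [← Finset.prod_pow]
  apply Finset.prod_dvd_prod_of_dvd
  intro ν _
  rw [mul_pow]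
  exact Dvd.intro_left _ rfl

lemma eval_idp_self (m : ℕ) (hm : m ≠ 0) (Λ : Finset K) (μ : K) : (idp m Λ μ).eval μ = 1 := by
  unfold idp
  simp [eval_lag_self, hm]

lemma eval_idp_ne (m : ℕ) (hm : m ≠ 0) (Λ : Finset K) (μ ν : K) (hν : ν ∈ Λ) (h : ν ≠ μ) :
    (idp m Λ μ).eval ν = 0 := by
  have h1 := dvd_idp m Λ μ
  have h2 : (X - C ν) ∣ ∏ ν ∈ Λ.erase μ, (X - C ν) ^ m := by
    refine dvd_trans (dvd_pow_self _ hm) ?_
    exact Finset.dvd_prod_of_mem (fun ν => (X - C ν) ^ m) (Finset.mem_erase.2 ⟨h, hν⟩)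
  exact (dvd_iff_isRoot.1 (h2.trans h1))

lemma map_lag (σ : K ≃+* K) (Λ : Finset K) (μ : K) :
    (lag Λ μ).map (σ : K →+* K) = lag (Λ.image σ) (σ μ) := by
  unfold lag
  rw [Polynomial.map_prod, ← Finset.image_erase σ.injective,
    Finset.prod_image (fun a _ b _ h => σ.injective h)]
  apply Finset.prod_congr rfl
  intro ν _
  simp

lemma map_idp (σ : K ≃+* K) (m : ℕ) (Λ : Finset K) (μ : K) :
    (idp m Λ μ).map (σ : K →+* K) = idp m (Λ.image σ) (σ μ) := by
  unfold idp
  simp [map_lag]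

lemma comp_lag (c : K) (hc : c ≠ 0) (Λ : Finset K) (μ : K) :
    (lag (Λ.image (fun x => c * x)) (c * μ)).comp (C c * X) = lag Λ μ := by
  unfold lag
  have hinj : Function.Injective (fun x : K => c * x) := mul_right_injective₀ hc
  have : (Λ.image (fun x => c * x)).erase (c * μ) = (Λ.erase μ).image (fun x => c * x) :=
    (Finset.image_erase hinj Λ μ).symm
  rw [this, Finset.prod_image (fun a _ b _ h => hinj h), Polynomial.prod_comp]
  apply Finset.prod_congr rfl
  intro ν hν
  have h0 : μ - ν ≠ 0 := sub_ne_zero.2 (Finset.ne_of_mem_erase hν).symm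
  simp only [mul_comp, C_comp, sub_comp, X_comp]
  rw [← mul_sub, mul_inv, C_mul, C_mul]
  calc C c⁻¹ * C (μ - ν)⁻¹ * (C c * X - C c * C ν) = (C c⁻¹ * C c) * (C (μ - ν)⁻¹ * (X - C ν)) := by ring
    _ = _ := by rw [← C_mul, inv_mul_cancel₀ hc, C_1, one_mul]

lemma comp_idp (c : K) (hc : c ≠ 0) (m : ℕ) (Λ : Finset K) (μ : K) :
    (idp m (Λ.image (fun x => c * x)) (c * μ)).comp (C c * X) = idp m Λ μ := by
  unfold idp
  simp [comp_lag c hc]

end

variable {W : Type*} [AddCommGroup W] [Module K W] [FiniteDimensional K W]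

/-- the finite set of the eigenvalues -/
noncomputable def spec (s : Module.End K W) : Finset K := (Module.End.finite_spectrum s).toFinset

lemma mem_spec (s : Module.End K W) (μ : K) : μ ∈ spec s ↔ μ ∈ spectrum K s := by
  simp [spec]

lemma mem_spec_iff_root (s : Module.End K W) (μ : K) : μ ∈ spec s ↔ s.charpoly.IsRoot μ := by
  rw [mem_spec, Module.End.mem_spectrum_iff_isRoot_charpoly]

open Classical in
lemma card_spec_le (s : Module.End K W) : (spec s).card ≤ finrank K W := by
  have h1 : spec s ⊆ s.charpoly.roots.toFinset := by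
    intro μ hμ
    rw [Multiset.mem_toFinset, mem_roots (LinearMap.charpoly_monic s).ne_zero]
    exact (mem_spec_iff_root s μ).1 hμ
  refine (Finset.card_le_card h1).trans ((Multiset.toFinset_card_le _).trans ?_)
  rw [← LinearMap.charpoly_natDegree s]
  exact card_roots' _

/-- the spectral idempotent -/
noncomputable def eid [DecidableEq K] (s : Module.End K W) (μ : K) : Module.End K W :=
  aeval s (idp (finrank K W) (spec s) μ)

section
variable [DecidableEq K] [IsAlgClosed K]

lemma charpoly_dvd (s : Module.End K W) : s.charpoly ∣ ∏ μ ∈ spec s, (X - C μ) ^ finrank K W := by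
  have hs := IsAlgClosed.splits s.charpoly
  have h1 := hs.eq_prod_roots_of_monic (LinearMap.charpoly_monic s)
  rw [h1, Finset.prod_multiset_map_count]
  have h2 : s.charpoly.roots.toFinset = spec s := by
    ext μ
    rw [Multiset.mem_toFinset, mem_roots (LinearMap.charpoly_monic s).ne_zero, mem_spec_iff_root]
  rw [h2]
  apply Finset.prod_dvd_prod_of_dvd
  intro μ _
  apply pow_dvd_pow
  rw [← LinearMap.charpoly_natDegree s]
  exact (Multiset.count_le_card _ _).trans (card_roots' _)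

lemma eid_mul_self (s : Module.End K W) (μ : K) (hμ : μ ∈ spec s) :
    eid s μ * eid s μ = eid s μ := by
  have h1 : s.charpoly ∣ idp (finrank K W) (spec s) μ * (1 - idp (finrank K W) (spec s) μ) := by
    refine (charpoly_dvd s).trans ?_
    rw [← Finset.prod_erase_mul _ _ hμ]
    exact mul_dvd_mul (dvd_idp _ _ _) (dvd_one_sub_idp _ _ _)
  have h2 : aeval s (idp (finrank K W) (spec s) μ * (1 - idp (finrank K W) (spec s) μ)) = 0 := by
    obtain ⟨q, hq⟩ := h1
    rw [hq, map_mul, LinearMap.aeval_self_charpoly, zero_mul]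
  rw [map_mul, map_sub, map_one, mul_sub, mul_one, sub_eq_zero] at h2
  exact h2.symm

omit [DecidableEq K] [IsAlgClosed K] in
lemma exists_eigenvector (s : Module.End K W) (μ : K) (hμ : μ ∈ spec s) :
    ∃ v : W, v ≠ 0 ∧ s v = μ • v := by
  rw [mem_spec, ← Module.End.hasEigenvalue_iff_mem_spectrum] at hμ
  obtain ⟨v, hv⟩ := hμ.exists_hasEigenvector
  exact ⟨v, hv.2, hv.apply_eq_smul⟩

omit [FiniteDimensional K W] [DecidableEq K] [IsAlgClosed K] in
lemma aeval_eigenvector (s : Module.End K W) (μ : K) (v : W) (hv : s v = μ • v) (p : K[X]) :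
    aeval s p v = p.eval μ • v := by
  by_cases h0 : v = 0
  · simp [h0]
  · exact Module.End.aeval_apply_of_hasEigenvector ⟨Module.End.mem_eigenspace_iff.2 hv, h0⟩

omit [IsAlgClosed K] in
lemma eid_ne_zero (s : Module.End K W) (μ : K) (hμ : μ ∈ spec s) (hm : finrank K W ≠ 0) :
    eid s μ ≠ 0 := by
  obtain ⟨v, hv0, hv⟩ := exists_eigenvector s μ hμ
  intro h
  have h1 := aeval_eigenvector s μ v hv (idp (finrank K W) (spec s) μ)
  rw [eval_idp_self _ hm, one_smul] at h1
  have h2 : eid s μ v = v := h1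
  rw [h] at h2
  exact hv0 h2.symm

omit [IsAlgClosed K] in
lemma eid_ne_one (s : Module.End K W) (μ ν : K) (hν : ν ∈ spec s) (h : ν ≠ μ)
    (hm : finrank K W ≠ 0) : eid s μ ≠ 1 := by
  obtain ⟨v, hv0, hv⟩ := exists_eigenvector s ν hν
  intro h'
  have h1 := aeval_eigenvector s ν v hv (idp (finrank K W) (spec s) μ)
  rw [eval_idp_ne _ hm _ _ _ hν h, zero_smul] at h1
  have h2 : eid s μ v = 0 := h1
  rw [h'] at h2
  exact hv0 h2

omit [IsAlgClosed K] in
lemma eid_mem_adjoin (s : Module.End K W) (μ : K) : eid s μ ∈ Algebra.adjoin K {s} := by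
  unfold eid
  exact aeval_mem_adjoin_singleton K s

omit [DecidableEq K] [IsAlgClosed K] [FiniteDimensional K W] in
lemma aeval_semi (σ : K ≃+* K) (Ψ : Module.End K W →+* Module.End K W)
    (hΨ : ∀ (c : K) (u : Module.End K W), Ψ (c • u) = σ c • Ψ u) (s : Module.End K W) (p : K[X]) :
    Ψ (aeval s p) = aeval (Ψ s) (p.map (σ : K →+* K)) := by
  induction p using Polynomial.induction_on' with
  | add p q hp hq => rw [map_add, map_add, hp, hq, Polynomial.map_add, map_add]
  | monomial n a =>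
    rw [aeval_monomial, map_mul, map_pow, Polynomial.map_monomial, aeval_monomial,
      Algebra.algebraMap_eq_smul_one, Algebra.algebraMap_eq_smul_one, hΨ, map_one]
    rfl

omit [DecidableEq K] [IsAlgClosed K] in
lemma spec_semi (σ : K ≃+* K) (Ψ : Module.End K W ≃+* Module.End K W)
    (hΨ : ∀ (c : K) (u : Module.End K W), Ψ (c • u) = σ c • Ψ u) (s : Module.End K W) (μ : K) :
    σ μ ∈ spec (Ψ s) ↔ μ ∈ spec s := by
  rw [mem_spec, mem_spec, spectrum.mem_iff, spectrum.mem_iff, not_iff_not]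
  have : algebraMap K (Module.End K W) (σ μ) - Ψ s = Ψ (algebraMap K (Module.End K W) μ - s) := by
    rw [map_sub, Algebra.algebraMap_eq_smul_one, Algebra.algebraMap_eq_smul_one, hΨ, map_one]
  rw [this]
  exact MulEquiv.isUnit_map Ψ

omit [IsAlgClosed K] in
lemma eid_semi (σ : K ≃+* K) (Ψ : Module.End K W ≃+* Module.End K W)
    (hΨ : ∀ (c : K) (u : Module.End K W), Ψ (c • u) = σ c • Ψ u) (s : Module.End K W) (μ : K) :
    Ψ (eid s μ) = eid (Ψ s) (σ μ) := by
  unfold eid
  have h1 : (spec s).image σ = spec (Ψ s) := by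
    ext ν
    rw [Finset.mem_image]
    constructor
    · rintro ⟨μ, hμ, rfl⟩
      exact (spec_semi σ Ψ hΨ s μ).2 hμ
    · intro hν
      refine ⟨σ.symm ν, ?_, σ.apply_symm_apply ν⟩
      rw [← spec_semi σ Ψ hΨ, σ.apply_symm_apply]
      exact hν
  rw [← h1, ← map_idp]
  exact aeval_semi σ (Ψ : Module.End K W →+* Module.End K W) hΨ s _

omit [IsAlgClosed K] in
lemma eid_smul (c : K) (hc : c ≠ 0) (s : Module.End K W) (μ : K) :
    eid (c • s) (c * μ) = eid s μ := by
  unfold eid
  have h1 : spec (c • s) = (spec s).image (fun x => c * x) := by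
    ext ν
    rw [Finset.mem_image]
    have key : ∀ μ, c * μ ∈ spec (c • s) ↔ μ ∈ spec s := by
      intro μ
      rw [mem_spec, mem_spec, spectrum.mem_iff, spectrum.mem_iff, not_iff_not]
      have : algebraMap K (Module.End K W) (c * μ) - c • s =
          (Units.mk0 c hc) • (algebraMap K (Module.End K W) μ - s) := by
        rw [smul_sub, Algebra.algebraMap_eq_smul_one, Algebra.algebraMap_eq_smul_one]
        simp only [Units.smul_mk0, smul_smul]
      rw [this]
      exact isUnit_smul_iff (Units.mk0 c hc) _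
    constructor
    · intro hν
      refine ⟨c⁻¹ * ν, ?_, ?_⟩
      · rw [← key, mul_inv_cancel_left₀ hc]
        exact hν
      · rw [mul_inv_cancel_left₀ hc]
    · rintro ⟨μ, hμ, rfl⟩
      exact (key μ).2 hμ
  rw [h1, ← comp_idp c hc (finrank K W) (spec s) μ, aeval_comp]
  congr 1
  simp [Algebra.smul_def]

end

/-- an operator with a single eigenvalue has trace a multiple of it -/
lemma trace_of_single [IsAlgClosed K] (s : Module.End K W) (lam : K) (h : ∀ μ ∈ spec s, μ = lam) :
    LinearMap.trace K W s = finrank K W * lam := by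
  have hs := IsAlgClosed.splits s.charpoly
  rw [Module.End.trace_eq_sum_roots_charpoly_of_splits hs]
  have h1 : s.charpoly.roots = Multiset.replicate (finrank K W) lam := by
    rw [Multiset.eq_replicate]
    refine ⟨?_, ?_⟩
    · rw [← LinearMap.charpoly_natDegree s]
      exact hs.natDegree_eq_card_roots.symm
    · intro μ hμ
      rw [mem_roots (LinearMap.charpoly_monic s).ne_zero] at hμ
      exact h μ ((mem_spec_iff_root s μ).2 hμ)
  rw [h1, Multiset.sum_replicate, nsmul_eq_mul]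

end Run7.h185.FOM
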