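import Mathlib
import Pool.Agent.Run7.h185.FOM.Spectral

/-!
# Semilinear actions
-/

namespace Run7.h185.FOM

open Polynomial Module

/-- a semilinear action of the group `Γ` on the `K`-vector space `W` -/
structure SL (K Γ W : Type) [Field K] [Group Γ] [AddCommGroup W] [Module K W] where
  /-- the action on the scalars -/
  τ : Γ →* (K ≃+* K)
  /-- the action on the vectors -/
  ρ : Γ →* AddMonoid.End W
  semi : ∀ (γ : Γ) (c : K) (w : W), ρ γ (c • w) = τ γ c • ρ γ w

namespace SL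

variable {K Γ W : Type} [Field K] [Group Γ] [AddCommGroup W] [Module K W] (R : SL K Γ W)

lemma ρ_mul_apply (γ δ : Γ) (w : W) : R.ρ (γ * δ) w = R.ρ γ (R.ρ δ w) := by
  rw [map_mul]
  rfl

lemma ρ_one_apply (w : W) : R.ρ 1 w = w := by
  rw [map_one]
  rfl

lemma ρ_inv_apply (γ : Γ) (w : W) : R.ρ γ (R.ρ γ⁻¹ w) = w := by
  rw [← ρ_mul_apply, mul_inv_cancel, ρ_one_apply]

lemma ρ_inv_apply' (γ : Γ) (w : W) : R.ρ γ⁻¹ (R.ρ γ w) = w := by
  rw [← ρ_mul_apply, inv_mul_cancel, ρ_one_apply]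

lemma τ_mul_apply (γ δ : Γ) (c : K) : R.τ (γ * δ) c = R.τ γ (R.τ δ c) := by
  rw [map_mul]
  rfl

lemma τ_one_apply (c : K) : R.τ 1 c = c := by
  rw [map_one]
  rfl

lemma τ_inv_apply (γ : Γ) (c : K) : R.τ γ (R.τ γ⁻¹ c) = c := by
  rw [← τ_mul_apply, mul_inv_cancel, τ_one_apply]

/-- conjugation, as a function -/
def conjFun (γ : Γ) (u : Module.End K W) : Module.End K W where
  toFun w := R.ρ γ (u (R.ρ γ⁻¹ w))
  map_add' v w := by rw [map_add, map_add, map_add]
  map_smul' c w := by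
    rw [R.semi, map_smul, R.semi, τ_inv_apply]
    rfl

lemma conjFun_apply (γ : Γ) (u : Module.End K W) (w : W) :
    R.conjFun γ u w = R.ρ γ (u (R.ρ γ⁻¹ w)) := rfl

lemma conjFun_mul (γ δ : Γ) (u : Module.End K W) :
    R.conjFun (γ * δ) u = R.conjFun γ (R.conjFun δ u) := by
  ext w
  simp only [conjFun_apply]
  rw [mul_inv_rev, ρ_mul_apply, ρ_mul_apply]

lemma conjFun_one (u : Module.End K W) : R.conjFun 1 u = u := by
  ext w
  rw [conjFun_apply, inv_one, ρ_one_apply, ρ_one_apply]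

/-- the conjugation action on the endomorphisms -/
def conj (γ : Γ) : Module.End K W ≃+* Module.End K W where
  toFun := R.conjFun γ
  invFun := R.conjFun γ⁻¹
  left_inv u := by rw [← conjFun_mul, inv_mul_cancel, conjFun_one]
  right_inv u := by rw [← conjFun_mul, mul_inv_cancel, conjFun_one]
  map_mul' u v := by
    ext w
    simp only [conjFun_apply, Module.End.mul_apply, ρ_inv_apply']
  map_add' u v := by
    ext w
    simp only [conjFun_apply, LinearMap.add_apply, map_add]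

lemma conj_apply (γ : Γ) (u : Module.End K W) (w : W) :
    R.conj γ u w = R.ρ γ (u (R.ρ γ⁻¹ w)) := rfl

lemma conj_smul (γ : Γ) (c : K) (u : Module.End K W) :
    R.conj γ (c • u) = R.τ γ c • R.conj γ u := by
  ext w
  simp only [conj_apply, LinearMap.smul_apply, R.semi]

lemma conj_mul (γ δ : Γ) (u : Module.End K W) : R.conj (γ * δ) u = R.conj γ (R.conj δ u) :=
  R.conjFun_mul γ δ u

lemma conj_one (u : Module.End K W) : R.conj 1 u = u := R.conjFun_one u

lemma conj_inv_conj (γ : Γ) (u : Module.End K W) : R.conj γ⁻¹ (R.conj γ u) = u := by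
  rw [← conj_mul, inv_mul_cancel, conj_one]

lemma conj_conj_inv (γ : Γ) (u : Module.End K W) : R.conj γ (R.conj γ⁻¹ u) = u := by
  rw [← conj_mul, mul_inv_cancel, conj_one]

/-- the stabilizer of an endomorphism -/
def stab (u : Module.End K W) : Subgroup Γ where
  carrier := {γ | R.conj γ u = u}
  mul_mem' {γ δ} h1 h2 := by
    simp only [Set.mem_ofPred_eq] at h1 h2 ⊢
    rw [conj_mul, h2, h1]
  one_mem' := R.conj_one u
  inv_mem' {γ} h := by
    simp only [Set.mem_ofPred_eq] at h ⊢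
    nth_rewrite 1 [← h]
    rw [conj_inv_conj]

lemma mem_stab (u : Module.End K W) (γ : Γ) : γ ∈ R.stab u ↔ R.conj γ u = u := Iff.rfl

/-- the orbit of an endomorphism -/
def orb (u : Module.End K W) : Set (Module.End K W) := Set.range fun γ => R.conj γ u

lemma index_stab (u : Module.End K W) : (R.stab u).index = (R.orb u).ncard := by
  let _ : MulAction Γ (Module.End K W) :=
    { smul := fun γ u => R.conj γ u
      one_smul := R.conj_one
      mul_smul := R.conj_mul }
  exact MulAction.index_stabilizer Γ u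

lemma index_stab_ne_zero (u : Module.End K W) (h : (R.orb u).Finite) : (R.stab u).index ≠ 0 := by
  rw [index_stab]
  exact (Set.ncard_pos h).2 ⟨_, 1, rfl⟩ |>.ne'

/-- the linear operators in the action -/
def lin : R.τ.ker →* Module.End K W where
  toFun γ :=
    { toFun := fun w => R.ρ γ w
      map_add' := fun v w => map_add _ v w
      map_smul' := fun c w => by
        rw [R.semi]
        have : R.τ γ = 1 := γ.2
        rw [this]
        rfl }
  map_one' := by
    ext w
    exact R.ρ_one_apply w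
  map_mul' γ δ := by
    ext w
    exact R.ρ_mul_apply γ δ w

lemma lin_apply (γ : R.τ.ker) (w : W) : R.lin γ w = R.ρ γ w := rfl

lemma conj_lin (γ : Γ) (g : R.τ.ker) (g' : R.τ.ker) (h : (g' : Γ) = γ * g * γ⁻¹) :
    R.conj γ (R.lin g) = R.lin g' := by
  ext w
  rw [conj_apply, lin_apply, lin_apply, h, ρ_mul_apply, ρ_mul_apply]

lemma conj_of_ker (g : R.τ.ker) (u : Module.End K W) :
    R.conj g u * R.lin g = R.lin g * u := by
  ext w
  rw [Module.End.mul_apply, Module.End.mul_apply, conj_apply, lin_apply, lin_apply, ρ_inv_apply']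

/-- the finiteness and continuity properties needed -/
structure Adm (R : SL K Γ W) : Prop where
  fin0 : ∀ u : Module.End K W, {x | ∃ γ, R.τ γ = 1 ∧ R.conj γ u = x}.Finite
  cont : ∀ E : Set (Module.End K W), E.Finite → ∃ T : Set K, T.Finite ∧
    ∀ γ, (∀ c ∈ T, R.τ γ c = c) → ∃ γ₀, R.τ γ₀ = 1 ∧ ∀ u ∈ E, R.conj γ u = R.conj γ₀ u
  alg : ∀ c : K, {x | ∃ γ, R.τ γ c = x}.Finite

/-- restriction to an invariant subspace, over a subgroup -/
def restrict (Γ' : Subgroup Γ) (S : Submodule K W) (hS : ∀ γ ∈ Γ', ∀ w ∈ S, R.ρ γ w ∈ S) :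
    SL K Γ' S where
  τ := R.τ.comp Γ'.subtype
  ρ :=
    { toFun := fun γ =>
        { toFun := fun w => ⟨R.ρ γ w, hS γ γ.2 w w.2⟩
          map_zero' := Subtype.ext (map_zero (R.ρ γ))
          map_add' := fun v w => Subtype.ext (map_add (R.ρ γ) (v : W) (w : W)) }
      map_one' := by
        apply AddMonoidHom.ext
        intro w
        exact Subtype.ext (R.ρ_one_apply w)
      map_mul' := by
        intro γ δ
        apply AddMonoidHom.ext
        intro w
        exact Subtype.ext (R.ρ_mul_apply γ δ w) }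
  semi γ c w := Subtype.ext (R.semi γ c w)

lemma restrict_ρ (Γ' : Subgroup Γ) (S : Submodule K W) (hS : ∀ γ ∈ Γ', ∀ w ∈ S, R.ρ γ w ∈ S)
    (γ : Γ') (w : S) : (((R.restrict Γ' S hS).ρ γ w : S) : W) = R.ρ γ w := rfl

lemma restrict_τ (Γ' : Subgroup Γ) (S : Submodule K W) (hS : ∀ γ ∈ Γ', ∀ w ∈ S, R.ρ γ w ∈ S)
    (γ : Γ') (c : K) : (R.restrict Γ' S hS).τ γ c = R.τ γ c := rfl

lemma stab_comm (e : Module.End K W) (γ : Γ) (h : R.conj γ e = e) (w : W) :
    e (R.ρ γ w) = R.ρ γ (e w) := by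
  nth_rewrite 1 [← h]
  rw [conj_apply, ρ_inv_apply']

lemma range_invariant (e : Module.End K W) (γ : Γ) (h : R.conj γ e = e) :
    ∀ w ∈ LinearMap.range e, R.ρ γ w ∈ LinearMap.range e := by
  rintro _ ⟨w, rfl⟩
  exact ⟨R.ρ γ w, R.stab_comm e γ h w⟩

/-- extension of an endomorphism of the image of an idempotent -/
def ext (e : Module.End K W) (u : Module.End K (LinearMap.range e)) : Module.End K W :=
  (LinearMap.range e).subtype ∘ₗ u ∘ₗ e.rangeRestrict

lemma ext_apply (e : Module.End K W) (u : Module.End K (LinearMap.range e)) (w : W) :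
    ext e u w = u ⟨e w, w, rfl⟩ := rfl

lemma ext_injective (e : Module.End K W) (he : e * e = e) : Function.Injective (ext e) := by
  intro u v huv
  ext ⟨_, w, rfl⟩
  have h1 := congrArg (fun T : Module.End K W => T (e w)) huv
  simp only [ext_apply] at h1
  have h2 : e (e w) = e w := congrArg (fun T : Module.End K W => T w) he
  have h3 : (⟨e (e w), e w, rfl⟩ : LinearMap.range e) = ⟨e w, w, rfl⟩ := Subtype.ext h2
  rw [h3] at h1
  exact h1

lemma conj_ext (e : Module.End K W) (Γ' : Subgroup Γ) (hΓ' : ∀ γ, γ ∈ Γ' ↔ R.conj γ e = e)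
    (u : Module.End K (LinearMap.range e)) (γ : Γ') :
    R.conj γ (ext e u) = ext e ((R.restrict Γ' (LinearMap.range e)
      (fun γ hγ => R.range_invariant e γ ((hΓ' γ).1 hγ))).conj γ u) := by
  ext w
  rw [conj_apply, ext_apply, ext_apply, conj_apply, restrict_ρ]
  congr 2
  congr 1
  apply Subtype.ext
  change e (R.ρ (γ : Γ)⁻¹ w) = R.ρ ((γ⁻¹ : Γ') : Γ) (e w)
  exact R.stab_comm e _ ((hΓ' _).1 (Γ'.inv_mem γ.2)) w

/-- admissibility is inherited by the image of an idempotent, over its stabilizer -/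
lemma Adm.restrict {R : SL K Γ W} (hR : R.Adm) (e : Module.End K W) (he : e * e = e)
    (Γ' : Subgroup Γ) (hΓ' : ∀ γ, γ ∈ Γ' ↔ R.conj γ e = e) :
    (R.restrict Γ' (LinearMap.range e)
      (fun γ hγ => R.range_invariant e γ ((hΓ' γ).1 hγ))).Adm where
  fin0 u := by
    refine Set.Finite.of_finite_image ((hR.fin0 (ext e u)).subset ?_)
      ((ext_injective e he).injOn)
    rintro _ ⟨_, ⟨γ, hγ, rfl⟩, rfl⟩
    exact ⟨γ, hγ, R.conj_ext e Γ' hΓ' u γ⟩
  cont E hE := by
    obtain ⟨T, hT, hT2⟩ := hR.cont (insert e (ext e '' E)) ((hE.image _).insert e)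
    refine ⟨T, hT, fun γ hγ => ?_⟩
    obtain ⟨γ₀, h1, h2⟩ := hT2 γ hγ
    have h3 : R.conj γ₀ e = e := by
      rw [← h2 e (Set.mem_insert _ _)]
      exact (hΓ' _).1 γ.2
    refine ⟨⟨γ₀, (hΓ' _).2 h3⟩, h1, fun u hu => ?_⟩
    apply ext_injective e he
    rw [← R.conj_ext e Γ' hΓ', ← R.conj_ext e Γ' hΓ']
    exact h2 _ (Set.mem_insert_of_mem _ ⟨u, hu, rfl⟩)
  alg c := by
    refine (hR.alg c).subset ?_
    rintro _ ⟨γ, rfl⟩
    exact ⟨γ, rfl⟩

end SL

end Run7.h185.FOM
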