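import Mathlib
import Pool.Agent.Run7.h185.FOM.AutFin
import Pool.Agent.Run7.h185.FOM.Semi

/-!
# The group of semilinear self-conjugations
-/

namespace Run7.h185.FOM

open MvPolynomial Module

variable {N d : ℕ}

/-- the semilinear maps commuting with `f` up to a scalar -/
def Mor.grp (f : Mor N d) :
    Subgroup ((Qbar ≃ₐ[ℚ] Qbar) × (AddMonoid.End (Fin (N + 1) → Qbar))ˣ) where
  carrier := {x | (∀ (c : Qbar) v, x.2.1 (c • v) = x.1 c • x.2.1 v) ∧
    ∃ c : Qbar, c ≠ 0 ∧ ∀ v, f.ev (x.2.1 v) = c • x.2.1 (f.ev v)}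
  mul_mem' := by
    rintro ⟨σ, g⟩ ⟨τ, h⟩ ⟨h1, c, hc, h2⟩ ⟨h3, e, he, h4⟩
    simp only at h1 h2 h3 h4
    refine ⟨?_, c * σ e, mul_ne_zero hc (by simpa using he), ?_⟩
    · intro a v
      change g.1 (h.1 (a • v)) = σ (τ a) • g.1 (h.1 v)
      rw [h3, h1]
    · intro v
      change f.ev (g.1 (h.1 v)) = (c * σ e) • g.1 (h.1 (f.ev v))
      rw [h2, h4, h1, smul_smul]
  one_mem' := ⟨fun _ _ => rfl, 1, one_ne_zero, fun v => by rw [one_smul]; rfl⟩
  inv_mem' := by
    rintro ⟨σ, g⟩ ⟨h1, c, hc, h2⟩
    simp only at h1 h2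
    have hgg : ∀ v, g.1 (g⁻¹.1 v) = v := fun v =>
      congrArg (fun T : AddMonoid.End (Fin (N + 1) → Qbar) => T v) g.mul_inv
    have hgg' : ∀ v, g⁻¹.1 (g.1 v) = v := fun v =>
      congrArg (fun T : AddMonoid.End (Fin (N + 1) → Qbar) => T v) g.inv_mul
    have hinj : Function.Injective g.1 := Function.LeftInverse.injective hgg'
    have hsemi : ∀ (a : Qbar) v, g⁻¹.1 (a • v) = σ.symm a • g⁻¹.1 v := by
      intro a v
      apply hinj
      rw [h1, hgg, hgg, AlgEquiv.apply_symm_apply]
    refine ⟨hsemi, (σ.symm c)⁻¹, inv_ne_zero (by simpa using hc), ?_⟩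
    intro v
    change f.ev (g⁻¹.1 v) = (σ.symm c)⁻¹ • g⁻¹.1 (f.ev v)
    have h3 := h2 (g⁻¹.1 v)
    rw [hgg] at h3
    rw [h3, hsemi, hgg', smul_smul, inv_mul_cancel₀ (by simpa using hc), one_smul]

/-- the semilinear action of this group -/
noncomputable def Mor.sl (f : Mor N d) : SL Qbar f.grp (Fin (N + 1) → Qbar) where
  τ :=
    { toFun := fun x => x.1.1.toRingEquiv
      map_one' := rfl
      map_mul' := fun _ _ => rfl }
  ρ :=
    { toFun := fun x => x.1.2.1
      map_one' := rfl
      map_mul' := fun _ _ => rfl }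
  semi x c v := x.2.1 c v

lemma Mor.sl_τ (f : Mor N d) (x : f.grp) (c : Qbar) : f.sl.τ x c = x.1.1 c := rfl

lemma Mor.sl_ρ (f : Mor N d) (x : f.grp) (v : Fin (N + 1) → Qbar) : f.sl.ρ x v = x.1.2.1 v := rfl

/-- the coordinatewise action -/
noncomputable def coordAct (N : ℕ) (σ : Qbar ≃ₐ[ℚ] Qbar) :
    (AddMonoid.End (Fin (N + 1) → Qbar))ˣ where
  val :=
    { toFun := fun v j => σ (v j)
      map_zero' := by funext j; simp
      map_add' := fun v w => by funext j; simp }
  inv :=
    { toFun := fun v j => σ.symm (v j)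
      map_zero' := by funext j; simp
      map_add' := fun v w => by funext j; simp }
  val_inv := by
    apply AddMonoidHom.ext
    intro v
    funext j
    exact σ.apply_symm_apply _
  inv_val := by
    apply AddMonoidHom.ext
    intro v
    funext j
    exact σ.symm_apply_apply _

lemma coordAct_apply (N : ℕ) (σ : Qbar ≃ₐ[ℚ] Qbar) (v : Fin (N + 1) → Qbar) (j : Fin (N + 1)) :
    (coordAct N σ).1 v j = σ (v j) := rfl

lemma coordAct_smul (N : ℕ) (σ : Qbar ≃ₐ[ℚ] Qbar) (c : Qbar) (v : Fin (N + 1) → Qbar) :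
    (coordAct N σ).1 (c • v) = σ c • (coordAct N σ).1 v := by
  funext j
  simp [coordAct_apply]

/-- `f` is compatible with the Galois action -/
lemma Mor.ev_coordAct (f : Mor N d) (σ : Qbar ≃ₐ[ℚ] Qbar) (v : Fin (N + 1) → Qbar) :
    (f.galois σ).ev ((coordAct N σ).1 v) = (coordAct N σ).1 (f.ev v) := f.ev_galois σ v

lemma isAlgebraic_qbar : Algebra.IsAlgebraic ℚ Qbar := AlgebraicClosure.isAlgebraic ℚ

theorem Mor.adm (hd : 2 ≤ d) (f : Mor N d) : f.sl.Adm where
  fin0 u := by
    classical
    refine ((f.finite_comm hd).image (fun h => h * u * Ring.inverse h)).subset ?_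
    rintro _ ⟨γ, hγ, rfl⟩
    obtain ⟨c, hc, hF⟩ := γ.2.2
    obtain ⟨t, ht⟩ := IsAlgClosed.exists_pow_nat_eq (c⁻¹) (n := d - 1) (by omega)
    have ht0 : t ≠ 0 := by
      rintro rfl
      rw [zero_pow (by omega)] at ht
      exact inv_ne_zero hc ht.symm
    set g := f.sl.lin ⟨γ, hγ⟩ with hg
    set g' := f.sl.lin ⟨γ, hγ⟩⁻¹ with hg'
    have hgg : g * g' = 1 := by rw [hg, hg', ← map_mul, mul_inv_cancel, map_one]
    have hgg' : g' * g = 1 := by rw [hg, hg', ← map_mul, inv_mul_cancel, map_one]
    have hunit : IsUnit (t • g) := by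
      refine ⟨⟨t • g, t⁻¹ • g', ?_, ?_⟩, rfl⟩
      · rw [smul_mul_smul_comm, hgg, mul_inv_cancel₀ ht0, one_smul]
      · rw [smul_mul_smul_comm, hgg', inv_mul_cancel₀ ht0, one_smul]
    refine ⟨t • g, ?_, ?_⟩
    · intro y
      have h1 : ∀ v, g v = γ.1.2.1 v := fun v => rfl
      rw [LinearMap.smul_apply, LinearMap.smul_apply, f.ev_smul, h1, h1, hF, smul_smul]
      congr 1
      have h2 : t ^ d = t ^ (d - 1) * t := by
        rw [← pow_succ]
        congr 1
        omega
      rw [h2, ht]
      field_simp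
    · have h1 := f.sl.conj_of_ker ⟨γ, hγ⟩ u
      have h2 : f.sl.conj γ u * (t • g) = (t • g) * u := by
        rw [mul_smul_comm, smul_mul_assoc]
        congr 1
      change (t • g) * u * Ring.inverse (t • g) = f.sl.conj γ u
      rw [← h2, mul_assoc, Ring.mul_inverse_cancel _ hunit, mul_one]
  cont E hE := by
    classical
    refine ⟨(⋃ i, (fun m => coeff m (f.poly i)) '' (f.poly i).support) ∪
      ⋃ u ∈ E, Set.range fun p : Fin (N + 1) × Fin (N + 1) => u (Pi.single p.1 1) p.2, ?_, ?_⟩
    · apply Set.Finite.union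
      · exact Set.finite_iUnion fun i => (Finset.finite_toSet _).image _
      · exact hE.biUnion fun u _ => Set.finite_range _
    · intro γ hγ
      have hcoef : ∀ i m, γ.1.1 (coeff m (f.poly i)) = coeff m (f.poly i) := by
        intro i m
        by_cases hm : m ∈ (f.poly i).support
        · apply hγ
          apply Set.mem_union_left
          rw [Set.mem_iUnion]
          exact ⟨i, m, hm, rfl⟩
        · rw [notMem_support_iff.1 hm, map_zero]
      have hgal : f.galois γ.1.1 = f := by
        apply Mor.ext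
        funext i
        ext m
        change coeff m (map _ _) = _
        rw [coeff_map]
        exact hcoef i m
      -- the coordinatewise element
      have hmem : (γ.1.1, coordAct N γ.1.1) ∈ f.grp := by
        refine ⟨fun c v => coordAct_smul N _ c v, 1, one_ne_zero, fun v => ?_⟩
        have h1 := f.ev_coordAct γ.1.1 v
        rw [hgal] at h1
        rw [one_smul]
        exact h1
      set κ : f.grp := ⟨(γ.1.1, coordAct N γ.1.1), hmem⟩ with hκ
      have hτ : f.sl.τ κ = f.sl.τ γ := rfl
      refine ⟨γ * κ⁻¹, ?_, ?_⟩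
      · rw [map_mul, map_inv, hτ, mul_inv_cancel]
      · intro u hu
        have h1 : f.sl.conj κ u = u := by
          apply LinearMap.pi_ext'
          intro j
          apply LinearMap.ext_ring
          simp only [LinearMap.comp_apply, LinearMap.single_apply]
          have h2 : ∀ i, γ.1.1 (u (Pi.single j 1) i) = u (Pi.single j 1) i := by
            intro i
            apply hγ
            apply Set.mem_union_right
            rw [Set.mem_iUnion₂]
            exact ⟨u, hu, (j, i), rfl⟩
          have h3 : f.sl.ρ κ⁻¹ (Pi.single j 1) = Pi.single j 1 := by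
            have h4 : f.sl.ρ κ (Pi.single j 1) = Pi.single j 1 := by
              funext i
              change γ.1.1 ((Pi.single j 1 : Fin (N + 1) → Qbar) i) = _
              rcases eq_or_ne i j with rfl | h
              · simp
              · simp [h]
            nth_rewrite 1 [← h4]
            exact f.sl.ρ_inv_apply' κ _
          rw [SL.conj_apply, h3]
          funext i
          exact h2 i
        have h5 : f.sl.conj κ⁻¹ u = u := by
          nth_rewrite 1 [← h1]
          exact f.sl.conj_inv_conj κ u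
        rw [SL.conj_mul, h5]
  alg c := by
    classical
    have hint : IsIntegral ℚ c := (isAlgebraic_qbar.isAlgebraic c).isIntegral
    refine ((minpoly ℚ c).rootSet_finite Qbar).subset ?_
    rintro _ ⟨γ, rfl⟩
    rw [Polynomial.mem_rootSet]
    refine ⟨minpoly.ne_zero hint, ?_⟩
    have h1 : Polynomial.aeval (γ.1.1 c) (minpoly ℚ c) = γ.1.1 (Polynomial.aeval c (minpoly ℚ c)) :=
      Polynomial.aeval_algHom_apply (γ.1.1 : Qbar →ₐ[ℚ] Qbar) c (minpoly ℚ c)
    rw [Mor.sl_τ, h1, minpoly.aeval, map_zero]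

end Run7.h185.FOM
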