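import Mathlib
import Pool.Agent.Run7.h185.FOM.Grp

/-!
# The field of moduli in terms of the group
-/

namespace Run7.h185.FOM

open MvPolynomial Module

variable {N d : ℕ}

/-- an invertible matrix as an invertible additive map -/
noncomputable def matUnit (φ : Matrix.GeneralLinearGroup (Fin (N + 1)) Qbar) :
    (AddMonoid.End (Fin (N + 1) → Qbar))ˣ where
  val :=
    { toFun := fun v => φ.1.mulVec v
      map_zero' := Matrix.mulVec_zero _
      map_add' := fun v w => Matrix.mulVec_add _ v w }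
  inv :=
    { toFun := fun v => (φ⁻¹ : Matrix.GeneralLinearGroup (Fin (N + 1)) Qbar).1.mulVec v
      map_zero' := Matrix.mulVec_zero _
      map_add' := fun v w => Matrix.mulVec_add _ v w }
  val_inv := by
    apply AddMonoidHom.ext
    intro v
    change φ.1.mulVec ((φ⁻¹ : Matrix.GeneralLinearGroup (Fin (N + 1)) Qbar).1.mulVec v) = v
    rw [Matrix.mulVec_mulVec, ← Units.val_mul, mul_inv_cancel, Units.val_one, Matrix.one_mulVec]
  inv_val := by
    apply AddMonoidHom.ext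
    intro v
    change (φ⁻¹ : Matrix.GeneralLinearGroup (Fin (N + 1)) Qbar).1.mulVec (φ.1.mulVec v) = v
    rw [Matrix.mulVec_mulVec, ← Units.val_mul, inv_mul_cancel, Units.val_one, Matrix.one_mulVec]

lemma matUnit_apply (φ : Matrix.GeneralLinearGroup (Fin (N + 1)) Qbar)
    (v : Fin (N + 1) → Qbar) : (matUnit φ).1 v = φ.1.mulVec v := rfl

lemma mulVec_inv_mulVec (φ : Matrix.GeneralLinearGroup (Fin (N + 1)) Qbar)
    (v : Fin (N + 1) → Qbar) :
    φ.1.mulVec ((φ⁻¹ : Matrix.GeneralLinearGroup (Fin (N + 1)) Qbar).1.mulVec v) = v := by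
  rw [Matrix.mulVec_mulVec, ← Units.val_mul, mul_inv_cancel, Units.val_one, Matrix.one_mulVec]

lemma inv_mulVec_mulVec (φ : Matrix.GeneralLinearGroup (Fin (N + 1)) Qbar)
    (v : Fin (N + 1) → Qbar) :
    (φ⁻¹ : Matrix.GeneralLinearGroup (Fin (N + 1)) Qbar).1.mulVec (φ.1.mulVec v) = v := by
  rw [Matrix.mulVec_mulVec, ← Units.val_mul, inv_mul_cancel, Units.val_one, Matrix.one_mulVec]

/-- a linear automorphism as an invertible matrix -/
noncomputable def glOf (T : (Fin (N + 1) → Qbar) ≃ₗ[Qbar] (Fin (N + 1) → Qbar)) :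
    Matrix.GeneralLinearGroup (Fin (N + 1)) Qbar where
  val := LinearMap.toMatrix' (T : (Fin (N + 1) → Qbar) →ₗ[Qbar] (Fin (N + 1) → Qbar))
  inv := LinearMap.toMatrix' (T.symm : (Fin (N + 1) → Qbar) →ₗ[Qbar] (Fin (N + 1) → Qbar))
  val_inv := by
    rw [← LinearMap.toMatrix'_comp]
    simp
  inv_val := by
    rw [← LinearMap.toMatrix'_comp]
    simp

lemma glOf_mulVec (T : (Fin (N + 1) → Qbar) ≃ₗ[Qbar] (Fin (N + 1) → Qbar))
    (v : Fin (N + 1) → Qbar) : (glOf T).1.mulVec v = T v := by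
  change (LinearMap.toMatrix' (T : (Fin (N + 1) → Qbar) →ₗ[Qbar] (Fin (N + 1) → Qbar))).mulVec v = _
  rw [LinearMap.toMatrix'_mulVec]
  rfl

lemma glOf_inv_mulVec (T : (Fin (N + 1) → Qbar) ≃ₗ[Qbar] (Fin (N + 1) → Qbar))
    (v : Fin (N + 1) → Qbar) :
    ((glOf T)⁻¹ : Matrix.GeneralLinearGroup (Fin (N + 1)) Qbar).1.mulVec v = T.symm v := by
  change (LinearMap.toMatrix'
    (T.symm : (Fin (N + 1) → Qbar) →ₗ[Qbar] (Fin (N + 1) → Qbar))).mulVec v = _
  rw [LinearMap.toMatrix'_mulVec]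
  rfl

lemma Mor.exists_mem_grp (f : Mor N d) (σ : Qbar ≃ₐ[ℚ] Qbar) (h : f.IsConj (f.galois σ)) :
    ∃ γ : f.grp, γ.1.1 = σ := by
  obtain ⟨φ, hφ⟩ := h
  obtain ⟨c, hc, h1⟩ := (Mor.same_iff _ _).1 hφ
  refine ⟨⟨(σ, matUnit φ * coordAct N σ), ?_, c, hc, ?_⟩, rfl⟩
  · intro a v
    change φ.1.mulVec ((coordAct N σ).1 (a • v)) = σ a • φ.1.mulVec ((coordAct N σ).1 v)
    rw [coordAct_smul, Matrix.mulVec_smul]
  · intro v
    change f.ev (φ.1.mulVec ((coordAct N σ).1 v)) = c • φ.1.mulVec ((coordAct N σ).1 (f.ev v))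
    have h2 := h1 ((coordAct N σ).1 v)
    rw [Mor.ev_conj, Mor.ev_coordAct] at h2
    rw [← Matrix.mulVec_smul, ← h2, mulVec_inv_mulVec]

lemma Mor.isConj_of_mem_grp (f : Mor N d) (γ : f.grp) : f.IsConj (f.galois γ.1.1) := by
  obtain ⟨c, hc, hF⟩ := γ.2.2
  have hsemi := γ.2.1
  have hgg : ∀ v, γ.1.2.1 (γ.1.2⁻¹.1 v) = v := fun v =>
    congrArg (fun T : AddMonoid.End (Fin (N + 1) → Qbar) => T v) γ.1.2.mul_inv
  have hgg' : ∀ v, γ.1.2⁻¹.1 (γ.1.2.1 v) = v := fun v =>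
    congrArg (fun T : AddMonoid.End (Fin (N + 1) → Qbar) => T v) γ.1.2.inv_mul
  have hss : ∀ v, (coordAct N γ.1.1).1 ((coordAct N γ.1.1)⁻¹.1 v) = v := fun v =>
    congrArg (fun T : AddMonoid.End (Fin (N + 1) → Qbar) => T v) (coordAct N γ.1.1).mul_inv
  have hss' : ∀ v, (coordAct N γ.1.1)⁻¹.1 ((coordAct N γ.1.1).1 v) = v := fun v =>
    congrArg (fun T : AddMonoid.End (Fin (N + 1) → Qbar) => T v) (coordAct N γ.1.1).inv_mul
  have hsinv : ∀ (a : Qbar) v, (coordAct N γ.1.1)⁻¹.1 (a • v) =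
      γ.1.1.symm a • (coordAct N γ.1.1)⁻¹.1 v := by
    intro a v
    funext j
    change γ.1.1.symm (a * v j) = γ.1.1.symm a * γ.1.1.symm (v j)
    rw [map_mul]
  let T : (Fin (N + 1) → Qbar) ≃ₗ[Qbar] (Fin (N + 1) → Qbar) :=
    { toFun := fun v => γ.1.2.1 ((coordAct N γ.1.1)⁻¹.1 v)
      map_add' := fun v w => by rw [map_add, map_add]
      map_smul' := fun a v => by
        rw [hsinv, hsemi, AlgEquiv.apply_symm_apply]
        rfl
      invFun := fun v => (coordAct N γ.1.1).1 (γ.1.2⁻¹.1 v)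
      left_inv := fun v => by
        simp only
        rw [hgg', hss]
      right_inv := fun v => by
        simp only
        rw [hss', hgg] }
  have hT : ∀ v, T v = γ.1.2.1 ((coordAct N γ.1.1)⁻¹.1 v) := fun _ => rfl
  have hT' : ∀ v, T.symm v = (coordAct N γ.1.1).1 (γ.1.2⁻¹.1 v) := fun _ => rfl
  refine ⟨glOf T, (Mor.same_iff _ _).2 ⟨c, hc, ?_⟩⟩
  intro x
  rw [Mor.ev_conj, glOf_inv_mulVec, glOf_mulVec, hT, hF, map_smul, hT', hgg']
  have h1 := f.ev_coordAct γ.1.1 ((coordAct N γ.1.1)⁻¹.1 x)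
  rw [hss] at h1
  rw [h1]

lemma Mor.mem_fieldOfModuli_iff (f : Mor N d) (x : Qbar) :
    x ∈ f.fieldOfModuli ↔ ∀ γ : f.grp, f.sl.τ γ x = x := by
  constructor
  · intro h γ
    exact h γ.1.1 (f.isConj_of_mem_grp γ)
  · intro h σ hσ
    obtain ⟨γ, rfl⟩ := f.exists_mem_grp σ hσ
    exact h γ

end Run7.h185.FOM
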