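import Mathlib
import Pool.Agent.Run7.h185.FOM.Moduli

/-!
# Every field of definition contains the field of moduli
-/

namespace Run7.h185.FOM

open MvPolynomial Module

variable {N d : ℕ}

lemma isGalois_qbar : IsGalois ℚ Qbar := by
  have h : IsAlgClosure ℚ Qbar := ⟨inferInstance, isAlgebraic_qbar⟩
  exact IsAlgClosure.isGalois ℚ Qbar

/-- an automorphism over a field of definition carries `f` to a conjugate -/
lemma Mor.isConj_of_fixing (f : Mor N d) (L : IntermediateField ℚ Qbar)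
    (h : f.IsFieldOfDefinition L) (σ : Qbar ≃ₐ[ℚ] Qbar) (hσ : ∀ x ∈ L, σ x = x) :
    f.IsConj (f.galois σ) := by
  obtain ⟨φ, c, hc, hL⟩ := h
  set g := f.conj φ with hg
  have hσc : σ c ≠ 0 := by simpa using hc
  have hmap : ∀ i, map (σ : Qbar →+* Qbar) (g.poly i) = C (c * (σ c)⁻¹) * g.poly i := by
    intro i
    ext m
    rw [coeff_map, coeff_C_mul]
    have h1 := hσ _ (hL i m)
    rw [map_mul] at h1
    change σ (coeff m (g.poly i)) = _
    field_simp
    rw [mul_comm, h1]
  have hev : ∀ w, g.ev ((coordAct N σ).1 w) = (σ c * c⁻¹) • (coordAct N σ).1 (g.ev w) := by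
    intro w
    rw [← g.ev_coordAct σ w]
    funext i
    rw [Pi.smul_apply, Mor.ev_apply, Mor.ev_apply]
    change _ = (σ c * c⁻¹) • eval _ (map (σ : Qbar →+* Qbar) (g.poly i))
    rw [hmap, map_mul, eval_C, smul_eq_mul]
    field_simp
  have hfg : ∀ v, f.ev (φ.1.mulVec v) = φ.1.mulVec (g.ev v) := by
    intro v
    rw [hg, Mor.ev_conj, mulVec_inv_mulVec]
  have hmem : (σ, matUnit φ * coordAct N σ * (matUnit φ)⁻¹) ∈ f.grp := by
    refine ⟨?_, σ c * c⁻¹, mul_ne_zero hσc (inv_ne_zero hc), ?_⟩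
    · intro a v
      change φ.1.mulVec ((coordAct N σ).1
        ((φ⁻¹ : Matrix.GeneralLinearGroup (Fin (N + 1)) Qbar).1.mulVec (a • v))) =
        σ a • φ.1.mulVec ((coordAct N σ).1
        ((φ⁻¹ : Matrix.GeneralLinearGroup (Fin (N + 1)) Qbar).1.mulVec v))
      rw [Matrix.mulVec_smul, coordAct_smul, Matrix.mulVec_smul]
    · intro v
      change f.ev (φ.1.mulVec ((coordAct N σ).1
        ((φ⁻¹ : Matrix.GeneralLinearGroup (Fin (N + 1)) Qbar).1.mulVec v))) =
        (σ c * c⁻¹) • φ.1.mulVec ((coordAct N σ).1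
        ((φ⁻¹ : Matrix.GeneralLinearGroup (Fin (N + 1)) Qbar).1.mulVec (f.ev v)))
      rw [hfg, hev, Matrix.mulVec_smul]
      congr 3
      rw [hg, Mor.ev_conj, mulVec_inv_mulVec]
  exact f.isConj_of_mem_grp ⟨_, hmem⟩

/-- each field of definition contains the field of moduli -/
theorem Mor.fieldOfModuli_le (f : Mor N d) (L : IntermediateField ℚ Qbar)
    (h : f.IsFieldOfDefinition L) : f.fieldOfModuli ≤ L := by
  have hG := isGalois_qbar
  intro x hx
  rw [← InfiniteGalois.fixedField_fixingSubgroup L]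
  intro σ
  refine hx σ.1 (f.isConj_of_fixing L h σ.1 ?_)
  intro y hy
  exact (IntermediateField.mem_fixingSubgroup_iff L σ.1).1 σ.2 y hy

end Run7.h185.FOM
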