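import Mathlib

/-!
# Degrees of fixed fields of subgroups of finite index
-/

namespace Run7.h185.FOM

open Module

theorem relrank_le_index {Γ K : Type} [Group Γ] [Field K] (τ : Γ →* (K ≃+* K)) (S : Subgroup Γ)
    (hS : S.index ≠ 0) (A B : Subfield K) (hA : ∀ x, x ∈ A ↔ ∀ γ, τ γ x = x)
    (hB : ∀ x ∈ B, ∀ γ ∈ S, τ γ x = x) (hAB : A ≤ B) : Subfield.relrank A B ≤ S.index := by
  classical
  letI : MulSemiringAction Γ K :=
    { smul := fun γ x => τ γ x
      one_smul := fun x => by
        change τ 1 x = x
        rw [map_one]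
        rfl
      mul_smul := fun γ δ x => by
        change τ (γ * δ) x = τ γ (τ δ x)
        rw [map_mul]
        rfl
      smul_zero := fun γ => map_zero (τ γ)
      smul_add := fun γ => map_add (τ γ)
      smul_one := fun γ => map_one (τ γ)
      smul_mul := fun γ => map_mul (τ γ) }
  have hsmul : ∀ (γ : Γ) (x : K), γ • x = τ γ x := fun _ _ => rfl
  have hA' : A = FixedPoints.subfield Γ K := by
    ext x
    rw [hA]
    rfl
  rw [Subfield.relrank_eq_rank_of_le hAB]
  subst hA'
  apply rank_le
  intro s hs
  set t : Finset K := s.image Subtype.val with ht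
  have hcard : t.card = s.card := Finset.card_image_of_injective _ Subtype.val_injective
  have hmem : ∀ x ∈ t, x ∈ B := by
    intro x hx
    obtain ⟨y, _, rfl⟩ := Finset.mem_image.1 hx
    exact y.2
  have hindep : LinearIndepOn (FixedPoints.subfield Γ K) id (t : Set K) := by
    have h1 : LinearIndependent (FixedPoints.subfield Γ K) (fun i : s => ((i : Subfield.extendScalars hAB) : K)) := by
      have := hs.map' (Subfield.extendScalars hAB).val.toLinearMap
        (LinearMap.ker_eq_bot.2 Subtype.val_injective)
      exact this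
    rw [ht, Finset.coe_image]
    have h2 : LinearIndepOn (FixedPoints.subfield Γ K)
        (fun i : Subfield.extendScalars hAB => (i : K)) (s : Set _) := h1
    exact h2.id_image
  have hli := FixedPoints.linearIndependent_smul_of_linearIndependent Γ K hindep
  have hfin : Finite (Γ ⧸ S) := by
    have : S.FiniteIndex := ⟨hS⟩
    infer_instance
  have : Fintype (Γ ⧸ S) := Fintype.ofFinite _
  have hli2 : LinearIndependent K (fun (x : (t : Set K)) (q : Γ ⧸ S) => τ q.out (x : K)) := by
    rw [LinearIndepOn, Fintype.linearIndependent_iff] at hli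
    rw [Fintype.linearIndependent_iff]
    intro g hg
    apply hli
    funext γ
    have h1 := congrFun hg (QuotientGroup.mk γ)
    rw [Finset.sum_apply] at h1 ⊢
    refine Eq.trans ?_ h1
    apply Finset.sum_congr rfl
    intro x _
    simp only [Pi.smul_apply, MulAction.toFun_apply, smul_eq_mul]
    congr 1
    rw [hsmul]
    have h2 : (QuotientGroup.mk γ : Γ ⧸ S).out⁻¹ * γ ∈ S := by
      rw [← QuotientGroup.eq, QuotientGroup.out_eq']
    have h3 := hB x (hmem x x.2) _ h2
    rw [map_mul] at h3
    have h4 := congrArg (τ (QuotientGroup.mk γ : Γ ⧸ S).out) h3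
    rw [← h4]
    change _ = (τ _) ((τ _) ((τ γ) _))
    rw [← RingAut.mul_apply, ← map_mul, mul_inv_cancel, map_one]
    rfl
  have h5 := hli2.fintype_card_le_finrank
  rw [Module.finrank_fintype_fun_eq_card] at h5
  have h6 : Fintype.card (Γ ⧸ S) = S.index := by
    rw [← Nat.card_eq_fintype_card]
    rfl
  rw [h6] at h5
  rw [← hcard]
  simpa using h5

end Run7.h185.FOM
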