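import Mathlib

/-!
# Trivialising a family of characters on a lattice
-/

namespace Run7.h185.FOM

open Module

lemma divisible_units (K : Type) [Field K] [IsAlgClosed K] :
    Nonempty (DivisibleBy (Additive Kˣ) ℤ) := by
  refine ⟨divisibleByOfSMulRightSurj _ _ ?_⟩
  intro n hn a
  obtain ⟨m, hm | hm⟩ := Int.eq_nat_or_neg n
  · have hm0 : 0 < m := by
      rcases Nat.eq_zero_or_pos m with h | h
      · exact absurd (by rw [hm, h]; rfl) hn
      · exact h
    obtain ⟨z, hz⟩ := IsAlgClosed.exists_pow_nat_eq ((a.toMul : Kˣ) : K) hm0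
    have hz0 : z ≠ 0 := by
      rintro rfl
      rw [zero_pow hm0.ne'] at hz
      exact a.toMul.ne_zero hz.symm
    refine ⟨Additive.ofMul (Units.mk0 z hz0), ?_⟩
    apply Additive.toMul.injective
    apply Units.ext
    subst hm
    simp [hz]
  · have hm0 : 0 < m := by
      rcases Nat.eq_zero_or_pos m with h | h
      · exact absurd (by rw [hm, h]; rfl) hn
      · exact h
    obtain ⟨z, hz⟩ := IsAlgClosed.exists_pow_nat_eq ((a.toMul : Kˣ) : K) hm0
    have hz0 : z ≠ 0 := by
      rintro rfl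
      rw [zero_pow hm0.ne'] at hz
      exact a.toMul.ne_zero hz.symm
    refine ⟨Additive.ofMul (Units.mk0 z hz0)⁻¹, ?_⟩
    apply Additive.toMul.injective
    apply Units.ext
    subst hm
    simp [hz]

/-- there is a homomorphism solving the cocycle equation wherever it can be solved pointwise -/
theorem lattice_section {K G M : Type} [Field K] [IsAlgClosed K] [AddCommGroup M]
    [Module.Free ℤ M] [Module.Finite ℤ M]
    (σ : G → (K ≃+* K)) (Θ : G → (M →+ Additive Kˣ)) :
    ∃ Y : M →+ Additive Kˣ, ∀ (χ : M) (b : Kˣ),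
      (∀ g, σ g b * ((Θ g χ).toMul : Kˣ) = b) →
      ∀ g, σ g ((Y χ).toMul : Kˣ) * ((Θ g χ).toMul : Kˣ) = ((Y χ).toMul : Kˣ) := by
  classical
  let A : AddSubgroup (M × Additive Kˣ) :=
    { carrier := {x | ∀ g, σ g (x.2.toMul : Kˣ) * ((Θ g x.1).toMul : Kˣ) = (x.2.toMul : Kˣ)}
      add_mem' := by
        intro x y hx hy g
        have h1 := hx g
        have h2 := hy g
        simp only [Prod.fst_add, Prod.snd_add, map_add, toMul_add, Units.val_mul, map_mul]
        calc _ = (σ g (x.2.toMul : Kˣ) * ((Θ g x.1).toMul : Kˣ)) *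
            (σ g (y.2.toMul : Kˣ) * ((Θ g y.1).toMul : Kˣ)) := by ring
          _ = _ := by rw [h1, h2]
      zero_mem' := by
        intro g
        simp
      neg_mem' := by
        intro x hx g
        have h1 := hx g
        simp only [Prod.fst_neg, Prod.snd_neg, map_neg, toMul_neg, Units.val_inv_eq_inv_val,
          map_inv₀]
        rw [← mul_inv, h1] }
  set A' : Submodule ℤ (M × Additive Kˣ) := AddSubgroup.toIntSubmodule A with hA'
  have hmem : ∀ x, x ∈ A' ↔ ∀ g, σ g (x.2.toMul : Kˣ) * ((Θ g x.1).toMul : Kˣ) = (x.2.toMul : Kˣ) :=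
    fun x => Iff.rfl
  set Λ : Submodule ℤ M := A'.map (LinearMap.fst ℤ M (Additive Kˣ)) with hΛ
  set p := (LinearMap.fst ℤ M (Additive Kˣ)).submoduleMap A' with hp
  have hsurj : Function.Surjective p := LinearMap.submoduleMap_surjective _ _
  have hfree : Module.Free ℤ Λ := inferInstance
  obtain ⟨s, hs⟩ := Module.projective_lifting_property p LinearMap.id hsurj
  obtain ⟨hdiv⟩ := divisible_units K
  obtain ⟨Y, hY⟩ := (Module.Baer.of_divisible (Additive Kˣ)).extension_property Λ.subtype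
    Λ.injective_subtype ((LinearMap.snd ℤ M (Additive Kˣ)) ∘ₗ A'.subtype ∘ₗ s)
  refine ⟨Y.toAddMonoidHom, ?_⟩
  intro χ b hb
  have hmem1 : (χ, Additive.ofMul b) ∈ A' := (hmem _).2 hb
  have hχ : χ ∈ Λ := ⟨_, hmem1, rfl⟩
  have h1 : Y χ = (s ⟨χ, hχ⟩ : M × Additive Kˣ).2 := by
    have := congrArg (fun T => T ⟨χ, hχ⟩) hY
    exact this
  have h2 : (s ⟨χ, hχ⟩ : M × Additive Kˣ).1 = χ := by
    have := congrArg (fun T => ((T ⟨χ, hχ⟩ : Λ) : M)) hs
    exact this
  have h3 := (hmem _).1 (s ⟨χ, hχ⟩).2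
  rw [h2, ← h1] at h3
  exact h3

end Run7.h185.FOM
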