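import Mathlib

/-!
# Jordan's theorem on finite linear groups, analytic step
-/

namespace Run7.h185.FOM

open Matrix MeasureTheory Metric Module
open scoped ENNReal

/-- A `1`-separated set in the ball of radius `R` has cardinality at most `(2 R + 1) ^ dim`. -/
theorem card_le_of_sep {E : Type*} [NormedAddCommGroup E] [NormedSpace ℝ E] [FiniteDimensional ℝ E]
    (R : ℝ) (hR : 0 ≤ R) (s : Finset E) (hs : ∀ c ∈ s, ‖c‖ ≤ R)
    (h : ∀ c ∈ s, ∀ d ∈ s, c ≠ d → 1 ≤ ‖c - d‖) : (s.card : ℝ) ≤ (2 * R + 1) ^ finrank ℝ E := by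
  borelize E
  let μ : Measure E := Measure.addHaar
  let δ : ℝ := (1 : ℝ) / 2
  let ρ : ℝ := R + 1 / 2
  have ρpos : 0 < ρ := by positivity
  set A := ⋃ c ∈ s, ball (c : E) δ with hA
  have D : Set.Pairwise (s : Set E) (Function.onFun Disjoint fun c => ball (c : E) δ) := by
    rintro c hc d hd hcd
    apply ball_disjoint_ball
    rw [dist_eq_norm]
    convert! h c hc d hd hcd
    norm_num
  have A_subset : A ⊆ ball (0 : E) ρ := by
    refine Set.iUnion₂_subset fun x hx => ?_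
    apply ball_subset_ball'
    calc
      δ + dist x 0 ≤ δ + R := by rw [dist_zero_right]; exact add_le_add le_rfl (hs x hx)
      _ = R + 1 / 2 := by ring
  have I :
    (s.card : ℝ≥0∞) * ENNReal.ofReal (δ ^ finrank ℝ E) * μ (ball 0 1) ≤
      ENNReal.ofReal (ρ ^ finrank ℝ E) * μ (ball 0 1) :=
    calc
      (s.card : ℝ≥0∞) * ENNReal.ofReal (δ ^ finrank ℝ E) * μ (ball 0 1) = μ A := by
        rw [hA, measure_biUnion_finset D fun c _ => measurableSet_ball]
        have I : 0 < δ := by norm_num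
        simp only [μ.addHaar_ball_of_pos _ I]
        simp only [Finset.sum_const, nsmul_eq_mul, mul_assoc]
      _ ≤ μ (ball (0 : E) ρ) := measure_mono A_subset
      _ = ENNReal.ofReal (ρ ^ finrank ℝ E) * μ (ball 0 1) := by
        simp only [μ.addHaar_ball_of_pos _ ρpos]
  have J : (s.card : ℝ≥0∞) * ENNReal.ofReal (δ ^ finrank ℝ E) ≤ ENNReal.ofReal (ρ ^ finrank ℝ E) :=
    (ENNReal.mul_le_mul_iff_left (measure_ball_pos _ _ zero_lt_one).ne' measure_ball_lt_top.ne).1 I
  have K : (s.card : ℝ) * δ ^ finrank ℝ E ≤ ρ ^ finrank ℝ E := by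
    have := ENNReal.toReal_le_of_le_ofReal (pow_nonneg ρpos.le _) J
    rwa [ENNReal.toReal_mul, ENNReal.toReal_natCast, ENNReal.toReal_ofReal (by positivity)] at this
  have h2 : (2 * R + 1) ^ finrank ℝ E * δ ^ finrank ℝ E = ρ ^ finrank ℝ E := by
    rw [← mul_pow]
    congr 1
    simp only [δ, ρ]
    ring
  rw [← h2] at K
  exact le_of_mul_le_mul_right K (by positivity)

lemma exists_pos_le_of_finite {X : Type*} (s : Set X) (hs : s.Finite) (f : X → ℝ)
    (hf : ∀ x ∈ s, 0 < f x) : ∃ δ : ℝ, 0 < δ ∧ ∀ x ∈ s, δ ≤ f x := by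
  rcases s.eq_empty_or_nonempty with h | h
  · exact ⟨1, one_pos, by simp [h]⟩
  · obtain ⟨a, ha, hmin⟩ := Set.exists_min_image s f hs h
    exact ⟨f a, hf a ha, hmin⟩

/-- a type all of whose finite subsets have at most `C` elements -/
lemma finite_card_le {X : Type*} (C : ℕ) (h : ∀ s : Finset X, s.card ≤ C) :
    Finite X ∧ Nat.card X ≤ C := by
  have hfin : Finite X := by
    by_contra hinf
    rw [not_finite_iff_infinite] at hinf
    obtain ⟨s, hs⟩ := Infinite.exists_subset_card_eq X (C + 1)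
    have := h s
    omega
  refine ⟨hfin, ?_⟩
  have := Fintype.ofFinite X
  rw [Nat.card_eq_fintype_card, ← Finset.card_univ]
  exact h _

open scoped Matrix.Norms.L2Operator

/-- the analytic step in Jordan's theorem -/
theorem unitary_step (m : ℕ) : ∃ C : ℕ, ∀ (G : Type) [Group G]
    (U : G →* unitary (Matrix (Fin m) (Fin m) ℂ)), (Set.range U).Finite →
    ∃ N : Subgroup G, N.index ≤ C ∧ N.index ≠ 0 ∧
      ((∀ h ∈ N, ∃ c : ℂ, (U h : Matrix (Fin m) (Fin m) ℂ) = c • 1) ∨
        ∃ g, (¬ ∃ c : ℂ, (U g : Matrix (Fin m) (Fin m) ℂ) = c • 1) ∧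
          ∀ h ∈ N, (U g : Matrix (Fin m) (Fin m) ℂ) * U h = U h * U g) := by
  classical
  rcases Nat.eq_zero_or_pos m with hm | hm
  · subst hm
    refine ⟨1, fun G _ U _ => ⟨⊤, by simp, by simp, Or.inl fun h _ => ⟨0, Subsingleton.elim _ _⟩⟩⟩
  have : Nonempty (Fin m) := ⟨⟨0, hm⟩⟩
  -- the smallest distance of a nontrivial root of unity to `1`
  obtain ⟨δ, hδ0, hδ⟩ := exists_pos_le_of_finite {ω : ℂ | ω ^ m = 1 ∧ ω ≠ 1}
    (by
      refine ((Polynomial.nthRoots m (1 : ℂ)).toFinset.finite_toSet).subset ?_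
      rintro ω ⟨h, -⟩
      rw [Finset.mem_coe, Multiset.mem_toFinset, Polynomial.mem_nthRoots hm]
      exact h) (fun ω => ‖ω - 1‖) (by
      rintro ω ⟨-, h⟩
      exact norm_pos_iff.2 (sub_ne_zero.2 h))
  obtain ⟨ε, hε0, hε1, hε2⟩ : ∃ ε : ℝ, 0 < ε ∧ ε ≤ 1 / 4 ∧ ε ≤ δ / 2 :=
    ⟨min (1 / 4) (δ / 2), lt_min (by norm_num) (by positivity), min_le_left _ _, min_le_right _ _⟩
  refine ⟨⌊(2 * (1 / ε) + 1) ^ finrank ℝ (Matrix (Fin m) (Fin m) ℂ)⌋₊, ?_⟩
  intro G _ U hU
  set N : Subgroup G := Subgroup.closure {g | ‖(U g : Matrix (Fin m) (Fin m) ℂ) - 1‖ < ε} with hN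
  have hmemN : ∀ g, ‖(U g : Matrix (Fin m) (Fin m) ℂ) - 1‖ < ε → g ∈ N := fun g hg =>
    Subgroup.subset_closure hg
  have key : Finite (G ⧸ N) ∧ Nat.card (G ⧸ N) ≤
      ⌊(2 * (1 / ε) + 1) ^ finrank ℝ (Matrix (Fin m) (Fin m) ℂ)⌋₊ := by
    apply finite_card_le
    intro s
    apply Nat.le_floor
    have hsep : ∀ c d : G ⧸ N, c ≠ d →
        1 ≤ ‖(1 / ε : ℝ) • (U c.out : Matrix (Fin m) (Fin m) ℂ) -
          (1 / ε : ℝ) • (U d.out : Matrix (Fin m) (Fin m) ℂ)‖ := by
      intro c d hcd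
      by_contra hlt
      push Not at hlt
      rw [← smul_sub, norm_smul, Real.norm_of_nonneg (by positivity)] at hlt
      apply hcd
      have h1 : ‖(U (d.out⁻¹ * c.out) : Matrix (Fin m) (Fin m) ℂ) - 1‖ < ε := by
        have h2 : (U c.out : Matrix (Fin m) (Fin m) ℂ) - U d.out =
            (U d.out : Matrix (Fin m) (Fin m) ℂ) * ((U (d.out⁻¹ * c.out) : Matrix (Fin m) (Fin m) ℂ) - 1) := by
          rw [mul_sub, mul_one, ← Submonoid.coe_mul, ← map_mul, mul_inv_cancel_left]
        rw [h2, CStarRing.norm_coe_unitary_mul] at hlt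
        rw [one_div, inv_mul_lt_iff₀ hε0, mul_one] at hlt
        exact hlt
      have h3 := hmemN _ h1
      rw [← QuotientGroup.eq] at h3
      rw [QuotientGroup.out_eq', QuotientGroup.out_eq'] at h3
      exact h3.symm
    have hinj : Set.InjOn (fun c : G ⧸ N => (1 / ε : ℝ) • (U c.out : Matrix (Fin m) (Fin m) ℂ)) s := by
      intro c _ d _ hcd
      by_contra hne
      have := hsep c d hne
      simp only at hcd
      rw [hcd, sub_self, norm_zero] at this
      linarith
    have h4 := card_le_of_sep (1 / ε) (by positivity)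
      (s.image fun c : G ⧸ N => (1 / ε : ℝ) • (U c.out : Matrix (Fin m) (Fin m) ℂ)) (by
        intro A hA
        rw [Finset.mem_image] at hA
        obtain ⟨c, -, rfl⟩ := hA
        rw [norm_smul, CStarRing.norm_coe_unitary, mul_one, Real.norm_of_nonneg (by positivity)])
      (by
        intro A hA B hB hAB
        rw [Finset.mem_image] at hA hB
        obtain ⟨c, -, rfl⟩ := hA
        obtain ⟨d, -, rfl⟩ := hB
        exact hsep c d (fun h => hAB (by rw [h])))
    rw [Finset.card_image_of_injOn hinj] at h4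
    exact h4
  refine ⟨N, key.2, ?_, ?_⟩
  · have := key.1
    rw [Subgroup.index]
    exact Nat.card_pos.ne'
  · by_cases hall : ∀ g, ‖(U g : Matrix (Fin m) (Fin m) ℂ) - 1‖ < ε →
        ∃ c : ℂ, (U g : Matrix (Fin m) (Fin m) ℂ) = c • 1
    · left
      intro h hh
      induction hh using Subgroup.closure_induction with
      | mem x hx => exact hall x hx
      | one => exact ⟨1, by simp⟩
      | mul x y _ _ hx hy =>
        obtain ⟨a, ha⟩ := hx
        obtain ⟨b, hb⟩ := hy
        refine ⟨a * b, ?_⟩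
        rw [map_mul, Submonoid.coe_mul, ha, hb]
        simp [smul_smul, mul_comm]
      | inv x _ hx =>
        obtain ⟨a, ha⟩ := hx
        refine ⟨star a, ?_⟩
        rw [map_inv]
        have : ((U x)⁻¹ : unitary (Matrix (Fin m) (Fin m) ℂ)) = star (U x) := rfl
        rw [this, Unitary.coe_star, ha, star_smul, star_one]
    · right
      push Not at hall
      obtain ⟨g₀, hg₀, hg₀'⟩ := hall
      obtain ⟨A, ⟨⟨g, rfl⟩, hg1, hg2⟩, hmin⟩ := Set.exists_min_image
        {A : unitary (Matrix (Fin m) (Fin m) ℂ) | A ∈ Set.range U ∧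
          ‖(A : Matrix (Fin m) (Fin m) ℂ) - 1‖ < ε ∧
          ¬ ∃ c : ℂ, (A : Matrix (Fin m) (Fin m) ℂ) = c • 1}
        (fun A => ‖(A : Matrix (Fin m) (Fin m) ℂ) - 1‖)
        (hU.subset fun A hA => hA.1) ⟨U g₀, ⟨g₀, rfl⟩, hg₀, by push Not; exact hg₀'⟩
      refine ⟨g, hg2, ?_⟩
      have hApos : 0 < ‖(U g : Matrix (Fin m) (Fin m) ℂ) - 1‖ := by
        rw [norm_pos_iff, sub_ne_zero]
        intro h
        exact hg2 ⟨1, by rw [h, one_smul]⟩
      have hcomm : ∀ h, ‖(U h : Matrix (Fin m) (Fin m) ℂ) - 1‖ < ε →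
          (U g : Matrix (Fin m) (Fin m) ℂ) * U h = U h * U g := by
        intro h hh
        set A : Matrix (Fin m) (Fin m) ℂ := (U g : Matrix (Fin m) (Fin m) ℂ) with hA
        set B : Matrix (Fin m) (Fin m) ℂ := (U h : Matrix (Fin m) (Fin m) ℂ) with hB
        have e1 : (U (g * h * g⁻¹ * h⁻¹) : Matrix (Fin m) (Fin m) ℂ) - 1 =
            (A * B - B * A) * (U (g⁻¹ * h⁻¹) : Matrix (Fin m) (Fin m) ℂ) := by
          rw [sub_mul, hA, hB, ← Submonoid.coe_mul, ← Submonoid.coe_mul, ← Submonoid.coe_mul,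
            ← Submonoid.coe_mul, ← map_mul, ← map_mul, ← map_mul, ← map_mul]
          have h1 : h * g * (g⁻¹ * h⁻¹) = 1 := by group
          have h2 : g * h * (g⁻¹ * h⁻¹) = g * h * g⁻¹ * h⁻¹ := by group
          rw [h1, h2, map_one]
          rfl
        have e2 : A * B - B * A = (A - 1) * (B - 1) - (B - 1) * (A - 1) := by noncomm_ring
        have e3 : ‖(U (g * h * g⁻¹ * h⁻¹) : Matrix (Fin m) (Fin m) ℂ) - 1‖ ≤
            2 * ‖A - 1‖ * ‖B - 1‖ := by
          rw [e1, CStarRing.norm_mul_coe_unitary, e2]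
          refine (norm_sub_le _ _).trans ?_
          have h1 := norm_mul_le (A - 1) (B - 1)
          have h2 := norm_mul_le (B - 1) (A - 1)
          nlinarith
        have e4 : ‖(U (g * h * g⁻¹ * h⁻¹) : Matrix (Fin m) (Fin m) ℂ) - 1‖ < ‖A - 1‖ := by
          have : 2 * ‖A - 1‖ * ‖B - 1‖ ≤ 2 * ‖A - 1‖ * ε :=
            mul_le_mul_of_nonneg_left hh.le (by positivity)
          nlinarith
        have e5 : ∃ c : ℂ, (U (g * h * g⁻¹ * h⁻¹) : Matrix (Fin m) (Fin m) ℂ) = c • 1 := by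
          by_contra hcon
          have := hmin (U (g * h * g⁻¹ * h⁻¹)) ⟨⟨_, rfl⟩, e4.trans hg1, hcon⟩
          exact absurd e4 (not_lt.2 this)
        obtain ⟨c, hc⟩ := e5
        have e6 : c ^ m = 1 := by
          have h1 := congrArg Matrix.det hc
          rw [Matrix.det_smul, Matrix.det_one, mul_one, Fintype.card_fin] at h1
          rw [← h1]
          have h2 : ∀ x : G, (U x : Matrix (Fin m) (Fin m) ℂ).det * (U x⁻¹ : Matrix (Fin m) (Fin m) ℂ).det = 1 := by
            intro x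
            rw [← Matrix.det_mul, ← Submonoid.coe_mul, ← map_mul, mul_inv_cancel, map_one]
            simp
          rw [map_mul, map_mul, map_mul, Submonoid.coe_mul, Submonoid.coe_mul, Submonoid.coe_mul,
            Matrix.det_mul, Matrix.det_mul, Matrix.det_mul]
          calc _ = ((U g : Matrix (Fin m) (Fin m) ℂ).det * (U g⁻¹ : Matrix (Fin m) (Fin m) ℂ).det) *
              ((U h : Matrix (Fin m) (Fin m) ℂ).det * (U h⁻¹ : Matrix (Fin m) (Fin m) ℂ).det) := by ring
            _ = 1 := by rw [h2, h2, one_mul]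
        have e7 : c = 1 := by
          by_contra hc1
          have h1 := hδ c ⟨e6, hc1⟩
          have h2 : ‖(U (g * h * g⁻¹ * h⁻¹) : Matrix (Fin m) (Fin m) ℂ) - 1‖ = ‖c - 1‖ := by
            rw [hc, show c • (1 : Matrix (Fin m) (Fin m) ℂ) - 1 = (c - 1) • 1 by rw [sub_smul, one_smul],
              norm_smul, norm_one, mul_one]
          rw [h2] at e3
          have h3 : ‖A - 1‖ * ‖B - 1‖ ≤ ε * ε :=
            mul_le_mul hg1.le hh.le (norm_nonneg _) hε0.le
          nlinarith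
        rw [hc, e7, one_smul, sub_self] at e1
        have e8 : A * B - B * A = 0 := by
          have h1 := congrArg norm e1
          rw [CStarRing.norm_mul_coe_unitary, norm_zero] at h1
          exact norm_eq_zero.1 h1.symm
        exact sub_eq_zero.1 e8
      intro h hh
      induction hh using Subgroup.closure_induction with
      | mem x hx => exact hcomm x hx
      | one => simp
      | mul x y _ _ hx hy =>
        rw [map_mul, Submonoid.coe_mul, ← mul_assoc, hx, mul_assoc, hy, mul_assoc]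
      | inv x _ hx =>
        have h1 : (U x : Matrix (Fin m) (Fin m) ℂ) * (U x⁻¹ : Matrix (Fin m) (Fin m) ℂ) = 1 := by
          rw [← Submonoid.coe_mul, ← map_mul, mul_inv_cancel, map_one]
          rfl
        have h2 : (U x⁻¹ : Matrix (Fin m) (Fin m) ℂ) * (U x : Matrix (Fin m) (Fin m) ℂ) = 1 := by
          rw [← Submonoid.coe_mul, ← map_mul, inv_mul_cancel, map_one]
          rfl
        calc (U g : Matrix (Fin m) (Fin m) ℂ) * (U x⁻¹ : Matrix (Fin m) (Fin m) ℂ)
            = (U x⁻¹ : Matrix (Fin m) (Fin m) ℂ) * (U x : Matrix (Fin m) (Fin m) ℂ) *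
              ((U g : Matrix (Fin m) (Fin m) ℂ) * (U x⁻¹ : Matrix (Fin m) (Fin m) ℂ)) := by
                rw [h2, one_mul]
          _ = (U x⁻¹ : Matrix (Fin m) (Fin m) ℂ) * ((U x : Matrix (Fin m) (Fin m) ℂ) *
              (U g : Matrix (Fin m) (Fin m) ℂ)) * (U x⁻¹ : Matrix (Fin m) (Fin m) ℂ) := by
                noncomm_ring
          _ = (U x⁻¹ : Matrix (Fin m) (Fin m) ℂ) * ((U g : Matrix (Fin m) (Fin m) ℂ) *
              (U x : Matrix (Fin m) (Fin m) ℂ)) * (U x⁻¹ : Matrix (Fin m) (Fin m) ℂ) := by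
                rw [hx]
          _ = (U x⁻¹ : Matrix (Fin m) (Fin m) ℂ) * (U g : Matrix (Fin m) (Fin m) ℂ) *
              ((U x : Matrix (Fin m) (Fin m) ℂ) * (U x⁻¹ : Matrix (Fin m) (Fin m) ℂ)) := by
                noncomm_ring
          _ = _ := by rw [h1, mul_one]

end Run7.h185.FOM
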