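import Mathlib
import Pool.Agent.Run7.h185.FOM.JordanA

/-!
# Jordan's theorem on finite linear groups
-/

namespace Run7.h185.FOM

open Matrix Module
open scoped ComplexOrder

lemma ker_index_iff {G M : Type*} [Group G] [Monoid M] (ρ : G →* M) :
    ρ.ker.index ≠ 0 ↔ (Set.range ρ).Finite := by
  have e : Nonempty ((G ⧸ ρ.ker) ≃ Set.range ρ) := by
    refine ⟨Equiv.ofBijective (Quotient.lift (fun g => (⟨ρ g, g, rfl⟩ : Set.range ρ)) ?_) ⟨?_, ?_⟩⟩
    · intro a b hab
      have h1 : a⁻¹ * b ∈ ρ.ker := QuotientGroup.leftRel_apply.1 hab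
      apply Subtype.ext
      change ρ a = ρ b
      have h2 : ρ (a⁻¹ * b) = 1 := h1
      calc ρ a = ρ a * ρ (a⁻¹ * b) := by rw [h2, mul_one]
        _ = ρ b := by rw [← map_mul, mul_inv_cancel_left]
    · rintro ⟨a⟩ ⟨b⟩ hab
      have h1 : ρ a = ρ b := congrArg Subtype.val hab
      apply QuotientGroup.eq.2
      change ρ (a⁻¹ * b) = 1
      rw [map_mul, ← h1, ← map_mul, inv_mul_cancel, map_one]
    · rintro ⟨_, g, rfl⟩
      exact ⟨(g : G ⧸ ρ.ker), rfl⟩
  obtain ⟨e⟩ := e
  rw [Subgroup.index]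
  constructor
  · intro h
    have : Finite (G ⧸ ρ.ker) := Nat.finite_of_card_ne_zero h
    exact Set.finite_coe_iff.1 (Finite.of_equiv _ e)
  · intro h
    have : Finite (Set.range ρ) := h
    have : Finite (G ⧸ ρ.ker) := Finite.of_equiv _ e.symm
    exact Nat.card_pos.ne'

/-- a finite group of complex matrices is conjugate to a group of unitary matrices -/
theorem exists_unitary {G : Type} [Group G] {m : ℕ} (R : G →* Matrix (Fin m) (Fin m) ℂ)
    (hR : (Set.range R).Finite) : ∃ (B : Matrix (Fin m) (Fin m) ℂ) (C : Matrix (Fin m) (Fin m) ℂ)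
      (U : G →* unitary (Matrix (Fin m) (Fin m) ℂ)),
      B * C = 1 ∧ C * B = 1 ∧ ∀ g, (U g : Matrix (Fin m) (Fin m) ℂ) = B * R g * C := by
  classical
  set S : Matrix (Fin m) (Fin m) ℂ := ∑ A ∈ hR.toFinset, Aᴴ * A with hS
  have hinv : ∀ g, (R g)ᴴ * S * R g = S := by
    intro g
    rw [hS, Finset.mul_sum, Finset.sum_mul]
    refine Finset.sum_bij (fun A _ => A * R g) ?_ ?_ ?_ ?_
    · intro A hA
      rw [Set.Finite.mem_toFinset] at hA ⊢
      obtain ⟨h, rfl⟩ := hA
      exact ⟨h * g, map_mul R h g⟩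
    · intro A hA B hB hAB
      have h1 : A * R g * R g⁻¹ = B * R g * R g⁻¹ := by rw [hAB]
      rwa [mul_assoc, mul_assoc, ← map_mul, mul_inv_cancel, map_one, mul_one, mul_one] at h1
    · intro A hA
      rw [Set.Finite.mem_toFinset] at hA
      obtain ⟨h, rfl⟩ := hA
      refine ⟨R (h * g⁻¹), ?_, ?_⟩
      · rw [Set.Finite.mem_toFinset]
        exact ⟨_, rfl⟩
      · rw [← map_mul, inv_mul_cancel_right]
    · intro A hA
      rw [Matrix.conjTranspose_mul]
      noncomm_ring
  have hpd : S.PosDef := by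
    have h1 : (1 : Matrix (Fin m) (Fin m) ℂ) ∈ hR.toFinset := by
      rw [Set.Finite.mem_toFinset]
      exact ⟨1, map_one R⟩
    rw [hS, ← Finset.add_sum_erase _ _ h1]
    apply Matrix.PosDef.add_posSemidef
    · rw [Matrix.conjTranspose_one, mul_one]
      exact Matrix.PosDef.one
    · apply Matrix.posSemidef_sum
      intro A _
      exact Matrix.posSemidef_conjTranspose_mul_self A
  open scoped MatrixOrder Matrix.Norms.L2Operator in
  obtain ⟨B, hB⟩ := CStarAlgebra.nonneg_iff_eq_star_mul_self.mp hpd.posSemidef.nonneg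
  rw [Matrix.star_eq_conjTranspose] at hB
  have hBu : IsUnit B.det := by
    have h1 : IsUnit S.det := (Matrix.isUnit_iff_isUnit_det S).1 hpd.isUnit
    rw [hB, Matrix.det_mul] at h1
    exact isUnit_of_mul_isUnit_right h1
  have hBC : B * B⁻¹ = 1 := Matrix.mul_nonsing_inv B hBu
  have hCB : B⁻¹ * B = 1 := Matrix.nonsing_inv_mul B hBu
  have huni : ∀ g, (B * R g * B⁻¹)ᴴ * (B * R g * B⁻¹) = 1 := by
    intro g
    have h1 := hinv g
    rw [hB] at h1
    calc (B * R g * B⁻¹)ᴴ * (B * R g * B⁻¹) = (B⁻¹)ᴴ * ((R g)ᴴ * (Bᴴ * B) * R g) * B⁻¹ := by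
          rw [Matrix.conjTranspose_mul, Matrix.conjTranspose_mul]
          noncomm_ring
      _ = (B⁻¹)ᴴ * (Bᴴ * B) * B⁻¹ := by rw [h1]
      _ = (B * B⁻¹)ᴴ * (B * B⁻¹) := by
          rw [Matrix.conjTranspose_mul]
          noncomm_ring
      _ = 1 := by rw [hBC]; simp
  have hmem : ∀ g, B * R g * B⁻¹ ∈ unitary (Matrix (Fin m) (Fin m) ℂ) := by
    intro g
    rw [Unitary.mem_iff, Matrix.star_eq_conjTranspose]
    exact ⟨huni g, mul_eq_one_comm.1 (huni g)⟩
  refine ⟨B, B⁻¹, MonoidHom.mk' (fun g => ⟨B * R g * B⁻¹, hmem g⟩) ?_, hBC, hCB, fun g => rfl⟩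
  intro a b
  apply Subtype.ext
  change B * R (a * b) * B⁻¹ = (B * R a * B⁻¹) * (B * R b * B⁻¹)
  calc B * R (a * b) * B⁻¹ = B * R a * 1 * R b * B⁻¹ := by rw [map_mul]; noncomm_ring
    _ = B * R a * (B⁻¹ * B) * R b * B⁻¹ := by rw [hCB]
    _ = _ := by noncomm_ring

/-- algebraic form of the step -/
theorem linear_step (m : ℕ) : ∃ C : ℕ, ∀ (G : Type) [Group G] (E : Type) [AddCommGroup E]
    [Module ℂ E] [FiniteDimensional ℂ E], finrank ℂ E = m → ∀ ρ : G →* Module.End ℂ E,
    ρ.ker.index ≠ 0 → ∃ N : Subgroup G, N.index ≤ C ∧ N.index ≠ 0 ∧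
      ((∀ h ∈ N, ∃ c : ℂ, ρ h = c • 1) ∨
        ∃ g, (¬ ∃ c : ℂ, ρ g = c • 1) ∧ ∀ h ∈ N, ρ g * ρ h = ρ h * ρ g) := by
  obtain ⟨C, hC⟩ := unitary_step m
  refine ⟨C, ?_⟩
  intro G _ E _ _ _ hE ρ hρ
  have b : Basis (Fin m) ℂ E := finBasisOfFinrankEq ℂ E hE
  set T := LinearMap.toMatrixAlgEquiv b with hT
  set R : G →* Matrix (Fin m) (Fin m) ℂ := (T : Module.End ℂ E →* Matrix (Fin m) (Fin m) ℂ).comp ρ
    with hRdef
  have hRapp : ∀ g, R g = T (ρ g) := fun g => rfl
  have hR : (Set.range R).Finite := by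
    have h1 := (ker_index_iff ρ).1 hρ
    have h2 : Set.range R = T '' Set.range ρ := by
      rw [← Set.range_comp]
      rfl
    rw [h2]
    exact h1.image _
  obtain ⟨B, D, U, hBD, hDB, hU⟩ := exists_unitary R hR
  have hUfin : (Set.range U).Finite := by
    have h1 : (Subtype.val '' Set.range U : Set (Matrix (Fin m) (Fin m) ℂ)) =
        (fun A => B * A * D) '' Set.range R := by
      rw [← Set.range_comp, ← Set.range_comp]
      congr 1
      funext g
      exact hU g
    have h2 : (Subtype.val '' Set.range U : Set (Matrix (Fin m) (Fin m) ℂ)).Finite := by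
      rw [h1]
      exact hR.image _
    exact h2.of_finite_image Subtype.val_injective.injOn
  obtain ⟨N, hN1, hN2, hN3⟩ := hC G U hUfin
  have hRU : ∀ g, R g = D * (U g : Matrix (Fin m) (Fin m) ℂ) * B := by
    intro g
    rw [hU]
    calc R g = 1 * R g * 1 := by simp
      _ = (D * B) * R g * (D * B) := by rw [hDB]
      _ = _ := by noncomm_ring
  refine ⟨N, hN1, hN2, ?_⟩
  rcases hN3 with h | ⟨g, hg1, hg2⟩
  · left
    intro x hx
    obtain ⟨c, hc⟩ := h x hx
    refine ⟨c, T.injective ?_⟩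
    rw [← hRapp, hRU, hc, map_smul, map_one]
    simp [hDB]
  · right
    refine ⟨g, ?_, ?_⟩
    · rintro ⟨c, hc⟩
      apply hg1
      refine ⟨c, ?_⟩
      rw [hU, hRapp, hc, map_smul, map_one]
      simp [hBD]
    · intro h hh
      apply T.injective
      rw [map_mul, map_mul, ← hRapp, ← hRapp, hRU, hRU]
      calc D * (U g : Matrix (Fin m) (Fin m) ℂ) * B * (D * U h * B)
          = D * U g * (B * D) * U h * B := by noncomm_ring
        _ = D * (U g * U h) * B := by rw [hBD]; noncomm_ring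
        _ = D * (U h * U g) * B := by rw [hg2 h hh]
        _ = D * U h * 1 * U g * B := by noncomm_ring
        _ = D * U h * (B * D) * U g * B := by rw [hBD]
        _ = _ := by noncomm_ring

/-- restriction of a representation to an invariant subspace, over a subgroup -/
def restr {K G E : Type*} [Field K] [Group G] [AddCommGroup E] [Module K E]
    (ρ : G →* Module.End K E) (N : Subgroup G) (E₁ : Submodule K E)
    (h : ∀ x ∈ N, ∀ v ∈ E₁, ρ x v ∈ E₁) : N →* Module.End K E₁ where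
  toFun x := (ρ x).restrict (h x x.2)
  map_one' := by
    ext v
    simp
  map_mul' x y := by
    ext v
    simp

lemma restr_apply {K G E : Type*} [Field K] [Group G] [AddCommGroup E] [Module K E]
    (ρ : G →* Module.End K E) (N : Subgroup G) (E₁ : Submodule K E)
    (h : ∀ x ∈ N, ∀ v ∈ E₁, ρ x v ∈ E₁) (x : N) (v : E₁) :
    (restr ρ N E₁ h x v : E) = ρ x v := rfl

lemma restr_ker_index {K G E : Type*} [Field K] [Group G] [AddCommGroup E] [Module K E]
    (ρ : G →* Module.End K E) (N : Subgroup G) (E₁ : Submodule K E)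
    (h : ∀ x ∈ N, ∀ v ∈ E₁, ρ x v ∈ E₁) (hρ : ρ.ker.index ≠ 0) :
    (restr ρ N E₁ h).ker.index ≠ 0 := by
  have h1 : ρ.ker.subgroupOf N ≤ (restr ρ N E₁ h).ker := by
    intro x hx
    have hx' : ρ x = 1 := hx
    rw [MonoidHom.mem_ker]
    ext v
    rw [restr_apply, hx']
    rfl
  have : ρ.ker.FiniteIndex := ⟨hρ⟩
  have h2 : (restr ρ N E₁ h).ker.FiniteIndex := Subgroup.finiteIndex_of_le h1
  exact h2.index_ne_zero

/-- an operator of finite order which is not scalar splits the space -/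
lemma split_of_finite_order {E : Type} [AddCommGroup E] [Module ℂ E] [FiniteDimensional ℂ E]
    (T : Module.End ℂ E) (r : ℕ) (hr : 0 < r) (hT : T ^ r = 1) (hs : ¬ ∃ c : ℂ, T = c • 1) :
    ∃ μ : ℂ, IsCompl (LinearMap.ker (T - μ • (1 : Module.End ℂ E)))
      (LinearMap.range (T - μ • (1 : Module.End ℂ E))) ∧
      0 < finrank ℂ (LinearMap.ker (T - μ • (1 : Module.End ℂ E))) ∧
      0 < finrank ℂ (LinearMap.range (T - μ • (1 : Module.End ℂ E))) := by
  have hnt : Nontrivial E := by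
    by_contra h
    rw [not_nontrivial_iff_subsingleton] at h
    exact hs ⟨0, by ext x; exact Subsingleton.elim _ _⟩
  obtain ⟨μ, hμ⟩ := Module.End.exists_eigenvalue T
  have hss : T.IsSemisimple := by
    have hsq : Squarefree (Polynomial.X ^ r - 1 : Polynomial ℂ) := by
      apply Polynomial.Separable.squarefree
      have := Polynomial.separable_X_pow_sub_C (1 : ℂ) (n := r) (by exact_mod_cast hr.ne') one_ne_zero
      rwa [map_one] at this
    apply Module.End.isSemisimple_of_squarefree_aeval_eq_zero hsq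
    rw [map_sub, map_pow, Polynomial.aeval_X, hT, map_one, sub_self]
  have hker : ∀ x, (T - μ • (1 : Module.End ℂ E)) ((T - μ • (1 : Module.End ℂ E)) x) = 0 →
      (T - μ • (1 : Module.End ℂ E)) x = 0 := by
    intro x hx
    have h1 : x ∈ T.maxGenEigenspace μ := by
      rw [Module.End.mem_maxGenEigenspace]
      refine ⟨2, ?_⟩
      rw [pow_two]
      exact hx
    rw [hss.isFinitelySemisimple.maxGenEigenspace_eq_eigenspace, Module.End.mem_eigenspace_iff] at h1
    rw [LinearMap.sub_apply, LinearMap.smul_apply, Module.End.one_apply, h1, sub_self]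
  refine ⟨μ, ?_, ?_, ?_⟩
  · rw [Submodule.isCompl_iff_disjoint]
    · rw [Submodule.disjoint_def]
      intro x hx1 hx2
      obtain ⟨y, rfl⟩ := hx2
      rw [LinearMap.mem_ker] at hx1
      exact hker y hx1
    · rw [add_comm, LinearMap.finrank_range_add_finrank_ker]
  · have : LinearMap.ker (T - μ • (1 : Module.End ℂ E)) ≠ ⊥ := by
      obtain ⟨v, hv⟩ := hμ.exists_hasEigenvector
      intro h
      have h1 : v ∈ LinearMap.ker (T - μ • (1 : Module.End ℂ E)) := by
        rw [LinearMap.mem_ker, LinearMap.sub_apply, LinearMap.smul_apply, Module.End.one_apply,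
          hv.apply_eq_smul, sub_self]
      rw [h, Submodule.mem_bot] at h1
      exact hv.2 h1
    exact Nat.pos_of_ne_zero (fun h => this (Submodule.finrank_eq_zero.1 h))
  · have : LinearMap.range (T - μ • (1 : Module.End ℂ E)) ≠ ⊥ := by
      intro h
      rw [LinearMap.range_eq_bot] at h
      exact hs ⟨μ, sub_eq_zero.1 h⟩
    exact Nat.pos_of_ne_zero (fun h => this (Submodule.finrank_eq_zero.1 h))

end Run7.h185.FOM
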