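import Mathlib
import Pool.Agent.Run7.h185.FOM.JordanB

/-!
# Jordan's theorem on finite linear groups: the theorem
-/

namespace Run7.h185.FOM

open Matrix Module

/-- **Jordan's theorem**, complex linear version -/
theorem jordan_complex (m : ℕ) : ∃ J : ℕ, ∀ (G : Type) [Group G] (E : Type) [AddCommGroup E]
    [Module ℂ E] [FiniteDimensional ℂ E], finrank ℂ E = m → ∀ ρ : G →* Module.End ℂ E,
    ρ.ker.index ≠ 0 → ∃ H : Subgroup G, H.index ≤ J ∧ H.index ≠ 0 ∧
      ∀ a ∈ H, ∀ b ∈ H, ρ a * ρ b = ρ b * ρ a := by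
  induction m using Nat.strong_induction_on with
  | _ m ih =>
    choose! J hJ using ih
    obtain ⟨C, hC⟩ := linear_step m
    set K := ∑ i ∈ Finset.range m, J i with hK
    have hJK : ∀ i < m, J i ≤ K := fun i hi =>
      Finset.single_le_sum (f := J) (fun _ _ => Nat.zero_le _) (Finset.mem_range.2 hi)
    refine ⟨C + K * K * C, ?_⟩
    intro G _ E _ _ _ hE ρ hρ
    obtain ⟨N, hN1, hN2, hN3⟩ := hC G E hE ρ hρ
    rcases hN3 with h | ⟨g, hg1, hg2⟩
    · refine ⟨N, by omega, hN2, ?_⟩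
      intro a ha b hb
      obtain ⟨c, hc⟩ := h a ha
      obtain ⟨d, hd⟩ := h b hb
      rw [hc, hd]
      simp [smul_smul, mul_comm]
    · obtain ⟨r, hr, hrg⟩ : ∃ r, 0 < r ∧ ρ g ^ r = 1 := by
        have h1 : ρ.ker.FiniteIndex := ⟨hρ⟩
        refine ⟨ρ.ker.index, Nat.pos_of_ne_zero hρ, ?_⟩
        have h2 : g ^ ρ.ker.index ∈ ρ.ker := by
          have : ρ.ker.Normal := inferInstance
          exact Subgroup.pow_index_mem ρ.ker g
        rw [← map_pow]
        exact h2
      obtain ⟨μ, hcompl, hd1, hd2⟩ := split_of_finite_order (ρ g) r hr hrg hg1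
      set E₁ := LinearMap.ker (ρ g - μ • (1 : Module.End ℂ E)) with hE₁
      set E₂ := LinearMap.range (ρ g - μ • (1 : Module.End ℂ E)) with hE₂
      have hcomm : ∀ x ∈ N, (ρ g - μ • (1 : Module.End ℂ E)) * ρ x =
          ρ x * (ρ g - μ • (1 : Module.End ℂ E)) := by
        intro x hx
        rw [sub_mul, mul_sub, hg2 x hx]
        simp
      have hinv1 : ∀ x ∈ N, ∀ v ∈ E₁, ρ x v ∈ E₁ := by
        intro x hx v hv
        rw [hE₁, LinearMap.mem_ker] at hv ⊢
        have h1 := congrArg (fun T : Module.End ℂ E => T v) (hcomm x hx)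
        simp only [Module.End.mul_apply] at h1
        rw [h1, hv, map_zero]
      have hinv2 : ∀ x ∈ N, ∀ v ∈ E₂, ρ x v ∈ E₂ := by
        intro x hx v hv
        obtain ⟨w, rfl⟩ := hv
        have h1 := congrArg (fun T : Module.End ℂ E => T w) (hcomm x hx)
        simp only [Module.End.mul_apply] at h1
        rw [← h1]
        exact ⟨_, rfl⟩
      have hdim : finrank ℂ E₁ + finrank ℂ E₂ = m := by
        rw [← hE]
        exact Submodule.finrank_add_eq_of_isCompl hcompl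
      have hl1 : finrank ℂ E₁ < m := by omega
      have hl2 : finrank ℂ E₂ < m := by omega
      obtain ⟨H₁, hH₁, hH₁', hH₁''⟩ := hJ _ hl1 N E₁ rfl (restr ρ N E₁ hinv1)
        (restr_ker_index ρ N E₁ hinv1 hρ)
      obtain ⟨H₂, hH₂, hH₂', hH₂''⟩ := hJ _ hl2 N E₂ rfl (restr ρ N E₂ hinv2)
        (restr_ker_index ρ N E₂ hinv2 hρ)
      refine ⟨(H₁ ⊓ H₂).map N.subtype, ?_, ?_, ?_⟩
      · rw [Subgroup.index_map_subtype]
        have h1 := Subgroup.index_inf_le (H := H₁) (K := H₂)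
        have h2 : H₁.index * H₂.index ≤ K * K :=
          Nat.mul_le_mul (hH₁.trans (hJK _ hl1)) (hH₂.trans (hJK _ hl2))
        calc (H₁ ⊓ H₂).index * N.index ≤ (K * K) * C := Nat.mul_le_mul (h1.trans h2) hN1
          _ ≤ _ := Nat.le_add_left _ _
      · rw [Subgroup.index_map_subtype]
        exact mul_ne_zero (Subgroup.index_inf_ne_zero hH₁' hH₂') hN2
      · rintro _ ⟨a, ⟨ha1, ha2⟩, rfl⟩ _ ⟨b, ⟨hb1, hb2⟩, rfl⟩
        have c1 := hH₁'' a ha1 b hb1
        have c2 := hH₂'' a ha2 b hb2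
        apply LinearMap.ext
        intro v
        have hv : v ∈ E₁ ⊔ E₂ := by rw [hcompl.sup_eq_top]; trivial
        obtain ⟨v₁, hv₁, v₂, hv₂, rfl⟩ := Submodule.mem_sup.1 hv
        have d1 := congrArg (fun T : Module.End ℂ E₁ => ((T ⟨v₁, hv₁⟩ : E₁) : E)) c1
        have d2 := congrArg (fun T : Module.End ℂ E₂ => ((T ⟨v₂, hv₂⟩ : E₂) : E)) c2
        simp only [Module.End.mul_apply, restr_apply] at d1 d2
        simp only [Module.End.mul_apply, Subgroup.coe_subtype, map_add]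
        rw [d1, d2]

/-- the operators of a representation agree up to scalars on the cosets of a subgroup of finite
index -/
def ProjFinite {K G E : Type*} [Field K] [Group G] [AddCommGroup E] [Module K E]
    (ρ : G →* Module.End K E) : Prop :=
  ∃ T : Set (Module.End K E), T.Finite ∧ ∀ g, ∃ t ∈ T, ∃ c : K, ρ g = c • t

/-- **Jordan's theorem**, complex projective version -/
theorem jordan_proj (m : ℕ) : ∃ J : ℕ, ∀ (G : Type) [Group G] (E : Type) [AddCommGroup E]
    [Module ℂ E] [FiniteDimensional ℂ E], finrank ℂ E = m → ∀ ρ : G →* Module.End ℂ E,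
    ProjFinite ρ → ∃ H : Subgroup G, H.index ≤ J ∧ H.index ≠ 0 ∧
      ∀ a ∈ H, ∀ b ∈ H, ρ a * ρ b = ρ b * ρ a := by
  obtain ⟨J, hJ⟩ := jordan_complex m
  refine ⟨J + 1, ?_⟩
  intro G _ E _ _ _ hE ρ hρ
  rcases Nat.eq_zero_or_pos m with hm | hm
  · subst hm
    refine ⟨⊤, by simp, by simp, ?_⟩
    intro a _ b _
    have : Subsingleton E := finrank_zero_iff.1 hE
    ext x
    exact Subsingleton.elim _ _
  -- the group of pairs `(g, c)` with `det (c ρ(g)) = 1`
  set D : G →* ℂ := (LinearMap.det : Module.End ℂ E →* ℂ).comp ρ with hD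
  set P : Subgroup (G × ℂˣ) :=
    { carrier := {x | (x.2 : ℂ) ^ m * D x.1 = 1}
      mul_mem' := by
        rintro ⟨g, c⟩ ⟨h, d⟩ h1 h2
        simp only [Set.mem_ofPred_eq] at h1 h2 ⊢
        rw [Prod.fst_mul, Prod.snd_mul, Units.val_mul, map_mul]
        calc _ = ((c : ℂ) ^ m * D g) * ((d : ℂ) ^ m * D h) := by ring
          _ = 1 := by rw [h1, h2, one_mul]
      one_mem' := by simp
      inv_mem' := by
        rintro ⟨g, c⟩ h1
        simp only [Set.mem_ofPred_eq] at h1 ⊢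
        have h2 : D g * D g⁻¹ = 1 := by rw [← map_mul, mul_inv_cancel, map_one]
        have h3 : ((c : ℂ)) ≠ 0 := c.ne_zero
        have h4 : D g⁻¹ = (c : ℂ) ^ m := by
          calc D g⁻¹ = ((c : ℂ) ^ m * D g) * D g⁻¹ := by rw [h1, one_mul]
            _ = (c : ℂ) ^ m * (D g * D g⁻¹) := by ring
            _ = (c : ℂ) ^ m := by rw [h2, mul_one]
        change ((c⁻¹ : ℂˣ) : ℂ) ^ m * D g⁻¹ = 1
        rw [h4, Units.val_inv_eq_inv_val, inv_pow]
        exact inv_mul_cancel₀ (pow_ne_zero _ h3) } with hP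
  set σ : P →* Module.End ℂ E :=
    { toFun := fun x => (x.1.2 : ℂ) • ρ x.1.1
      map_one' := by simp
      map_mul' := by
        intro x y
        simp only [Subgroup.coe_mul, Prod.fst_mul, Prod.snd_mul, Units.val_mul, map_mul]
        rw [smul_mul_smul_comm] } with hσ
  have hσapp : ∀ x : P, σ x = (x.1.2 : ℂ) • ρ x.1.1 := fun x => rfl
  have hσdet : ∀ x : P, LinearMap.det (σ x) = 1 := by
    intro x
    rw [hσapp, LinearMap.det_smul, hE]
    exact x.2
  have hker : σ.ker.index ≠ 0 := by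
    rw [ker_index_iff]
    obtain ⟨T, hT, hT2⟩ := hρ
    have hsub : Set.range σ ⊆ ⋃ t ∈ T, {A | LinearMap.det A = 1 ∧ ∃ c : ℂ, A = c • t} := by
      rintro _ ⟨x, rfl⟩
      obtain ⟨t, ht, c, hc⟩ := hT2 x.1.1
      simp only [Set.mem_iUnion, Set.mem_ofPred_eq]
      exact ⟨t, ht, hσdet x, (x.1.2 : ℂ) * c, by rw [hσapp, hc, smul_smul]⟩
    refine Set.Finite.subset (hT.biUnion ?_) hsub
    intro t _
    -- finitely many multiples of determinant one
    rcases eq_or_ne (LinearMap.det t) 0 with h0 | h0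
    · have : {A : Module.End ℂ E | LinearMap.det A = 1 ∧ ∃ c : ℂ, A = c • t} = ∅ := by
        ext A
        simp only [Set.mem_ofPred_eq, Set.mem_empty_iff_false, iff_false, not_and, not_exists]
        intro h1 c hc
        rw [hc, LinearMap.det_smul, h0, mul_zero] at h1
        exact zero_ne_one h1
      rw [this]
      exact Set.finite_empty
    · have hfin : {c : ℂ | c ^ m = (LinearMap.det t)⁻¹}.Finite := by
        refine ((Polynomial.nthRoots m ((LinearMap.det t)⁻¹)).toFinset.finite_toSet).subset ?_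
        intro c hc
        rw [Finset.mem_coe, Multiset.mem_toFinset, Polynomial.mem_nthRoots hm]
        exact hc
      refine (hfin.image (fun c => c • t)).subset ?_
      rintro A ⟨h1, c, rfl⟩
      refine ⟨c, ?_, rfl⟩
      rw [LinearMap.det_smul, hE] at h1
      exact eq_inv_of_mul_eq_one_left h1
  obtain ⟨H, hH1, hH2, hH3⟩ := hJ P E hE σ hker
  set π : P →* G := (MonoidHom.fst G ℂˣ).comp P.subtype with hπ
  have hsurj : Function.Surjective π := by
    intro g
    have h0 : D g ≠ 0 := by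
      intro h
      have h2 : D g * D g⁻¹ = 1 := by rw [← map_mul, mul_inv_cancel, map_one]
      rw [h, zero_mul] at h2
      exact zero_ne_one h2
    obtain ⟨c, hc⟩ := IsAlgClosed.exists_pow_nat_eq ((D g)⁻¹) hm
    have hc0 : c ≠ 0 := by
      rintro rfl
      rw [zero_pow hm.ne'] at hc
      exact h0 (by simpa using hc.symm)
    refine ⟨⟨(g, Units.mk0 c hc0), ?_⟩, rfl⟩
    change c ^ m * D g = 1
    rw [hc]
    exact inv_mul_cancel₀ h0
  have hidx : (H.map π).index ∣ H.index := Subgroup.index_map_dvd H hsurj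
  refine ⟨H.map π, ?_, ?_, ?_⟩
  · exact (Nat.le_of_dvd (Nat.pos_of_ne_zero hH2) hidx).trans (hH1.trans (Nat.le_succ _))
  · intro h0
    rw [h0] at hidx
    exact hH2 (Nat.eq_zero_of_zero_dvd hidx)
  · rintro _ ⟨a, ha, rfl⟩ _ ⟨b, hb, rfl⟩
    have h1 := hH3 a ha b hb
    rw [hσapp, hσapp, smul_mul_smul_comm, smul_mul_smul_comm, mul_comm (b.1.2 : ℂ)] at h1
    have h2 : ((a.1.2 : ℂ) * (b.1.2 : ℂ)) ≠ 0 := mul_ne_zero a.1.2.ne_zero b.1.2.ne_zero
    exact smul_right_injective _ h2 h1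

/-- **Jordan's theorem**, projective version over a field with an embedding in `ℂ` -/
theorem jordan_field (K : Type) [Field K] (ι : K →+* ℂ) (m : ℕ) : ∃ J : ℕ, ∀ (G : Type) [Group G]
    (E : Type) [AddCommGroup E]
    [Module K E] [FiniteDimensional K E], finrank K E = m → ∀ ρ : G →* Module.End K E,
    ProjFinite ρ → ∃ H : Subgroup G, H.index ≤ J ∧ H.index ≠ 0 ∧
      ∀ a ∈ H, ∀ b ∈ H, ρ a * ρ b = ρ b * ρ a := by
  obtain ⟨J, hJ⟩ := jordan_proj m
  refine ⟨J, ?_⟩
  intro G _ E _ _ _ hE ρ hρ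
  have b : Basis (Fin m) K E := finBasisOfFinrankEq K E hE
  -- pass to complex matrices and then to endomorphisms of `ℂ ^ m`
  set Φ : Module.End K E →* Module.End ℂ (Fin m → ℂ) :=
    ((Matrix.toLinAlgEquiv' : Matrix (Fin m) (Fin m) ℂ ≃ₐ[ℂ] _) : Matrix (Fin m) (Fin m) ℂ →* _).comp
      (((ι.mapMatrix : Matrix (Fin m) (Fin m) K →+* Matrix (Fin m) (Fin m) ℂ) :
        Matrix (Fin m) (Fin m) K →* Matrix (Fin m) (Fin m) ℂ).comp
        ((LinearMap.toMatrixAlgEquiv b : Module.End K E →* Matrix (Fin m) (Fin m) K))) with hΦ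
  have hΦapp : ∀ T, Φ T = Matrix.toLinAlgEquiv' (ι.mapMatrix (LinearMap.toMatrixAlgEquiv b T)) :=
    fun T => rfl
  have hinj : Function.Injective Φ := by
    intro S T h
    rw [hΦapp, hΦapp] at h
    have h1 := (Matrix.toLinAlgEquiv' : Matrix (Fin m) (Fin m) ℂ ≃ₐ[ℂ] _).injective h
    have h2 : Function.Injective (ι.mapMatrix : Matrix (Fin m) (Fin m) K → Matrix (Fin m) (Fin m) ℂ) := by
      intro A B hAB
      ext i j
      have := congrFun (congrFun hAB i) j
      exact ι.injective this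
    exact (LinearMap.toMatrixAlgEquiv b).injective (h2 h1)
  have hfin : finrank ℂ (Fin m → ℂ) = m := by simp
  have hproj : ProjFinite (Φ.comp ρ) := by
    obtain ⟨T, hT, hT2⟩ := hρ
    refine ⟨Φ '' T, hT.image _, ?_⟩
    intro g
    obtain ⟨t, ht, c, hc⟩ := hT2 g
    refine ⟨Φ t, ⟨t, ht, rfl⟩, ι c, ?_⟩
    rw [MonoidHom.comp_apply, hc, hΦapp, hΦapp, map_smul]
    have : ι.mapMatrix (c • LinearMap.toMatrixAlgEquiv b t) = ι c • ι.mapMatrix (LinearMap.toMatrixAlgEquiv b t) := by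
      ext i j
      simp
    rw [this, map_smul]
  obtain ⟨H, hH1, hH2, hH3⟩ := hJ G (Fin m → ℂ) hfin (Φ.comp ρ) hproj
  refine ⟨H, hH1, hH2, ?_⟩
  intro x hx y hy
  apply hinj
  rw [map_mul, map_mul]
  exact hH3 x hx y hy

end Run7.h185.FOM
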