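import Mathlib
import Pool.Agent.Run7.h185.FOM.Semi

/-!
# Galois descent for the endomorphism algebra
-/

namespace Run7.h185.FOM

open Polynomial Module

namespace SL

variable {K Γ W : Type} [Field K] [Group Γ] [AddCommGroup W] [Module K W] (R : SL K Γ W)

/-- the pointwise stabilizer of a set of scalars -/
def fixT (T : Set K) : Subgroup Γ where
  carrier := {γ | ∀ c ∈ T, R.τ γ c = c}
  mul_mem' {γ δ} h1 h2 c hc := by rw [τ_mul_apply, h2 c hc, h1 c hc]
  one_mem' c _ := R.τ_one_apply c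
  inv_mem' {γ} h c hc := by
    have h1 := h c hc
    calc R.τ γ⁻¹ c = R.τ γ⁻¹ (R.τ γ c) := by rw [h1]
      _ = c := by rw [← τ_mul_apply, inv_mul_cancel, τ_one_apply]

lemma mem_fixT (T : Set K) (γ : Γ) : γ ∈ R.fixT T ↔ ∀ c ∈ T, R.τ γ c = c := Iff.rfl

variable {R} in
lemma Adm.finite_quot (hR : R.Adm) (T : Set K) (hT : T.Finite) : Finite (Γ ⧸ R.fixT T) := by
  classical
  have hT' : Finite T := hT
  have hfin : (Set.univ.pi fun c : T => {x | ∃ γ, R.τ γ (c : K) = x}).Finite :=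
    Set.Finite.pi (fun c => hR.alg c)
  have : Finite (Set.univ.pi fun c : T => {x | ∃ γ, R.τ γ (c : K) = x}) := hfin
  refine Finite.of_injective
    (fun x : Γ ⧸ R.fixT T => (⟨fun c : T => R.τ x.out (c : K), fun c _ => ⟨x.out, rfl⟩⟩ :
      (Set.univ.pi fun c : T => {x | ∃ γ, R.τ γ (c : K) = x}))) ?_
  intro x y hxy
  have h1 : ∀ c ∈ T, R.τ x.out c = R.τ y.out c := by
    intro c hc
    have := congrArg Subtype.val hxy
    exact congrFun this ⟨c, hc⟩
  rw [← QuotientGroup.out_eq' x, ← QuotientGroup.out_eq' y, QuotientGroup.eq]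
  intro c hc
  rw [τ_mul_apply, ← h1 c hc, ← τ_mul_apply, inv_mul_cancel, τ_one_apply]

variable {R} in
/-- the fixed endomorphisms span -/
theorem Adm.descent (hR : R.Adm)
    (hsc : ∀ γ, R.τ γ = 1 → ∀ u, R.conj γ u = u) :
    Submodule.span K {u | ∀ γ, R.conj γ u = u} = ⊤ := by
  classical
  by_contra hne
  obtain ⟨u, hu⟩ : ∃ u, u ∉ Submodule.span K {u | ∀ γ, R.conj γ u = u} := by
    by_contra h
    push Not at h
    exact hne (eq_top_iff.2 fun u _ => h u)
  obtain ⟨f, hfu, hf⟩ := Submodule.exists_le_ker_of_notMem hu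
  obtain ⟨T, hT, hT2⟩ := hR.cont {u} (Set.finite_singleton u)
  have hfixu : ∀ δ ∈ R.fixT T, R.conj δ u = u := by
    intro δ hδ
    obtain ⟨γ₀, h1, h2⟩ := hT2 δ hδ
    rw [h2 u rfl, hsc γ₀ h1]
  have hfin := hR.finite_quot T hT
  have : Fintype (Γ ⧸ R.fixT T) := Fintype.ofFinite _
  -- the monoid of scalars fixed by the stabilizer
  set E : Submonoid K :=
    { carrier := {c | ∀ δ ∈ R.fixT T, R.τ δ c = c}
      mul_mem' := fun {a b} ha hb δ hδ => by rw [map_mul, ha δ hδ, hb δ hδ]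
      one_mem' := fun δ _ => map_one _ } with hE
  have hTE : ∀ c ∈ T, c ∈ E := fun c hc δ hδ => hδ c hc
  set φ : Γ ⧸ R.fixT T → (E →* K) := fun x =>
    { toFun := fun c => R.τ x.out (c : K)
      map_one' := map_one _
      map_mul' := fun a b => map_mul _ _ _ } with hφ
  have hφinj : Function.Injective φ := by
    intro x y hxy
    rw [← QuotientGroup.out_eq' x, ← QuotientGroup.out_eq' y, QuotientGroup.eq]
    intro c hc
    have h1 : R.τ x.out c = R.τ y.out c := DFunLike.congr_fun hxy (⟨c, hTE c hc⟩ : E)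
    rw [τ_mul_apply, ← h1, ← τ_mul_apply, inv_mul_cancel, τ_one_apply]
  have hwell : ∀ (a b : Γ), a⁻¹ * b ∈ R.fixT T → ∀ c ∈ E, R.conj a (c • u) = R.conj b (c • u) := by
    intro a b hab c hc
    have h1 : R.conj (a⁻¹ * b) (c • u) = c • u := by
      rw [conj_smul, hfixu _ hab]
      congr 1
      exact hc _ hab
    calc R.conj a (c • u) = R.conj a (R.conj (a⁻¹ * b) (c • u)) := by rw [h1]
      _ = R.conj b (c • u) := by rw [← conj_mul, mul_inv_cancel_left]
  have hsum : ∀ c ∈ E, (∑ x : Γ ⧸ R.fixT T, R.conj x.out (c • u)) ∈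
      ({u | ∀ γ, R.conj γ u = u} : Set (Module.End K W)) := by
    intro c hc γ
    rw [map_sum]
    refine Fintype.sum_equiv (MulAction.toPerm γ) _ _ ?_
    intro x
    rw [← conj_mul, MulAction.toPerm_apply]
    apply hwell _ _ _ c hc
    rw [← QuotientGroup.eq]
    rw [QuotientGroup.out_eq']
    conv_rhs => rw [← QuotientGroup.out_eq' x]
    rfl
  have hli := (linearIndependent_monoidHom E K).comp φ hφinj
  rw [Fintype.linearIndependent_iff] at hli
  have hzero : ∀ x : Γ ⧸ R.fixT T, f (R.conj x.out u) = 0 := by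
    apply hli
    funext c
    have h1 : f (∑ x : Γ ⧸ R.fixT T, R.conj x.out ((c : K) • u)) = 0 :=
      hf (Submodule.subset_span (hsum c c.2))
    rw [map_sum] at h1
    rw [Finset.sum_apply]
    refine Eq.trans ?_ h1
    apply Finset.sum_congr rfl
    intro x _
    rw [conj_smul, map_smul, smul_eq_mul]
    simp only [Pi.smul_apply, Function.comp_apply, smul_eq_mul]
    rw [mul_comm]
    rfl
  obtain ⟨y, hy⟩ : ∃ y : Γ ⧸ R.fixT T, y = QuotientGroup.mk (1 : Γ) := ⟨_, rfl⟩
  have h1 := hzero y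
  have h2 : R.conj y.out u = u := by
    apply hfixu
    have : (1 : Γ)⁻¹ * y.out ∈ R.fixT T := by
      rw [← QuotientGroup.eq, QuotientGroup.out_eq', hy]
    simpa using this
  rw [h2] at h1
  exact hfu h1

end SL

end Run7.h185.FOM
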