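import Mathlib
import Pool.Agent.Run7.h185.FOM.Descent

/-!
# Idempotents with a small orbit, first case
-/

namespace Run7.h185.FOM

open Polynomial Module

section

variable {K W : Type} [Field K] [AddCommGroup W] [Module K W] [FiniteDimensional K W]

/-- the spectral idempotent -/
noncomputable def sid (s : Module.End K W) (μ : K) : Module.End K W :=
  @eid K _ W _ _ _ (Classical.decEq K) s μ

lemma sid_mul_self [IsAlgClosed K] (s : Module.End K W) (μ : K) (hμ : μ ∈ spec s) :
    sid s μ * sid s μ = sid s μ :=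
  @eid_mul_self K _ W _ _ _ (Classical.decEq K) _ s μ hμ

lemma sid_ne_zero (s : Module.End K W) (μ : K) (hμ : μ ∈ spec s) (hm : finrank K W ≠ 0) :
    sid s μ ≠ 0 :=
  @eid_ne_zero K _ W _ _ _ (Classical.decEq K) s μ hμ hm

lemma sid_ne_one (s : Module.End K W) (μ ν : K) (hν : ν ∈ spec s) (h : ν ≠ μ)
    (hm : finrank K W ≠ 0) : sid s μ ≠ 1 :=
  @eid_ne_one K _ W _ _ _ (Classical.decEq K) s μ ν hν h hm

lemma sid_mem_adjoin (s : Module.End K W) (μ : K) : sid s μ ∈ Algebra.adjoin K {s} :=
  @eid_mem_adjoin K _ W _ _ _ (Classical.decEq K) s μ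

lemma sid_smul (c : K) (hc : c ≠ 0) (s : Module.End K W) (μ : K) :
    sid (c • s) (c * μ) = sid s μ :=
  @eid_smul K _ W _ _ _ (Classical.decEq K) c hc s μ

lemma spec_smul (c : K) (hc : c ≠ 0) (s : Module.End K W) (μ : K) (h : μ ∈ spec (c • s)) :
    c⁻¹ * μ ∈ spec s := by
  rw [mem_spec, spectrum.mem_iff] at h ⊢
  intro hu
  apply h
  have : algebraMap K (Module.End K W) μ - c • s =
      (Units.mk0 c hc) • (algebraMap K (Module.End K W) (c⁻¹ * μ) - s) := by
    rw [smul_sub, Algebra.algebraMap_eq_smul_one, Algebra.algebraMap_eq_smul_one]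
    simp only [Units.smul_mk0, smul_smul]
    rw [mul_inv_cancel_left₀ hc]
  rw [this]
  exact (isUnit_smul_iff (Units.mk0 c hc) _).2 hu

end

namespace SL

variable {K Γ W : Type} [Field K] [Group Γ] [AddCommGroup W] [Module K W] (R : SL K Γ W)

lemma conj_sid [FiniteDimensional K W] (γ : Γ) (s : Module.End K W) (μ : K) :
    R.conj γ (sid s μ) = sid (R.conj γ s) (R.τ γ μ) :=
  @eid_semi K _ W _ _ _ (Classical.decEq K) (R.τ γ) (R.conj γ) (R.conj_smul γ) s μ

lemma conj_spec [FiniteDimensional K W] (γ : Γ) (s : Module.End K W) (μ : K) :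
    R.τ γ μ ∈ spec (R.conj γ s) ↔ μ ∈ spec s :=
  spec_semi (R.τ γ) (R.conj γ) (R.conj_smul γ) s μ

variable {R} in
/-- if the linear part acts by scalars there is a fixed endomorphism with two eigenvalues -/
theorem Adm.exists_two_eigen [IsAlgClosed K] [CharZero K] [FiniteDimensional K W] (hR : R.Adm)
    (hsc : ∀ γ, R.τ γ = 1 → ∀ u, R.conj γ u = u) (hm : 2 ≤ finrank K W) :
    ∃ s : Module.End K W, (∀ γ, R.conj γ s = s) ∧ ∃ μ ∈ spec s, ∃ ν ∈ spec s, ν ≠ μ := by
  classical
  by_contra hcon
  push Not at hcon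
  have hnt : Nontrivial W := Module.nontrivial_of_finrank_pos (R := K) (by omega)
  set m : K := (finrank K W : K) with hmdef
  have hsq : ∀ s : Module.End K W, (∀ γ, R.conj γ s = s) →
      m * LinearMap.trace K W (s * s) = LinearMap.trace K W s * LinearMap.trace K W s := by
    intro s hs
    obtain ⟨μ, hμ⟩ := Module.End.exists_eigenvalue s
    have hμ' : μ ∈ spec s := by
      rw [mem_spec, ← Module.End.hasEigenvalue_iff_mem_spectrum]
      exact hμ
    have h1 : LinearMap.trace K W s = finrank K W * μ :=
      trace_of_single s μ (fun ν hν => hcon s hs μ hμ' ν hν)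
    have hss : ∀ γ, R.conj γ (s * s) = s * s := by
      intro γ
      rw [map_mul, hs γ]
    have hμ2 : μ * μ ∈ spec (s * s) := by
      obtain ⟨v, hv⟩ := hμ.exists_hasEigenvector
      rw [mem_spec, ← Module.End.hasEigenvalue_iff_mem_spectrum]
      apply Module.End.hasEigenvalue_of_hasEigenvector (x := v)
      refine ⟨Module.End.mem_eigenspace_iff.2 ?_, hv.2⟩
      rw [Module.End.mul_apply, hv.apply_eq_smul, map_smul, hv.apply_eq_smul, smul_smul]
    have h2 : LinearMap.trace K W (s * s) = finrank K W * (μ * μ) :=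
      trace_of_single (s * s) (μ * μ) (fun ν hν => hcon (s * s) hss _ hμ2 ν hν)
    rw [h1, h2, hmdef]
    ring
  have hbil : ∀ s t : Module.End K W, (∀ γ, R.conj γ s = s) → (∀ γ, R.conj γ t = t) →
      m * LinearMap.trace K W (s * t) = LinearMap.trace K W s * LinearMap.trace K W t := by
    intro s t hs ht
    have h1 := hsq s hs
    have h2 := hsq t ht
    have h3 := hsq (s + t) (fun γ => by rw [map_add, hs γ, ht γ])
    have h4 : (s + t) * (s + t) = s * s + s * t + (t * s + t * t) := by noncomm_ring
    rw [h4, map_add, map_add, map_add, map_add, LinearMap.trace_mul_comm K t s] at h3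
    have h5 : (2 : K) * (m * LinearMap.trace K W (s * t)) =
        2 * (LinearMap.trace K W s * LinearMap.trace K W t) := by
      linear_combination h3 - h1 - h2
    exact mul_left_cancel₀ two_ne_zero h5
  have hspan := hR.descent hsc
  have hbil2 : ∀ s t : Module.End K W, (∀ γ, R.conj γ s = s) →
      m * LinearMap.trace K W (s * t) = LinearMap.trace K W s * LinearMap.trace K W t := by
    intro s t hs
    have ht : t ∈ Submodule.span K {u | ∀ γ, R.conj γ u = u} := by rw [hspan]; trivial
    induction ht using Submodule.span_induction with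
    | mem x hx => exact hbil s x hs hx
    | zero => simp
    | add x y _ _ hx hy =>
      rw [mul_add, map_add, map_add, mul_add, mul_add, hx, hy]
    | smul c x _ hx =>
      rw [mul_smul_comm, map_smul, map_smul, smul_eq_mul, smul_eq_mul]
      linear_combination c * hx
  have hbil3 : ∀ s t : Module.End K W,
      m * LinearMap.trace K W (s * t) = LinearMap.trace K W s * LinearMap.trace K W t := by
    intro s t
    have hs : s ∈ Submodule.span K {u | ∀ γ, R.conj γ u = u} := by rw [hspan]; trivial
    induction hs using Submodule.span_induction with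
    | mem x hx => exact hbil2 x t hx
    | zero => simp
    | add x y _ _ hx hy =>
      rw [add_mul, map_add, map_add, mul_add, add_mul, hx, hy]
    | smul c x _ hx =>
      rw [smul_mul_assoc, map_smul, map_smul, smul_eq_mul, smul_eq_mul]
      linear_combination c * hx
  -- an idempotent of rank one
  obtain ⟨v, hv⟩ := exists_ne (0 : W)
  obtain ⟨f, hf⟩ := Module.Projective.exists_dual_eq_one K hv
  have hP : f.smulRight v * f.smulRight v = (f.smulRight v : Module.End K W) := by
    ext w
    simp [Module.End.mul_apply, LinearMap.smulRight_apply, hf]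
  have h1 := hbil3 (f.smulRight v) (f.smulRight v)
  rw [hP, LinearMap.trace_smulRight, hf, mul_one, mul_one, hmdef] at h1
  have h2 : finrank K W = 1 := by exact_mod_cast h1
  omega

variable {R} in
/-- the bounded orbit of a spectral idempotent of a fixed endomorphism -/
theorem Adm.caseA [IsAlgClosed K] [CharZero K] [FiniteDimensional K W] (hR : R.Adm)
    (hsc : ∀ γ, R.τ γ = 1 → ∀ u, R.conj γ u = u) (hm : 2 ≤ finrank K W) :
    ∃ e : Module.End K W, e * e = e ∧ e ≠ 0 ∧ e ≠ 1 ∧ (R.orb e).Finite ∧
      (R.orb e).ncard ≤ finrank K W := by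
  classical
  obtain ⟨s, hs, μ, hμ, ν, hν, hne⟩ := hR.exists_two_eigen hsc hm
  have hsub : R.orb (sid s μ) ⊆ ((spec s).image (sid s) : Finset (Module.End K W)) := by
    rintro _ ⟨γ, rfl⟩
    simp only [Finset.coe_image, Set.mem_image]
    refine ⟨R.τ γ μ, ?_, ?_⟩
    · have := (R.conj_spec γ s μ).2 hμ
      rw [hs γ] at this
      exact this
    · change _ = R.conj γ (sid s μ)
      rw [R.conj_sid, hs γ]
  refine ⟨sid s μ, sid_mul_self s μ hμ, sid_ne_zero s μ hμ (by omega),
    sid_ne_one s μ ν hν hne (by omega), (Finset.finite_toSet _).subset hsub, ?_⟩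
  calc (R.orb (sid s μ)).ncard ≤ (((spec s).image (sid s) : Finset (Module.End K W)) : Set _).ncard :=
        Set.ncard_le_ncard hsub (Finset.finite_toSet _)
    _ = ((spec s).image (sid s)).card := Set.ncard_coe_finset _
    _ ≤ (spec s).card := Finset.card_image_le
    _ ≤ finrank K W := card_spec_le s

end SL

end Run7.h185.FOM
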