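import Mathlib
import Pool.Agent.Run7.h185.FOM.SmallA
import Pool.Agent.Run7.h185.FOM.JordanC

/-!
# Idempotents with a small orbit, second case
-/

namespace Run7.h185.FOM

open Polynomial Module

section

variable {K W : Type} [Field K] [AddCommGroup W] [Module K W] [FiniteDimensional K W]

/-- an operator of finite order modulo scalars has two eigenvalues or is a scalar -/
lemma two_eigen_of_pow [IsAlgClosed K] [CharZero K] (s : Module.End K W) (N : ℕ) (hN : 0 < N)
    (c : K) (hc : c ≠ 0) (hs : s ^ N = c • (1 : Module.End K W))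
    (hns : ∀ a : K, s ≠ a • (1 : Module.End K W)) :
    ∃ μ ∈ spec s, ∃ ν ∈ spec s, ν ≠ μ := by
  classical
  by_contra hcon
  push Not at hcon
  have hnt : Nontrivial W := by
    by_contra h
    rw [not_nontrivial_iff_subsingleton] at h
    apply hns 0
    ext w
    exact Subsingleton.elim _ _
  obtain ⟨μ, hμ⟩ := Module.End.exists_eigenvalue s
  have hμ' : μ ∈ spec s := by
    rw [mem_spec, ← Module.End.hasEigenvalue_iff_mem_spectrum]
    exact hμ
  have hint : IsIntegral K s := Algebra.IsIntegral.isIntegral s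
  have hdvd : minpoly K s ∣ X ^ N - C c := by
    apply minpoly.dvd
    rw [map_sub, map_pow, aeval_X, aeval_C, hs, Algebra.algebraMap_eq_smul_one, sub_self]
  have hsep : (minpoly K s).Separable := by
    refine Polynomial.Separable.of_dvd ?_ hdvd
    exact Polynomial.separable_X_pow_sub_C c (by exact_mod_cast hN.ne') hc
  have hsplit := IsAlgClosed.splits (minpoly K s)
  have h1 := hsplit.eq_prod_roots_of_monic (minpoly.monic hint)
  have hroots : ∀ ν ∈ (minpoly K s).roots, ν = μ := by
    intro ν hν
    apply hcon μ hμ' ν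
    rw [mem_spec, ← Module.End.hasEigenvalue_iff_mem_spectrum]
    apply Module.End.hasEigenvalue_of_isRoot
    exact (mem_roots (minpoly.ne_zero hint)).1 hν
  have hnodup : (minpoly K s).roots.Nodup := nodup_roots hsep
  have hle : (minpoly K s).roots ≤ {μ} := by
    rw [Multiset.le_iff_subset hnodup]
    intro ν hν
    rw [Multiset.mem_singleton]
    exact hroots ν hν
  have h2 : (minpoly K s) ∣ X - C μ := by
    rw [h1]
    have h3 : ((minpoly K s).roots.map fun a => X - C a) ≤ ({μ} : Multiset K).map fun a => X - C a :=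
      Multiset.map_le_map hle
    have h4 := Multiset.prod_dvd_prod_of_le h3
    simpa using h4
  have h3 : aeval s (X - C μ) = 0 := by
    obtain ⟨q, hq⟩ := h2
    rw [hq, map_mul, minpoly.aeval, zero_mul]
  apply hns μ
  rw [map_sub, aeval_X, aeval_C, Algebra.algebraMap_eq_smul_one, sub_eq_zero] at h3
  exact h3

omit [FiniteDimensional K W] in
/-- the operators of a projectively finite representation have finite order modulo scalars -/
lemma ProjFinite.pow_scalar {G : Type} [Group G] [Nontrivial W] {ρ : G →* Module.End K W}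
    (h : ProjFinite ρ) (g : G) :
    ∃ N, 0 < N ∧ ∃ c : K, c ≠ 0 ∧ (ρ g) ^ N = c • (1 : Module.End K W) := by
  obtain ⟨T, hT, hT2⟩ := h
  choose t ht using fun k : ℕ => hT2 (g ^ k)
  have hfin : Finite T := hT
  obtain ⟨i, j, hij, heq⟩ : ∃ i j : ℕ, i < j ∧ t i = t j := by
    have hni : ¬ Function.Injective (fun k : ℕ => (⟨t k, (ht k).1⟩ : T)) := by
      intro hinj
      exact not_injective_infinite_finite _ hinj
    rw [Function.Injective] at hni
    push Not at hni
    obtain ⟨i, j, h1, h2⟩ := hni
    have h1' : t i = t j := congrArg Subtype.val h1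
    rcases lt_or_gt_of_ne h2 with h3 | h3
    · exact ⟨i, j, h3, h1'⟩
    · exact ⟨j, i, h3, h1'.symm⟩
  obtain ⟨a, ha⟩ := (ht i).2
  obtain ⟨b, hb⟩ := (ht j).2
  have hunit : ∀ x : G, ρ x * ρ x⁻¹ = 1 := fun x => by rw [← map_mul, mul_inv_cancel, map_one]
  have hne : ∀ x : G, ρ x ≠ 0 := by
    intro x h0
    have := hunit x
    rw [h0, zero_mul] at this
    exact zero_ne_one this
  have ha0 : a ≠ 0 := by
    rintro rfl
    rw [zero_smul] at ha
    exact hne _ ha
  have hb0 : b ≠ 0 := by
    rintro rfl
    rw [zero_smul] at hb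
    exact hne _ hb
  refine ⟨j - i, by omega, b * a⁻¹, mul_ne_zero hb0 (inv_ne_zero ha0), ?_⟩
  have h1 : ρ (g ^ j) = (b * a⁻¹) • ρ (g ^ i) := by
    rw [ha, hb, heq, smul_smul, mul_assoc, inv_mul_cancel₀ ha0, mul_one]
  have h2 : g ^ (j - i) = g ^ j * (g ^ i)⁻¹ := by
    rw [pow_sub _ hij.le]
  rw [← map_pow, h2, map_mul, h1, smul_mul_assoc, hunit]

end

namespace SL

variable {K Γ W : Type} [Field K] [Group Γ] [AddCommGroup W] [Module K W] (R : SL K Γ W)

/-- an endomorphism commuting with all the others is a scalar -/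
lemma scalar_of_comm (s : Module.End K W) (h : ∀ u : Module.End K W, s * u = u * s) :
    ∃ a : K, s = a • (1 : Module.End K W) := by
  have h1 : s ∈ Subalgebra.center K (Module.End K W) := by
    rw [Subalgebra.mem_center_iff]
    intro u
    exact (h u).symm
  have h2 := Algebra.IsCentral.out (K := K) (D := Module.End K W) h1
  obtain ⟨a, ha⟩ := Algebra.mem_bot.1 h2
  exact ⟨a, by rw [← ha, Algebra.algebraMap_eq_smul_one]⟩

variable {R} in
lemma Adm.projFinite [FiniteDimensional K W] (hR : R.Adm) : ProjFinite R.lin := by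
  classical
  set b := Module.finBasis K (Module.End K W) with hb
  set F : R.τ.ker → (Fin (finrank K (Module.End K W)) → Module.End K W) :=
    fun g i => R.conj g (b i) with hF
  have hfin : (Set.range F).Finite := by
    refine (Set.Finite.pi (fun i => hR.fin0 (b i))).subset ?_
    rintro _ ⟨g, rfl⟩ i _
    exact ⟨g, g.2, rfl⟩
  have hfin' : Finite (Set.range F) := hfin
  -- choose representatives
  choose r hr using fun x : Set.range F => x.2
  refine ⟨Set.range fun x : Set.range F => R.lin (r x), Set.finite_range _, ?_⟩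
  intro g
  refine ⟨R.lin (r ⟨F g, g, rfl⟩), ⟨_, rfl⟩, ?_⟩
  set h := r ⟨F g, g, rfl⟩ with hh
  have hFh : F h = F g := hr _
  have hall : ∀ u, R.conj h u = R.conj g u := by
    intro u
    have hlin : ∀ k : R.τ.ker, ∀ u, R.conj k u = ∑ i, (b.repr u i) • R.conj k (b i) := by
      intro k u
      conv_lhs => rw [← b.sum_repr u]
      rw [map_sum]
      apply Finset.sum_congr rfl
      intro i _
      rw [conj_smul]
      have : R.τ k = 1 := k.2
      rw [this]
      rfl
    rw [hlin h, hlin g]
    apply Finset.sum_congr rfl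
    intro i _
    congr 1
    exact congrFun hFh i
  have hcomm : ∀ u, R.lin (h⁻¹ * g) * u = u * R.lin (h⁻¹ * g) := by
    intro u
    have h1 := R.conj_of_ker (h⁻¹ * g) u
    rw [← h1]
    congr 1
    rw [Subgroup.coe_mul, conj_mul, ← hall, ← conj_mul]
    rw [Subgroup.coe_inv, inv_mul_cancel, conj_one]
  obtain ⟨a, ha⟩ := scalar_of_comm _ hcomm
  refine ⟨a, ?_⟩
  have : R.lin g = R.lin h * R.lin (h⁻¹ * g) := by
    rw [← map_mul, mul_inv_cancel_left]
  rw [this, ha, mul_smul_comm, mul_one]

end SL

end Run7.h185.FOM
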