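import Mathlib
import Pool.Agent.Run7.h185.FOM.SmallB

/-!
# Idempotents with a small orbit: conclusion
-/

namespace Run7.h185.FOM

open Polynomial Module

namespace SL

variable {K Γ W : Type} [Field K] [Group Γ] [AddCommGroup W] [Module K W] (R : SL K Γ W)

variable {R} in
/-- an idempotent in an invariant commutative subspace gives one with a small orbit -/
theorem orbit_of_invariant [FiniteDimensional K W] (A : Submodule K (Module.End K W))
    (hmul : ∀ a ∈ A, ∀ b ∈ A, a * b ∈ A) (hcomm : ∀ a ∈ A, ∀ b ∈ A, a * b = b * a)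
    (hinv : ∀ γ, ∀ a ∈ A, R.conj γ a ∈ A)
    (e₀ : Module.End K W) (he₀ : e₀ ∈ A) (hid : e₀ * e₀ = e₀) (h0 : e₀ ≠ 0) (h1 : e₀ ≠ 1) :
    ∃ e : Module.End K W, e * e = e ∧ e ≠ 0 ∧ e ≠ 1 ∧ (R.orb e).Finite ∧
      (R.orb e).ncard ≤ finrank K W * finrank K W := by
  classical
  -- the primitive idempotents
  set P : Set (Module.End K W) := {e | e ∈ A ∧ e * e = e ∧ e ≠ 0 ∧
    ∀ f ∈ A, f * f = f → f ≠ 0 → f * e = f → f = e} with hP
  have hPinv : ∀ γ, ∀ e ∈ P, R.conj γ e ∈ P := by
    rintro γ e ⟨ha, hb, hc, hd⟩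
    refine ⟨hinv γ e ha, by rw [← map_mul, hb], ?_, ?_⟩
    · intro h
      apply hc
      rw [← R.conj_inv_conj γ e, h, map_zero]
    · intro f hf1 hf2 hf3 hf4
      have h2 := hd (R.conj γ⁻¹ f) (hinv _ _ hf1) (by rw [← map_mul, hf2])
        (by
          intro h
          apply hf3
          rw [← R.conj_conj_inv γ f, h, map_zero])
        (by
          have h3 := congrArg (R.conj γ⁻¹) hf4
          rw [map_mul, R.conj_inv_conj] at h3
          exact h3)
      rw [← h2, R.conj_conj_inv]
  have horth : ∀ e ∈ P, ∀ f ∈ P, e ≠ f → e * f = 0 := by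
    rintro e ⟨ha, hb, hc, hd⟩ f ⟨ha', hb', hc', hd'⟩ hef
    by_contra hne
    have hmem := hmul e ha f ha'
    have hco := hcomm e ha f ha'
    have hidem : e * f * (e * f) = e * f := by
      calc e * f * (e * f) = e * (f * e) * f := by noncomm_ring
        _ = e * (e * f) * f := by rw [hco]
        _ = (e * e) * (f * f) := by noncomm_ring
        _ = e * f := by rw [hb, hb']
    have h1 := hd (e * f) hmem hidem hne (by rw [hco, mul_assoc, hb])
    have h2 := hd' (e * f) hmem hidem hne (by rw [mul_assoc, hb'])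
    exact hef (h1.symm.trans h2)
  have hli : LinearIndependent K (fun e : P => (e : Module.End K W)) := by
    rw [linearIndependent_iff']
    intro s g hs i hi
    have h2 : (i : Module.End K W) * (∑ j ∈ s, g j • (j : Module.End K W)) = g i • (i : Module.End K W) := by
      rw [Finset.mul_sum, Finset.sum_eq_single i]
      · rw [mul_smul_comm, i.2.2.1]
      · intro j _ hji
        rw [mul_smul_comm, horth i i.2 j j.2 (fun h => hji (Subtype.ext h.symm)), smul_zero]
      · intro h
        exact absurd hi h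
    rw [hs, mul_zero] at h2
    rcases smul_eq_zero.1 h2.symm with h3 | h3
    · exact h3
    · exact absurd h3 i.2.2.2.1
  have hfin : Finite P := by
    have := hli.finite
    exact this
  have : Fintype P := Fintype.ofFinite P
  have hcard : P.ncard ≤ finrank K W * finrank K W := by
    have h2 := hli.fintype_card_le_finrank
    rw [show finrank K (Module.End K W) = finrank K W * finrank K W from
      Module.finrank_linearMap K K W W] at h2
    rw [← Nat.card_coe_set_eq, Nat.card_eq_fintype_card]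
    exact h2
  -- existence
  obtain ⟨e, heP, he1⟩ : ∃ e ∈ P, e ≠ 1 := by
    have hex : ∃ n : ℕ, ∃ f ∈ A, f * f = f ∧ f ≠ 0 ∧ f * e₀ = f ∧
        finrank K (LinearMap.range f) = n := ⟨_, e₀, he₀, hid, h0, hid, rfl⟩
    obtain ⟨f, hf1, hf2, hf3, hf4, hf5⟩ := Nat.find_spec hex
    have hmin := fun n => Nat.find_min' (m := n) hex
    refine ⟨f, ⟨hf1, hf2, hf3, ?_⟩, ?_⟩
    · intro g hg1 hg2 hg3 hg4
      have h2 : g * e₀ = g := by
        rw [← hg4, mul_assoc, hf4]
      have h3 := hmin _ ⟨g, hg1, hg2, hg3, h2, rfl⟩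
      have h4 : LinearMap.range g ≤ LinearMap.range f := by
        rw [← hg4, hcomm g hg1 f hf1]
        exact LinearMap.range_comp_le_range _ _
      have h5 : LinearMap.range g = LinearMap.range f :=
        Submodule.eq_of_le_of_finrank_le h4 (by rw [hf5]; exact h3)
      have h6 : g * f = f := by
        ext w
        have h7 : f w ∈ LinearMap.range g := by rw [h5]; exact ⟨w, rfl⟩
        obtain ⟨v, hv⟩ := h7
        rw [Module.End.mul_apply, ← hv, ← Module.End.mul_apply, hg2]
      rw [← hg4, h6]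
    · rintro rfl
      rw [one_mul] at hf4
      exact h1 hf4
  have hsub : R.orb e ⊆ P := by
    rintro _ ⟨γ, rfl⟩
    exact hPinv γ e heP
  refine ⟨e, heP.2.1, heP.2.2.1, he1, (Set.toFinite P).subset hsub, ?_⟩
  exact (Set.ncard_le_ncard hsub (Set.toFinite P)).trans hcard

variable {R} in
/-- small orbits when a commuting subgroup acts by scalars -/
theorem orbit_of_scalar [IsAlgClosed K] [CharZero K] [FiniteDimensional K W] (hR : R.Adm)
    (hm : 2 ≤ finrank K W) (H : Subgroup R.τ.ker) (hH0 : H.index ≠ 0)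
    (hH : ∀ h ∈ H, ∃ a : K, R.lin h = a • (1 : Module.End K W))
    (g : R.τ.ker) (hg : ∀ a : K, R.lin g ≠ a • (1 : Module.End K W)) :
    ∃ e : Module.End K W, e * e = e ∧ e ≠ 0 ∧ e ≠ 1 ∧ (R.orb e).Finite ∧
      (R.orb e).ncard ≤ H.index * finrank K W := by
  classical
  have hnt : Nontrivial W := Module.nontrivial_of_finrank_pos (R := K) (by omega)
  obtain ⟨N, hN, c, hc, hpow⟩ := hR.projFinite.pow_scalar g
  obtain ⟨μ, hμ, ν, hν, hne⟩ := two_eigen_of_pow (R.lin g) N hN c hc hpow hg
  have hfin : Finite (R.τ.ker ⧸ H) := by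
    have : H.FiniteIndex := ⟨hH0⟩
    infer_instance
  have : Fintype (R.τ.ker ⧸ H) := Fintype.ofFinite _
  set S : Finset (Module.End K W) := (Finset.univ : Finset (R.τ.ker ⧸ H)).biUnion
    (fun q => (spec (R.lin q.out)).image (sid (R.lin q.out))) with hS
  have hScard : S.card ≤ H.index * finrank K W := by
    refine (Finset.card_biUnion_le_card_mul _ _ (finrank K W) ?_).trans ?_
    · intro q _
      exact Finset.card_image_le.trans (card_spec_le _)
    · rw [Finset.card_univ, ← Nat.card_eq_fintype_card]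
      rfl
  have hsub : R.orb (sid (R.lin g) μ) ⊆ (S : Set (Module.End K W)) := by
    rintro _ ⟨γ, rfl⟩
    have hmemk : γ * (g : Γ) * γ⁻¹ ∈ R.τ.ker := by
      have : R.τ.ker.Normal := inferInstance
      exact this.conj_mem _ g.2 γ
    set g' : R.τ.ker := ⟨γ * (g : Γ) * γ⁻¹, hmemk⟩ with hg'
    have h1 : R.conj γ (R.lin g) = R.lin g' := R.conj_lin γ g g' rfl
    change R.conj γ (sid (R.lin g) μ) ∈ (S : Set (Module.End K W))
    rw [R.conj_sid, h1]
    set q : R.τ.ker ⧸ H := QuotientGroup.mk g' with hq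
    have h2 : q.out⁻¹ * g' ∈ H := by
      rw [← QuotientGroup.eq, QuotientGroup.out_eq']
    obtain ⟨a, ha⟩ := hH _ h2
    have h3 : R.lin g' = a • R.lin q.out := by
      have : R.lin g' = R.lin q.out * R.lin (q.out⁻¹ * g') := by
        rw [← map_mul, mul_inv_cancel_left]
      rw [this, ha, mul_smul_comm, mul_one]
    have ha0 : a ≠ 0 := by
      rintro rfl
      rw [zero_smul] at h3
      have h4 : R.lin g' * R.lin g'⁻¹ = 1 := by rw [← map_mul, mul_inv_cancel, map_one]
      rw [h3, zero_mul] at h4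
      exact zero_ne_one h4
    have h5 : R.τ γ μ ∈ spec (R.lin g') := by
      rw [← h1]
      exact (R.conj_spec γ _ μ).2 hμ
    rw [h3] at h5 ⊢
    have h6 := spec_smul a ha0 _ _ h5
    rw [Finset.mem_coe, hS, Finset.mem_biUnion]
    refine ⟨q, Finset.mem_univ _, ?_⟩
    rw [Finset.mem_image]
    refine ⟨a⁻¹ * R.τ γ μ, h6, ?_⟩
    rw [← sid_smul a ha0, mul_inv_cancel_left₀ ha0]
  refine ⟨sid (R.lin g) μ, sid_mul_self _ μ hμ, sid_ne_zero _ μ hμ (by omega),
    sid_ne_one _ μ ν hν hne (by omega), (Finset.finite_toSet _).subset hsub, ?_⟩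
  calc _ ≤ (S : Set (Module.End K W)).ncard := Set.ncard_le_ncard hsub (Finset.finite_toSet _)
    _ = S.card := Set.ncard_coe_finset _
    _ ≤ _ := hScard

end SL

/-- **Lemma S**: an idempotent with a bounded orbit -/
theorem small_orbit (K : Type) [Field K] [IsAlgClosed K] [CharZero K] (ι : K →+* ℂ) (m : ℕ)
    (hm : 2 ≤ m) : ∃ C : ℕ, ∀ (Γ W : Type) [Group Γ] [AddCommGroup W] [Module K W]
    [FiniteDimensional K W] (R : SL K Γ W), R.Adm → finrank K W = m →
    ∃ e : Module.End K W, e * e = e ∧ e ≠ 0 ∧ e ≠ 1 ∧ (R.orb e).Finite ∧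
      (R.orb e).ncard ≤ C := by
  classical
  obtain ⟨J, hJ⟩ := jordan_field K ι m
  refine ⟨m * m + m + J ^ (2 ^ (m * m)) * m, ?_⟩
  intro Γ W _ _ _ _ R hR hW
  by_cases hsc : ∀ g : R.τ.ker, ∃ a : K, R.lin g = a • (1 : Module.End K W)
  · -- everything linear acts by scalars
    obtain ⟨e, h1, h2, h3, h4, h5⟩ := hR.caseA (by
      intro γ hγ u
      obtain ⟨a, ha⟩ := hsc ⟨γ, hγ⟩
      have h1 := R.conj_of_ker ⟨γ, hγ⟩ u
      have h2 : R.lin ⟨γ, hγ⟩ * R.lin ⟨γ, hγ⟩⁻¹ = 1 := by
        rw [← map_mul, mul_inv_cancel, map_one]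
      have h3 : R.lin ⟨γ, hγ⟩ * u = u * R.lin ⟨γ, hγ⟩ := by
        rw [ha]
        simp
      rw [h3] at h1
      have h4 := congrArg (fun x => x * R.lin ⟨γ, hγ⟩⁻¹) h1
      simp only [mul_assoc, h2, mul_one] at h4
      exact h4) (by omega)
    exact ⟨e, h1, h2, h3, h4, by rw [hW] at h5; omega⟩
  push Not at hsc
  obtain ⟨g₀, hg₀⟩ := hsc
  -- choose a commuting subgroup with smallest span
  have hex : ∃ r : ℕ, ∃ H : Subgroup R.τ.ker, (∀ a ∈ H, ∀ b ∈ H, R.lin a * R.lin b = R.lin b * R.lin a) ∧
      H.index ≠ 0 ∧ finrank K (Submodule.span K (R.lin '' (H : Set R.τ.ker))) = r ∧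
      H.index ≤ J ^ (2 ^ (m * m - r)) := by
    obtain ⟨H, h1, h2, h3⟩ := hJ R.τ.ker W hW R.lin hR.projFinite
    refine ⟨_, H, h3, h2, rfl, ?_⟩
    calc H.index ≤ J := h1
      _ = J ^ 1 := (pow_one J).symm
      _ ≤ _ := Nat.pow_le_pow_right (by omega) Nat.one_le_two_pow
  obtain ⟨H, hHc, hH0, hHr, hHi⟩ := Nat.find_spec hex
  have hmin := fun n => Nat.find_min' (m := n) hex
  set r := Nat.find hex with hr
  have hJ1 : 1 ≤ J := by
    by_contra hJ0
    have : J = 0 := by omega
    rw [this, zero_pow (by positivity)] at hHi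
    omega
  have hdim : finrank K (Module.End K W) = m * m := by
    rw [show finrank K (Module.End K W) = finrank K W * finrank K W from
      Module.finrank_linearMap K K W W, hW]
  have hrle : r ≤ m * m := by
    rw [← hHr, ← hdim]
    exact Submodule.finrank_le _
  set A := Submodule.span K (R.lin '' (H : Set R.τ.ker)) with hA
  have hnorm : R.τ.ker.Normal := inferInstance
  -- invariance
  have hinv : ∀ γ, ∀ a ∈ A, R.conj γ a ∈ A := by
    intro γ
    -- the automorphism of the kernel
    let φ : R.τ.ker →* R.τ.ker :=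
      { toFun := fun x => ⟨γ * x * γ⁻¹, hnorm.conj_mem _ x.2 γ⟩
        map_one' := by
          apply Subtype.ext
          simp
        map_mul' := by
          intro x y
          apply Subtype.ext
          simp [mul_assoc] }
    have hφ : ∀ x, ((φ x : R.τ.ker) : Γ) = γ * x * γ⁻¹ := fun x => rfl
    have hsurj : Function.Surjective φ := by
      intro x
      refine ⟨⟨γ⁻¹ * x * γ, by simpa using hnorm.conj_mem _ x.2 γ⁻¹⟩, ?_⟩
      apply Subtype.ext
      rw [hφ]
      simp [mul_assoc]
    have hidx : (H.comap φ).index = H.index := Subgroup.index_comap_of_surjective H hsurj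
    set H' := H ⊓ H.comap φ with hH'
    have h1 : H'.index ≤ H.index * H.index := by
      have := Subgroup.index_inf_le (H := H) (K := H.comap φ)
      rwa [hidx] at this
    have h2 : H'.index ≠ 0 := Subgroup.index_inf_ne_zero hH0 (by rw [hidx]; exact hH0)
    have hsub : Submodule.span K (R.lin '' (H' : Set R.τ.ker)) ≤ A :=
      Submodule.span_mono (Set.image_mono (fun x hx => hx.1))
    have heq : Submodule.span K (R.lin '' (H' : Set R.τ.ker)) = A := by
      apply Submodule.eq_of_le_of_finrank_le hsub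
      by_contra hlt
      push Not at hlt
      rw [hHr] at hlt
      set r' := finrank K (Submodule.span K (R.lin '' (H' : Set R.τ.ker))) with hr'
      have h3 := hmin r' ⟨H', fun a ha b hb => hHc a ha.1 b hb.1, h2, rfl, by
        calc H'.index ≤ H.index * H.index := h1
          _ ≤ J ^ (2 ^ (m * m - r)) * J ^ (2 ^ (m * m - r)) := Nat.mul_le_mul hHi hHi
          _ = J ^ (2 ^ (m * m - r + 1)) := by rw [← pow_add, pow_succ, mul_two]
          _ ≤ J ^ (2 ^ (m * m - r')) :=
            Nat.pow_le_pow_right hJ1 (Nat.pow_le_pow_right (by norm_num) (by omega))⟩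
      omega
    intro a ha
    rw [← heq] at ha
    induction ha using Submodule.span_induction with
    | mem x hx =>
      obtain ⟨y, hy, rfl⟩ := hx
      rw [R.conj_lin γ y (φ y) (hφ y)]
      exact Submodule.subset_span ⟨φ y, hy.2, rfl⟩
    | zero => rw [map_zero]; exact A.zero_mem
    | add x y _ _ hx hy => rw [map_add]; exact A.add_mem hx hy
    | smul c x _ hx => rw [R.conj_smul]; exact A.smul_mem _ hx
  have hone : (1 : Module.End K W) ∈ A := Submodule.subset_span ⟨1, H.one_mem, map_one _⟩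
  have hmul : ∀ a ∈ A, ∀ b ∈ A, a * b ∈ A := by
    intro a ha b hb
    induction ha using Submodule.span_induction with
    | mem x hx =>
      obtain ⟨x, hx, rfl⟩ := hx
      induction hb using Submodule.span_induction with
      | mem y hy =>
        obtain ⟨y, hy, rfl⟩ := hy
        rw [← map_mul]
        exact Submodule.subset_span ⟨x * y, H.mul_mem hx hy, rfl⟩
      | zero => rw [mul_zero]; exact A.zero_mem
      | add y z _ _ hy hz => rw [mul_add]; exact A.add_mem hy hz
      | smul c y _ hy => rw [mul_smul_comm]; exact A.smul_mem _ hy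
    | zero => rw [zero_mul]; exact A.zero_mem
    | add y z _ _ hy hz => rw [add_mul]; exact A.add_mem hy hz
    | smul c y _ hy => rw [smul_mul_assoc]; exact A.smul_mem _ hy
  have hcomm : ∀ a ∈ A, ∀ b ∈ A, a * b = b * a := by
    intro a ha b hb
    induction ha using Submodule.span_induction with
    | mem x hx =>
      obtain ⟨x, hx, rfl⟩ := hx
      induction hb using Submodule.span_induction with
      | mem y hy =>
        obtain ⟨y, hy, rfl⟩ := hy
        exact hHc x hx y hy
      | zero => rw [mul_zero, zero_mul]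
      | add y z _ _ hy hz => rw [mul_add, add_mul, hy, hz]
      | smul c y _ hy => rw [mul_smul_comm, smul_mul_assoc, hy]
    | zero => rw [zero_mul, mul_zero]
    | add y z _ _ hy hz => rw [add_mul, mul_add, hy, hz]
    | smul c y _ hy => rw [smul_mul_assoc, mul_smul_comm, hy]
  have hnt : Nontrivial W := Module.nontrivial_of_finrank_pos (R := K) (by omega)
  by_cases hall : ∀ h ∈ H, ∃ a : K, R.lin h = a • (1 : Module.End K W)
  · obtain ⟨e, h1, h2, h3, h4, h5⟩ := SL.orbit_of_scalar hR (by omega) H hH0 hall g₀ hg₀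
    refine ⟨e, h1, h2, h3, h4, h5.trans ?_⟩
    rw [hW]
    have h6 : H.index ≤ J ^ (2 ^ (m * m)) := hHi.trans
      (Nat.pow_le_pow_right hJ1 (Nat.pow_le_pow_right (by norm_num) (by omega)))
    exact (Nat.mul_le_mul_right m h6).trans (Nat.le_add_left _ _)
  · push Not at hall
    obtain ⟨h, hh, hns⟩ := hall
    obtain ⟨N, hN, c, hc, hpow⟩ := hR.projFinite.pow_scalar h
    obtain ⟨μ, hμ, ν, hν, hne⟩ := two_eigen_of_pow (R.lin h) N hN c hc hpow hns
    have hmem : sid (R.lin h) μ ∈ A := by
      have h1 := sid_mem_adjoin (R.lin h) μ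
      generalize sid (R.lin h) μ = z at h1
      induction h1 using Algebra.adjoin_induction with
      | mem x hx =>
        rw [Set.mem_singleton_iff] at hx
        rw [hx]
        exact Submodule.subset_span ⟨h, hh, rfl⟩
      | algebraMap a =>
        rw [Algebra.algebraMap_eq_smul_one]
        exact A.smul_mem _ hone
      | add x y _ _ hx hy => exact A.add_mem hx hy
      | mul x y _ _ hx hy => exact hmul x hx y hy
    obtain ⟨e, h1, h2, h3, h4, h5⟩ := SL.orbit_of_invariant A hmul hcomm hinv (sid (R.lin h) μ)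
      hmem (sid_mul_self _ μ hμ) (sid_ne_zero _ μ hμ (by omega))
      (sid_ne_one _ μ ν hν hne (by omega))
    refine ⟨e, h1, h2, h3, h4, h5.trans ?_⟩
    rw [hW]
    omega

end Run7.h185.FOM
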