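import Mathlib
import Pool.Agent.Run7.h185.FOM.SmallC

/-!
# A basis of lines stable under a subgroup of bounded index
-/

namespace Run7.h185.FOM

open Polynomial Module

lemma isCompl_of_idem {K W : Type} [Field K] [AddCommGroup W] [Module K W]
    (e : Module.End K W) (he : e * e = e) :
    IsCompl (LinearMap.range e) (LinearMap.range (1 - e)) := by
  have hee : ∀ w, e (e w) = e w := fun w => congrArg (fun T : Module.End K W => T w) he
  constructor
  · rw [Submodule.disjoint_def]
    rintro _ ⟨v, rfl⟩ ⟨u, hu⟩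
    have h1 : e ((1 - e : Module.End K W) u) = 0 := by
      simp [LinearMap.sub_apply, hee]
    rw [hu, hee] at h1
    exact h1
  · rw [codisjoint_iff, eq_top_iff]
    intro w _
    rw [Submodule.mem_sup]
    exact ⟨e w, ⟨w, rfl⟩, (1 - e : Module.End K W) w, ⟨w, rfl⟩, by simp⟩

theorem exists_lines (K : Type) [Field K] [IsAlgClosed K] [CharZero K] (ι : K →+* ℂ) (m : ℕ) :
    ∃ C : ℕ, ∀ (Γ W : Type) [Group Γ] [AddCommGroup W] [Module K W]
    [FiniteDimensional K W] (R : SL K Γ W), R.Adm → finrank K W = m →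
    ∃ (I : Type) (b : Basis I K W) (S : Subgroup Γ), S.index ≤ C ∧ S.index ≠ 0 ∧
      ∀ γ ∈ S, ∀ i, ∃ c : K, R.ρ γ (b i) = c • b i := by
  classical
  induction m using Nat.strong_induction_on with
  | _ m ih =>
  choose! C hC using ih
  rcases Nat.lt_or_ge m 2 with hm | hm
  · refine ⟨1, ?_⟩
    intro Γ W _ _ _ _ R hR hW
    refine ⟨Fin m, finBasisOfFinrankEq K W hW, ⊤, by simp, by simp, ?_⟩
    intro γ _ i
    set b := finBasisOfFinrankEq K W hW
    have hsub : Subsingleton (Fin m) := by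
      rw [Fin.subsingleton_iff_le_one]
      omega
    refine ⟨b.repr (R.ρ γ (b i)) i, ?_⟩
    conv_lhs => rw [← b.sum_repr (R.ρ γ (b i))]
    rw [Finset.sum_eq_single i]
    · intro j _ hj
      exact absurd (Subsingleton.elim j i) hj
    · intro h
      exact absurd (Finset.mem_univ i) h
  · obtain ⟨B, hB⟩ := small_orbit K ι m hm
    set M := ∑ i ∈ Finset.range m, C i with hM
    have hCM : ∀ i < m, C i ≤ M := fun i hi =>
      Finset.single_le_sum (f := C) (fun _ _ => Nat.zero_le _) (Finset.mem_range.2 hi)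
    refine ⟨(M * M) * B, ?_⟩
    intro Γ W _ _ _ _ R hR hW
    obtain ⟨e, hee, he0, he1, hfin, hcard⟩ := hB Γ W R hR hW
    have hcompl := isCompl_of_idem e hee
    have hee' : (1 - e) * (1 - e) = 1 - e := by
      have : (1 - e) * (1 - e) = 1 - e - (e - e * e) := by noncomm_ring
      rw [this, hee, sub_self, sub_zero]
    have hdim : finrank K (LinearMap.range e) + finrank K (LinearMap.range (1 - e)) = m := by
      rw [← hW]
      exact Submodule.finrank_add_eq_of_isCompl hcompl
    have hpos1 : 0 < finrank K (LinearMap.range e) := by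
      rw [Module.finrank_pos_iff_exists_ne_zero]
      by_contra h
      push Not at h
      apply he0
      ext w
      exact congrArg Subtype.val (h ⟨e w, w, rfl⟩)
    have hpos2 : 0 < finrank K (LinearMap.range (1 - e)) := by
      rw [Module.finrank_pos_iff_exists_ne_zero]
      by_contra h
      push Not at h
      apply he1
      have : (1 - e) = 0 := by
        ext w
        exact congrArg Subtype.val (h ⟨(1 - e : Module.End K W) w, w, rfl⟩)
      exact (sub_eq_zero.1 this).symm
    set Γ' := R.stab e with hΓ'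
    have hstab1 : ∀ γ, γ ∈ Γ' ↔ R.conj γ e = e := fun γ => Iff.rfl
    have hstab2 : ∀ γ, γ ∈ Γ' ↔ R.conj γ (1 - e) = 1 - e := by
      intro γ
      rw [hstab1, map_sub, map_one, sub_right_inj]
    obtain ⟨I₁, b₁, S₁, hS₁, hS₁', hb₁⟩ := hC _ (by omega) Γ' (LinearMap.range e) _
      (hR.restrict e hee Γ' hstab1) rfl
    obtain ⟨I₂, b₂, S₂, hS₂, hS₂', hb₂⟩ := hC _ (by omega) Γ' (LinearMap.range (1 - e)) _
      (hR.restrict (1 - e) hee' Γ' hstab2) rfl
    refine ⟨I₁ ⊕ I₂, (b₁.prod b₂).map (Submodule.prodEquivOfIsCompl _ _ hcompl),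
      (S₁ ⊓ S₂).map Γ'.subtype, ?_, ?_, ?_⟩
    · rw [Subgroup.index_map_subtype]
      have h1 := Subgroup.index_inf_le (H := S₁) (K := S₂)
      have h2 : S₁.index * S₂.index ≤ M * M :=
        Nat.mul_le_mul (hS₁.trans (hCM _ (by omega))) (hS₂.trans (hCM _ (by omega)))
      have h3 : Γ'.index ≤ B := by rw [hΓ', R.index_stab]; exact hcard
      exact Nat.mul_le_mul (h1.trans h2) h3
    · rw [Subgroup.index_map_subtype]
      exact mul_ne_zero (Subgroup.index_inf_ne_zero hS₁' hS₂') (R.index_stab_ne_zero e hfin)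
    · rintro _ ⟨γ, ⟨h1, h2⟩, rfl⟩ (i | i)
      · obtain ⟨c, hc⟩ := hb₁ γ h1 i
        refine ⟨c, ?_⟩
        have h3 := congrArg Subtype.val hc
        rw [SL.restrict_ρ] at h3
        simpa using h3
      · obtain ⟨c, hc⟩ := hb₂ γ h2 i
        refine ⟨c, ?_⟩
        have h3 := congrArg Subtype.val hc
        rw [SL.restrict_ρ] at h3
        simpa using h3

/-- the same with a basis indexed by `Fin m` -/
theorem exists_lines_fin (K : Type) [Field K] [IsAlgClosed K] [CharZero K] (ι : K →+* ℂ) (m : ℕ) :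
    ∃ C : ℕ, ∀ (Γ W : Type) [Group Γ] [AddCommGroup W] [Module K W]
    [FiniteDimensional K W] (R : SL K Γ W), R.Adm → finrank K W = m →
    ∃ (b : Basis (Fin m) K W) (S : Subgroup Γ), S.index ≤ C ∧ S.index ≠ 0 ∧
      ∀ γ ∈ S, ∀ i, ∃ c : K, R.ρ γ (b i) = c • b i := by
  obtain ⟨C, hC⟩ := exists_lines K ι m
  refine ⟨C, ?_⟩
  intro Γ W _ _ _ _ R hR hW
  obtain ⟨I, b, S, h1, h2, h3⟩ := hC Γ W R hR hW
  have : Finite I := Module.Finite.finite_basis b
  have : Fintype I := Fintype.ofFinite I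
  have hcard : Fintype.card I = m := by rw [← hW, Module.finrank_eq_card_basis b]
  refine ⟨b.reindex (Fintype.equivFinOfCardEq hcard), S, h1, h2, ?_⟩
  intro γ hγ i
  obtain ⟨c, hc⟩ := h3 γ hγ ((Fintype.equivFinOfCardEq hcard).symm i)
  exact ⟨c, by rw [Basis.reindex_apply]; exact hc⟩

end Run7.h185.FOM
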