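import Mathlib
import Pool.Agent.Run7.h185.FOM.Moduli
import Pool.Agent.Run7.h185.FOM.Lat
import Pool.Agent.Run7.h185.FOM.Fixed
import Pool.Agent.Run7.h185.FOM.Lines

/-!
# The uniform bound
-/

namespace Run7.h185.FOM

open MvPolynomial Module

variable {N d : ℕ}

/-- the polynomial `p(y₁ x₁, …, yₙ xₙ)` -/
noncomputable def scale {n : ℕ} (y : Fin n → Qbar) (p : MvPolynomial (Fin n) Qbar) :
    MvPolynomial (Fin n) Qbar := aeval (fun j => C (y j) * X j) p

lemma eval_scale {n : ℕ} (y : Fin n → Qbar) (p : MvPolynomial (Fin n) Qbar) (x : Fin n → Qbar) :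
    eval x (scale y p) = eval (fun j => y j * x j) p := by
  unfold scale
  rw [eval_aeval]
  congr 2
  funext j
  simp

lemma coeff_scale {n : ℕ} (y : Fin n → Qbar) (p : MvPolynomial (Fin n) Qbar) (m : Fin n →₀ ℕ) :
    coeff m (scale y p) = (∏ j, y j ^ m j) * coeff m p := by
  classical
  unfold scale
  induction p using MvPolynomial.induction_on' with
  | monomial u a =>
    rw [aeval_monomial, Finsupp.prod_fintype _ _ (fun i => by simp)]
    have h1 : (∏ i, (C (y i) * X i : MvPolynomial (Fin n) Qbar) ^ u i) =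
        C (∏ i, y i ^ u i) * monomial u 1 := by
      simp only [mul_pow]
      rw [Finset.prod_mul_distrib, map_prod]
      congr 1
      · apply Finset.prod_congr rfl
        intro i _
        rw [map_pow]
      · rw [monomial_eq, Finsupp.prod_fintype _ _ (fun i => by simp)]
        simp
    rw [h1, algebraMap_eq, ← mul_assoc, ← map_mul, coeff_C_mul, coeff_monomial, coeff_monomial]
    by_cases h : u = m
    · subst h
      simp
      ring
    · simp [h]
  | add p q hp hq => rw [map_add, coeff_add, coeff_add, hp, hq, mul_add]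

/-- a diagonal matrix -/
noncomputable def diagGL (y : Fin (N + 1) → Qbarˣ) :
    Matrix.GeneralLinearGroup (Fin (N + 1)) Qbar where
  val := Matrix.diagonal fun j => (y j : Qbar)
  inv := Matrix.diagonal fun j => ((y j)⁻¹ : Qbarˣ)
  val_inv := by
    rw [Matrix.diagonal_mul_diagonal]
    simp
  inv_val := by
    rw [Matrix.diagonal_mul_diagonal]
    simp

lemma coeff_conj_diag (g : Mor N d) (y : Fin (N + 1) → Qbarˣ) (i : Fin (N + 1))
    (m : Fin (N + 1) →₀ ℕ) :
    coeff m ((g.conj (diagGL y)).poly i) =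
      (y i : Qbar)⁻¹ * (∏ j, (y j : Qbar) ^ m j) * coeff m (g.poly i) := by
  have h1 : (g.conj (diagGL y)).poly i = C ((y i : Qbar)⁻¹) * scale (fun j => (y j : Qbar)) (g.poly i) := by
    apply MvPolynomial.funext
    intro x
    have h2 := congrFun (g.ev_conj (diagGL y) x) i
    rw [Mor.ev_apply] at h2
    rw [h2, map_mul, eval_C, eval_scale]
    change (Matrix.diagonal fun j => (((y j)⁻¹ : Qbarˣ) : Qbar)).mulVec
      (g.ev ((Matrix.diagonal fun j => (y j : Qbar)).mulVec x)) i = _
    rw [Matrix.mulVec_diagonal, Mor.ev_apply, Units.val_inv_eq_inv_val]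
    congr 3
    funext j
    rw [Matrix.mulVec_diagonal]
  rw [h1, coeff_C_mul, coeff_scale]
  ring

/-- the fixed field of a subgroup -/
def fixedL {G : Type} [Group G] (τ : G →* (Qbar ≃+* Qbar)) (S : Subgroup G)
    (hτ : ∀ γ (q : ℚ), τ γ (algebraMap ℚ Qbar q) = algebraMap ℚ Qbar q) :
    IntermediateField ℚ Qbar where
  carrier := {x | ∀ γ ∈ S, τ γ x = x}
  mul_mem' {x y} hx hy γ hγ := by rw [map_mul, hx γ hγ, hy γ hγ]
  add_mem' {x y} hx hy γ hγ := by rw [map_add, hx γ hγ, hy γ hγ]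
  algebraMap_mem' x γ _ := hτ γ x
  inv_mem' x hx γ hγ := by rw [map_inv₀, hx γ hγ]

/-- **the uniform bound** -/
theorem exists_bound (N : ℕ) : ∃ C : ℕ, ∀ d, 2 ≤ d → ∀ f : Mor N d,
    ∃ L : IntermediateField ℚ Qbar, f.IsFieldOfDefinition L ∧
      f.fieldOfModuli ≤ L ∧ IntermediateField.relrank f.fieldOfModuli L ≤ C := by
  classical
  have halg := isAlgebraic_qbar
  let ι : Qbar →+* ℂ := (IsAlgClosed.lift : Qbar →ₐ[ℚ] ℂ).toRingHom
  obtain ⟨C₀, hC₀⟩ := exists_lines_fin Qbar ι (N + 1)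
  refine ⟨C₀, ?_⟩
  intro d hd f
  obtain ⟨b, S, hS1, hS2, hS3⟩ := hC₀ f.grp (Fin (N + 1) → Qbar) f.sl (f.adm hd) (by simp)
  refine ⟨fixedL f.sl.τ S (fun γ q => γ.1.1.commutes q), ?_, ?_, ?_⟩
  · -- rationality
    -- scalars
    choose c hc using fun (γ : S) => hS3 γ γ.2
    choose lam hlam0 hlam using fun (γ : S) => γ.1.2.2
    have hc0 : ∀ γ i, c γ i ≠ 0 := by
      intro γ i h0
      have h1 := hc γ i
      rw [h0, zero_smul] at h1
      have h2 := f.sl.ρ_inv_apply' γ.1 (b i)
      rw [h1, map_zero] at h2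
      exact b.ne_zero i h2.symm
    -- the change of basis
    set P := glOf b.equivFun.symm with hP
    set g := f.conj P with hg
    have hPv : ∀ v, P.1.mulVec v = ∑ i, v i • b i := by
      intro v
      rw [hP, glOf_mulVec, Basis.equivFun_symm_apply]
    have hPγ : ∀ (γ : S) (x : Fin (N + 1) → Qbar),
        P.1.mulVec (fun i => c γ i * γ.1.1.1 (x i)) = f.sl.ρ γ.1 (P.1.mulVec x) := by
      intro γ x
      rw [hPv, hPv, map_sum]
      apply Finset.sum_congr rfl
      intro i _
      rw [f.sl.semi, hc γ i, smul_smul, mul_comm]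
      rfl
    have hgev : ∀ (γ : S) (x : Fin (N + 1) → Qbar) (i : Fin (N + 1)),
        g.ev (fun i => c γ i * γ.1.1.1 (x i)) i = lam γ * (c γ i * γ.1.1.1 (g.ev x i)) := by
      intro γ x i
      have h1 : f.ev (P.1.mulVec x) = P.1.mulVec (g.ev x) := by
        rw [hg, Mor.ev_conj, mulVec_inv_mulVec]
      have h2 : g.ev (fun i => c γ i * γ.1.1.1 (x i)) =
          lam γ • (fun i => c γ i * γ.1.1.1 (g.ev x i)) := by
        rw [hg, Mor.ev_conj, hPγ]
        have h3 := hlam γ (P.1.mulVec x)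
        rw [Mor.sl_ρ, h3, h1]
        have h4 := hPγ γ (g.ev x)
        rw [Mor.sl_ρ] at h4
        rw [← h4, Matrix.mulVec_smul, inv_mulVec_mulVec]
      have h3 := congrFun h2 i
      rw [h3]
      rfl
    have hcoef : ∀ (γ : S) (i : Fin (N + 1)) (m : Fin (N + 1) →₀ ℕ),
        (∏ j, c γ j ^ m j) * coeff m (g.poly i) = lam γ * c γ i * γ.1.1.1 (coeff m (g.poly i)) := by
      intro γ i m
      have h1 : scale (c γ) (g.poly i) =
          C (lam γ * c γ i) * map (γ.1.1.1 : Qbar →+* Qbar) (g.poly i) := by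
        apply MvPolynomial.funext
        intro y
        have h2 := hgev γ (fun j => γ.1.1.1.symm (y j)) i
        simp only [AlgEquiv.apply_symm_apply] at h2
        rw [eval_scale, map_mul, eval_C]
        rw [Mor.ev_apply] at h2
        rw [h2, mul_assoc]
        congr 2
        have h3 := map_eval (γ.1.1.1 : Qbar →+* Qbar) (fun j => γ.1.1.1.symm (y j)) (g.poly i)
        have h4 : ((γ.1.1.1 : Qbar →+* Qbar) ∘ fun j => γ.1.1.1.symm (y j)) = y := by
          funext j
          exact γ.1.1.1.apply_symm_apply _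
        rw [h4] at h3
        rw [← h3]
        rfl
      have h2 := congrArg (coeff m) h1
      rw [coeff_scale, coeff_C_mul, coeff_map] at h2
      exact h2
    -- the characters
    let cu : S → Fin (N + 1) → Qbarˣ := fun γ i => Units.mk0 (c γ i) (hc0 γ i)
    let lu : S → Qbarˣ := fun γ => Units.mk0 (lam γ) (hlam0 γ)
    let Θ : S → ((Fin (N + 1) → ℤ) × ℤ →+ Additive Qbarˣ) := fun γ =>
      { toFun := fun χ => (∑ j, χ.1 j • Additive.ofMul (cu γ j)) + χ.2 • Additive.ofMul (lu γ)
        map_zero' := by simp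
        map_add' := by
          intro χ ψ
          simp only [Prod.fst_add, Prod.snd_add, Pi.add_apply, add_zsmul, Finset.sum_add_distrib]
          abel }
    have hΘ : ∀ γ χ, (((Θ γ χ).toMul : Qbarˣ) : Qbar) = (∏ j, c γ j ^ χ.1 j) * lam γ ^ χ.2 := by
      intro γ χ
      simp only [Θ, AddMonoidHom.coe_mk, ZeroHom.coe_mk, toMul_add, toMul_sum, toMul_zsmul,
        toMul_ofMul, Units.val_mul, Units.coe_prod, Units.val_zpow_eq_zpow_val, cu, lu,
        Units.val_mk0]
    obtain ⟨Y, hY⟩ := lattice_section (fun γ : S => f.sl.τ γ.1) Θ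
    let y : Fin (N + 1) → Qbarˣ := fun j => (Y (Pi.single j 1, 0)).toMul
    let μ : Qbarˣ := (Y (0, 1)).toMul
    have hYv : ∀ χ, (((Y χ).toMul : Qbarˣ) : Qbar) = (∏ j, (y j : Qbar) ^ χ.1 j) * (μ : Qbar) ^ χ.2 := by
      intro χ
      have h1 : χ = (∑ j, χ.1 j • ((Pi.single j 1, 0) : (Fin (N + 1) → ℤ) × ℤ)) +
          χ.2 • ((0, 1) : (Fin (N + 1) → ℤ) × ℤ) := by
        apply Prod.ext
        · funext k
          simp [Prod.fst_sum, Finset.sum_apply, Pi.single_apply]
        · simp [Prod.snd_sum]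
      conv_lhs => rw [h1]
      rw [map_add, map_sum, toMul_add, toMul_sum, Units.val_mul, Units.coe_prod]
      simp only [map_zsmul, toMul_zsmul, Units.val_zpow_eq_zpow_val, y, μ]
    refine ⟨P * diagGL y, ((μ⁻¹ : Qbarˣ) : Qbar), Units.ne_zero _, ?_⟩
    intro i m γ hγ
    rw [← Mor.conj_conj, ← hg, coeff_conj_diag]
    by_cases ha : coeff m (g.poly i) = 0
    · rw [ha, mul_zero, mul_zero, map_zero]
    · -- the character of the coefficient
      set a := coeff m (g.poly i) with hadef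
      set χ : (Fin (N + 1) → ℤ) × ℤ := (fun j => (m j : ℤ) - Pi.single (M := fun _ => ℤ) i 1 j, -1) with hχ
      have hprod : ∀ z : Fin (N + 1) → Qbar, (∀ j, z j ≠ 0) →
          (∏ j, z j ^ χ.1 j) = (∏ j, z j ^ m j) * (z i)⁻¹ := by
        intro z hz
        have h1 : ∀ j, z j ^ χ.1 j = z j ^ m j * (if j = i then (z j)⁻¹ else 1) := by
          intro j
          rw [hχ]
          simp only [Pi.single_apply]
          split_ifs with h
          · rw [zpow_sub₀ (hz j), zpow_one, zpow_natCast]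
            rfl
          · rw [sub_zero, zpow_natCast, mul_one]
        rw [Finset.prod_congr rfl fun j _ => h1 j, Finset.prod_mul_distrib]
        congr 1
        rw [Finset.prod_ite_eq' Finset.univ i fun j => (z j)⁻¹]
        simp
      have hE : ∀ δ : S, f.sl.τ δ.1 ((Units.mk0 a ha)⁻¹ : Qbarˣ) * ((Θ δ χ).toMul : Qbarˣ) =
          (((Units.mk0 a ha)⁻¹ : Qbarˣ) : Qbar) := by
        intro δ
        rw [hΘ, hprod _ (hc0 δ), Units.val_inv_eq_inv_val, Units.val_mk0, map_inv₀]
        have h1 := hcoef δ i m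
        rw [← hadef] at h1
        change (δ.1.1.1 a)⁻¹ * _ = _
        have h2 : δ.1.1.1 a ≠ 0 := by simpa using ha
        have h3 : (∏ j, c δ j ^ m j) = lam δ * c δ i * δ.1.1.1 a * a⁻¹ := by
          rw [← h1, mul_assoc, mul_inv_cancel₀ ha, mul_one]
        rw [h3]
        have h4 : lam δ ^ χ.2 = (lam δ)⁻¹ := by
          rw [hχ]
          simp
        rw [h4]
        have h5 := hc0 δ i
        have h6 := hlam0 δ
        field_simp
      have hY1 := hY χ (Units.mk0 a ha)⁻¹ hE ⟨γ, hγ⟩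
      have hE1 := hE ⟨γ, hγ⟩
      have hz : ((μ⁻¹ : Qbarˣ) : Qbar) * ((y i : Qbar)⁻¹ * (∏ j, (y j : Qbar) ^ m j) * a) =
          (((Y χ).toMul : Qbarˣ) : Qbar) * a := by
        rw [hYv χ, hprod _ (fun j => (y j).ne_zero)]
        have h4 : (μ : Qbar) ^ χ.2 = (μ : Qbar)⁻¹ := by
          rw [hχ]
          simp
        rw [h4, Units.val_inv_eq_inv_val]
        ring
      rw [hz, map_mul]
      set t := (((Θ ⟨γ, hγ⟩ χ).toMul : Qbarˣ) : Qbar) with ht
      have ht0 : t ≠ 0 := Units.ne_zero _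
      simp only at hY1 hE1
      rw [Units.val_inv_eq_inv_val, Units.val_mk0, map_inv₀] at hE1
      have h7 : f.sl.τ γ a = t * a := by
        have h8 : f.sl.τ γ a ≠ 0 := by
          intro h
          exact ha ((map_eq_zero _).1 h)
        rw [inv_mul_eq_iff_eq_mul₀ h8] at hE1
        rw [hE1, mul_assoc, inv_mul_cancel₀ ha, mul_one]
      rw [h7]
      calc f.sl.τ γ (((Y χ).toMul : Qbarˣ) : Qbar) * (t * a) =
          (f.sl.τ γ (((Y χ).toMul : Qbarˣ) : Qbar) * t) * a := by ring
        _ = _ := by rw [hY1]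
  · intro x hx γ _
    exact (f.mem_fieldOfModuli_iff x).1 hx γ
  · have h1 := relrank_le_index f.sl.τ S hS2 f.fieldOfModuli.toSubfield
      (fixedL f.sl.τ S (fun γ q => γ.1.1.commutes q)).toSubfield
      (fun x => f.mem_fieldOfModuli_iff x) (fun x hx => hx)
      (fun x hx γ _ => (f.mem_fieldOfModuli_iff x).1 hx γ)
    refine le_trans h1 ?_
    exact_mod_cast hS1

end Run7.h185.FOM
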